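import Pool.Agent.Work.MP_b44cb1_al.Full.Kit.FrKit
import Pool.Agent.Work.MP_b44cb1_al.Glau

/-!
# KIT / GlauC : Glauberman's lemma for a `p`-group `W` and any group `B` of order prime to `p`
(K1), fixed representatives (K2), lifting of fixed points (K3). All proved.
-/

set_option autoImplicit false

namespace Pool.Agent.Work.MP_b44cb1_al

open Subgroup
open scoped commutatorElement

universe u v

section Orb

variable {G : Type u} [Group G] {α : Type v} [MulAction G α]

/-- The set of the `Z`-orbits. -/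
private def Orb (Z : Subgroup G) (α : Type v) [MulAction G α] : Type v :=
  {S : Set α // ∃ a : α, S = {y | ∃ z ∈ Z, y = z • a}}

private def orbMk (Z : Subgroup G) (a : α) : Orb Z α := ⟨{y | ∃ z ∈ Z, y = z • a}, a, rfl⟩

private theorem orbMk_eq {Z : Subgroup G} {a b : α} :
    orbMk Z a = orbMk Z b ↔ ∃ z ∈ Z, a = z • b := by
  constructor
  · intro h
    have h0 : {y | ∃ z ∈ Z, y = z • a} = {y | ∃ z ∈ Z, y = z • b} := congrArg Subtype.val h
    have h1 : a ∈ {y | ∃ z ∈ Z, y = z • a} := ⟨1, one_mem _, (one_smul _ _).symm⟩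
    rw [h0] at h1
    exact h1
  · rintro ⟨z, hz, rfl⟩
    apply Subtype.ext
    show {y | ∃ w ∈ Z, y = w • z • b} = {y | ∃ w ∈ Z, y = w • b}
    ext y
    constructor
    · rintro ⟨w, hw, rfl⟩
      exact ⟨w * z, mul_mem hw hz, (mul_smul _ _ _).symm⟩
    · rintro ⟨w, hw, rfl⟩
      exact ⟨w * z⁻¹, mul_mem hw (inv_mem hz), by rw [smul_smul, inv_mul_cancel_right]⟩

private theorem orb_surj {Z : Subgroup G} (S : Orb Z α) : ∃ a : α, S = orbMk Z a := by
  obtain ⟨S, a, rfl⟩ := S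
  exact ⟨a, rfl⟩

/-- The action of the group on the orbits of a normal subgroup. -/
@[reducible] private noncomputable def orbAct (Z : Subgroup G) [hZ : Z.Normal] :
    MulAction G (Orb Z α) where
  smul g S := orbMk Z (g • (orb_surj S).choose)
  one_smul S := by
    show orbMk Z ((1 : G) • (orb_surj S).choose) = S
    rw [one_smul]
    exact (orb_surj S).choose_spec.symm
  mul_smul g h S := by
    show orbMk Z ((g * h) • (orb_surj S).choose) =
      orbMk Z (g • (orb_surj (orbMk Z (h • (orb_surj S).choose))).choose)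
    have h1 := (orb_surj (orbMk Z (h • (orb_surj S).choose))).choose_spec
    generalize (orb_surj (orbMk Z (h • (orb_surj S).choose))).choose = c at h1 ⊢
    generalize (orb_surj S).choose = a at h1 ⊢
    obtain ⟨z, hz, hz'⟩ := orbMk_eq.1 h1
    refine orbMk_eq.2 ⟨g * z * g⁻¹, hZ.conj_mem z hz g, ?_⟩
    rw [mul_smul, hz', smul_smul, smul_smul, inv_mul_cancel_right]

private theorem orbAct_mk (Z : Subgroup G) [hZ : Z.Normal] (g : G) (a : α) :
    letI := orbAct (α := α) Z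
    g • (orbMk Z a : Orb Z α) = orbMk Z (g • a) := by
  show orbMk Z (g • (orb_surj (orbMk Z a)).choose) = orbMk Z (g • a)
  obtain ⟨z, hz, hz'⟩ := orbMk_eq.1 (orb_surj (orbMk Z a)).choose_spec
  conv_rhs => rw [hz']
  refine orbMk_eq.2 ⟨g * z⁻¹ * g⁻¹, hZ.conj_mem _ (inv_mem hz) g, ?_⟩
  rw [smul_smul, smul_smul]
  congr 1
  group

/-- The action of the quotient group on the orbits. -/
@[reducible] private noncomputable def quoOrbAct (Z : Subgroup G) [hZ : Z.Normal] :
    MulAction (G ⧸ Z) (Orb Z α) :=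
  letI := orbAct (α := α) Z
  MulAction.compHom (Orb Z α) (QuotientGroup.lift Z (MulAction.toPermHom G (Orb Z α)) (by
    intro z hz
    ext S
    obtain ⟨a, rfl⟩ := orb_surj S
    show ((z • (orbMk Z a : Orb Z α)) : Orb Z α) = orbMk Z a
    rw [orbAct_mk]
    exact orbMk_eq.2 ⟨z, hz, rfl⟩))

private theorem quoOrbAct_mk (Z : Subgroup G) [hZ : Z.Normal] (g : G) (a : α) :
    letI := quoOrbAct (α := α) Z
    (QuotientGroup.mk g : G ⧸ Z) • (orbMk Z a : Orb Z α) = orbMk Z (g • a) :=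
  orbAct_mk Z g a

end Orb

private theorem glauC_aux (p : ℕ) (hp : p.Prime) : ∀ n : ℕ, ∀ (G : Type u) [Group G] [Finite G]
    (α : Type v) [MulAction G α] (W B : Subgroup G) (x : α), Nat.card W ≤ n →
    IsPGroup p W → Nz B W → ¬ p ∣ Nat.card B → (∀ b ∈ B, ∃ w ∈ W, b • x = w • x) →
    ∃ u ∈ W, ∀ b ∈ B, b • (u • x) = u • x := by
  haveI : Fact p.Prime := ⟨hp⟩
  intro n
  induction n with
  | zero =>
    intro G _ _ α _ W B x hc
    exact absurd hc (by simpa using (Nat.card_pos (α := W)).ne')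
  | succ n ih =>
    intro G _ _ α _ W B x hc hW hn hB hx
    by_cases hW1 : W = ⊥
    · subst hW1
      refine ⟨1, one_mem _, fun b hb => ?_⟩
      obtain ⟨w, hw, e⟩ := hx b hb
      rw [mem_bot] at hw
      rw [one_smul, e, hw, one_smul]
    haveI hWn : Nontrivial W := (nontrivial_iff_ne_bot W).2 hW1
    haveI hcen : Nontrivial (center W) := hW.center_nontrivial
    set Z : Subgroup G := (center W).map W.subtype with hZdef
    have hZW : Z ≤ W := by
      rintro _ ⟨z, -, rfl⟩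
      exact z.2
    have hZcomm : ∀ z ∈ Z, ∀ w ∈ W, z * w = w * z := by
      rintro _ ⟨z, hz, rfl⟩ w hw
      exact (congrArg Subtype.val (mem_center_iff.1 hz ⟨w, hw⟩)).symm
    have hZmem : ∀ z ∈ W, (∀ w ∈ W, z * w = w * z) → z ∈ Z := by
      intro z hz h
      refine ⟨⟨z, hz⟩, mem_center_iff.2 fun w => Subtype.ext (h w w.2).symm, rfl⟩
    have hZcard : 1 < Nat.card Z := by
      rw [hZdef, Nat.card_congr ((center W).equivMapOfInjective _ W.subtype_injective).toEquiv.symm]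
      exact Finite.one_lt_card
    have hZn : ∀ g : G, (∀ w ∈ W, g * w * g⁻¹ ∈ W) → (∀ w ∈ W, g⁻¹ * w * g ∈ W) →
        ∀ z ∈ Z, g * z * g⁻¹ ∈ Z := by
      intro g h1 h2 z hz
      refine hZmem _ (h1 z (hZW hz)) fun w hw => ?_
      have h3 := hZcomm z hz _ (h2 w hw)
      calc g * z * g⁻¹ * w = g * (z * (g⁻¹ * w * g)) * g⁻¹ := by group
        _ = g * ((g⁻¹ * w * g) * z) * g⁻¹ := by rw [h3]
        _ = w * (g * z * g⁻¹) := by group
    have hBZ : Nz B Z := fun b hb => hZn b (hn b hb) (fun w hw => by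
      have := hn b⁻¹ (inv_mem hb) w hw
      rwa [inv_inv] at this)
    have hWZ : Nz W Z := fun b hb => hZn b (nz_self W b hb) (fun w hw => by
      have := nz_self W b⁻¹ (inv_mem hb) w hw
      rwa [inv_inv] at this)
    set H : Subgroup G := W ⊔ B with hH
    have hHZ : Nz H Z := by
      rw [nz_iff] at hBZ hWZ ⊢
      exact sup_le hWZ hBZ
    haveI hNn : (Z.subgroupOf H).Normal := hHZ.subgroupOf_normal
    have hWH : W ≤ H := le_sup_left
    have hBH : B ≤ H := le_sup_right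
    let q := QuotientGroup.mk' (Z.subgroupOf H)
    letI := quoOrbAct (α := α) (Z.subgroupOf H)
    have hact : ∀ (g : H) (a : α), (q g) • (orbMk (Z.subgroupOf H) a : Orb (Z.subgroupOf H) α) =
        orbMk (Z.subgroupOf H) (g • a) := fun g a => quoOrbAct_mk (Z.subgroupOf H) g a
    have hcW : Nat.card ((W.subgroupOf H).map q) ≤ n := by
      have h1 : Nat.card ((W.subgroupOf H).map q) * Nat.card Z = Nat.card W := by
        have h2 : Nat.card (W.subgroupOf H) = Nat.card W :=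
          Nat.card_congr (subgroupOfEquivOfLe hWH).toEquiv
        have h3 : Nat.card (Z.subgroupOf H) = Nat.card Z :=
          Nat.card_congr (subgroupOfEquivOfLe (hZW.trans hWH)).toEquiv
        let f : (W.subgroupOf H) →* ((W.subgroupOf H).map q) := q.subgroupMap (W.subgroupOf H)
        have hf : Function.Surjective f := q.subgroupMap_surjective _
        have h4 := card_eq_card_quotient_mul_card_subgroup f.ker
        rw [Nat.card_congr (QuotientGroup.quotientKerEquivOfSurjective f hf).toEquiv, h2] at h4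
        have h5 : Nat.card f.ker = Nat.card Z := by
          rw [← h3]
          refine Nat.card_congr ⟨fun y => ⟨(y : W.subgroupOf H), ?_⟩, fun y =>
            ⟨⟨y, ?_⟩, ?_⟩, fun y => ?_, fun y => ?_⟩
          · have h6 : f (y : W.subgroupOf H) = 1 := y.2
            have h7 : q ((y : W.subgroupOf H) : H) = 1 := congrArg Subtype.val h6
            exact (QuotientGroup.eq_one_iff _).1 h7
          · exact mem_subgroupOf.2 (hZW (mem_subgroupOf.1 y.2))
          · refine Subtype.ext ?_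
            exact (QuotientGroup.eq_one_iff _).2 y.2
          · rfl
          · rfl
        rw [h5] at h4
        exact h4.symm
      have h2 : 0 < Nat.card ((W.subgroupOf H).map q) := Nat.card_pos
      nlinarith
    have hPW : IsPGroup p ((W.subgroupOf H).map q) :=
      (hW.comap_of_injective H.subtype H.subtype_injective).map q
    have hnW : Nz ((B.subgroupOf H).map q) ((W.subgroupOf H).map q) := by
      rintro _ ⟨b, hb, rfl⟩ _ ⟨w, hw, rfl⟩
      refine ⟨b * w * b⁻¹, ?_, by simp⟩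
      exact mem_subgroupOf.2 (hn b (mem_subgroupOf.1 hb) w (mem_subgroupOf.1 hw))
    have hcB : ¬ p ∣ Nat.card ((B.subgroupOf H).map q) := by
      intro h
      apply hB
      refine h.trans ((card_map_dvd _ _).trans ?_)
      rw [Nat.card_congr (subgroupOfEquivOfLe hBH).toEquiv]
    obtain ⟨u', hu', hfix⟩ := ih (H ⧸ Z.subgroupOf H) (Orb (Z.subgroupOf H) α)
      ((W.subgroupOf H).map q) ((B.subgroupOf H).map q) (orbMk (Z.subgroupOf H) x) hcW hPW hnW hcB
      (by
        rintro _ ⟨b, hb, rfl⟩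
        obtain ⟨w, hw, e⟩ := hx b (mem_subgroupOf.1 hb)
        refine ⟨q ⟨w, hWH hw⟩, ⟨⟨w, hWH hw⟩, mem_subgroupOf.2 hw, rfl⟩, ?_⟩
        rw [hact, hact]
        have : b • x = (⟨w, hWH hw⟩ : H) • x := e
        rw [this])
    obtain ⟨u, hu, rfl⟩ := hu'
    have huW : (u : G) ∈ W := mem_subgroupOf.1 hu
    obtain ⟨z0, hz0, hz0'⟩ := glau Z B ((u : G) • x) (fun a ha b hb => hZcomm a ha b (hZW hb)) hBZ
      (by
        have h1 : IsPGroup p Z := hW.to_le hZW
        obtain ⟨k, hk⟩ := IsPGroup.iff_card.1 h1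
        rw [hk]
        exact Nat.Coprime.pow_left k ((Nat.Prime.coprime_iff_not_dvd hp).2 hB))
      (by
        intro b hb
        have h1 := hfix (q ⟨b, hBH hb⟩) ⟨⟨b, hBH hb⟩, mem_subgroupOf.2 hb, rfl⟩
        rw [hact, hact] at h1
        obtain ⟨z, hz, e⟩ := orbMk_eq.1 h1
        exact ⟨z, mem_subgroupOf.1 hz, e⟩)
    refine ⟨z0 * u, mul_mem (hZW hz0) huW, fun b hb => ?_⟩
    have h1 := hz0' b hb
    rw [mul_smul]
    exact h1

/-- K1 (Glauberman's lemma). -/
theorem glauC {G : Type u} [Group G] [Finite G] {α : Type v} [MulAction G α] {p : ℕ}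
    (hp : p.Prime) (W B : Subgroup G) (x : α) (hW : IsPGroup p W) (hn : Nz B W)
    (hc : ¬ p ∣ Nat.card B) (hx : ∀ b ∈ B, ∃ w ∈ W, b • x = w • x) :
    ∃ u ∈ W, ∀ b ∈ B, b • (u • x) = u • x :=
  glauC_aux p hp _ G α W B x le_rfl hW hn hc hx

/-- K1 for the conjugation action on subgroups. -/
theorem glauC_cj {G : Type u} [Group G] [Finite G] {p : ℕ} (hp : p.Prime) (W B U : Subgroup G)
    (hW : IsPGroup p W) (hn : Nz B W) (hc : ¬ p ∣ Nat.card B)
    (hx : ∀ b ∈ B, ∃ w ∈ W, cj b U = cj w U) :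
    ∃ u ∈ W, ∀ b ∈ B, cj b (cj u U) = cj u U := by
  letI : MulAction G (Subgroup G) := { smul := cj, one_smul := cj_one, mul_smul := cj_mul }
  exact glauC hp W B U hW hn hc hx

variable {G : Type u} [Group G]

/-- An element of a `p`-group `P` normalised by `B` whose conjugates by `B` satisfy
`y⁻¹ b y ∈ B` commutes with `B`. -/
theorem comm_of_coset [Finite G] {p : ℕ} (hp : p.Prime) {P B : Subgroup G} (hP : IsPGroup p P)
    (hBP : Nz B P) (hc : ¬ p ∣ Nat.card B) {y : G} (hy : y ∈ P)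
    (h : ∀ b ∈ B, y⁻¹ * b * y ∈ B) : ∀ b ∈ B, b * y = y * b := by
  have hinf : P ⊓ B = ⊥ := by
    apply inf_eq_bot_of_coprime
    haveI : Fact p.Prime := ⟨hp⟩
    obtain ⟨k, hk⟩ := IsPGroup.iff_card.1 hP
    rw [hk]
    exact Nat.Coprime.pow_left k ((Nat.Prime.coprime_iff_not_dvd hp).2 hc)
  intro b hb
  have h1 : y⁻¹ * b * y * b⁻¹ ∈ B := mul_mem (h b hb) (inv_mem hb)
  have h2 : y⁻¹ * b * y * b⁻¹ ∈ P := by
    have h3 := hBP b hb y hy
    have e : y⁻¹ * b * y * b⁻¹ = y⁻¹ * (b * y * b⁻¹) := by group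
    rw [e]
    exact mul_mem (inv_mem hy) h3
  have h3 : y⁻¹ * b * y * b⁻¹ = 1 := by
    rw [← mem_bot, ← hinf]
    exact ⟨h2, h1⟩
  calc b * y = y * (y⁻¹ * b * y * b⁻¹) * b := by group
    _ = y * b := by rw [h3, mul_one]

/-- K3 (lifting of fixed points). -/
theorem liftC [Finite G] {p : ℕ} (hp : p.Prime) (P F B : Subgroup G) (hP : IsPGroup p P)
    (hF : F ≤ P) (hPF : Nz P F) (hBP : Nz B P) (hBF : Nz B F) (hc : ¬ p ∣ Nat.card B)
    (x : G) (hx : x ∈ P) (h : ∀ b ∈ B, ⁅b, x⁆ ∈ F) :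
    ∃ y ∈ P, (∀ b ∈ B, b * y = y * b) ∧ x⁻¹ * y ∈ F := by
  obtain ⟨w, hw, hfix⟩ := glauC hp F B (QuotientGroup.mk x : G ⧸ B) (hP.to_le hF) hBF hc (by
    intro b hb
    refine ⟨⁅b, x⁆, h b hb, ?_⟩
    show (QuotientGroup.mk (b * x) : G ⧸ B) = QuotientGroup.mk (⁅b, x⁆ * x)
    rw [QuotientGroup.eq]
    have e : (b * x)⁻¹ * (⁅b, x⁆ * x) = b⁻¹ := by
      rw [commutatorElement_def]; group
    rw [e]
    exact inv_mem hb)
  refine ⟨w * x, mul_mem (hF hw) hx, ?_, ?_⟩
  · apply comm_of_coset hp hP hBP hc (mul_mem (hF hw) hx)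
    intro b hb
    have h1 : (QuotientGroup.mk (b * (w * x)) : G ⧸ B) = QuotientGroup.mk (w * x) := hfix b hb
    rw [QuotientGroup.eq] at h1
    have h2 := inv_mem h1
    have e : ((b * (w * x))⁻¹ * (w * x))⁻¹ = (w * x)⁻¹ * b * (w * x) := by group
    rwa [e] at h2
  · have := hPF x⁻¹ (inv_mem hx) w hw
    rwa [inv_inv, mul_assoc] at this

/-- K2 (fixed representatives). -/
theorem fixrepC [Finite G] {α : Type v} [MulAction G α] {p : ℕ} (hp : p.Prime)
    (W B : Subgroup G) (x : α) (hW : IsPGroup p W) (hn : Nz B W) (hc : ¬ p ∣ Nat.card B)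
    (hx : ∀ b ∈ B, b • x = x) (u : G) (hu : u ∈ W) (hxu : ∀ b ∈ B, b • (u • x) = u • x) :
    ∃ c ∈ W, (∀ b ∈ B, b * c = c * b) ∧ u • x = c • x := by
  set T : Subgroup G := W ⊓ MulAction.stabilizer G x with hT
  have hTW : T ≤ W := inf_le_left
  have hBT : Nz B T := by
    intro b hb t ht
    refine ⟨hn b hb t ht.1, ?_⟩
    show (b * t * b⁻¹) • x = x
    rw [mul_smul, mul_smul]
    have h1 : b⁻¹ • x = x := hx _ (inv_mem hb)
    have h2 : t • x = x := ht.2
    rw [h1, h2, hx b hb]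
  obtain ⟨t, ht, hfix⟩ := glauC hp T B (QuotientGroup.mk u⁻¹ : G ⧸ B) (hW.to_le hTW) hBT hc (by
    intro b hb
    refine ⟨b * u⁻¹ * b⁻¹ * u, ⟨?_, ?_⟩, ?_⟩
    · exact mul_mem (hn b hb _ (inv_mem hu)) hu
    · show (b * u⁻¹ * b⁻¹ * u) • x = x
      rw [mul_smul, mul_smul, mul_smul]
      rw [hxu _ (inv_mem hb), inv_smul_smul, hx b hb]
    · show (QuotientGroup.mk (b * u⁻¹) : G ⧸ B) = QuotientGroup.mk (b * u⁻¹ * b⁻¹ * u * u⁻¹)
      rw [QuotientGroup.eq]
      have e : (b * u⁻¹)⁻¹ * (b * u⁻¹ * b⁻¹ * u * u⁻¹) = b⁻¹ := by group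
      rw [e]
      exact inv_mem hb)
  have hmem : t * u⁻¹ ∈ W := mul_mem (hTW ht) (inv_mem hu)
  have hcomm := comm_of_coset hp hW hn hc hmem (by
    intro b hb
    have h1 : (QuotientGroup.mk (b * (t * u⁻¹)) : G ⧸ B) = QuotientGroup.mk (t * u⁻¹) := hfix b hb
    rw [QuotientGroup.eq] at h1
    have h2 := inv_mem h1
    have e : ((b * (t * u⁻¹))⁻¹ * (t * u⁻¹))⁻¹ = (t * u⁻¹)⁻¹ * b * (t * u⁻¹) := by group
    rwa [e] at h2)
  refine ⟨(t * u⁻¹)⁻¹, inv_mem hmem, fun b hb => ?_, ?_⟩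
  · have h1 := hcomm b hb
    exact ((show Commute b (t * u⁻¹) from h1).inv_right).eq
  · have h1 : t • x = x := ht.2
    have h2 : t⁻¹ • x = x := inv_smul_eq_iff.2 h1.symm
    rw [mul_inv_rev, inv_inv, mul_smul, h2]

/-- K2 for the conjugation action on subgroups. -/
theorem fixrepC_cj [Finite G] {p : ℕ} (hp : p.Prime)
    (W B U : Subgroup G) (hW : IsPGroup p W) (hn : Nz B W) (hc : ¬ p ∣ Nat.card B)
    (hx : ∀ b ∈ B, cj b U = U) (u : G) (hu : u ∈ W) (hxu : ∀ b ∈ B, cj b (cj u U) = cj u U) :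
    ∃ c ∈ W, (∀ b ∈ B, b * c = c * b) ∧ cj u U = cj c U := by
  letI : MulAction G (Subgroup G) := { smul := cj, one_smul := cj_one, mul_smul := cj_mul }
  exact fixrepC hp W B U hW hn hc hx u hu hxu

end Pool.Agent.Work.MP_b44cb1_al
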