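import Pool.Agent.Work.MP_b44cb1_al.Full.Kit.Cop
import Pool.Agent.Work.MP_b44cb1_al.Full.MT.Repl
import Pool.Agent.Work.MP_b44cb1_al.Full.MT.Dk
import Pool.Agent.Work.MP_b44cb1_al.Full.MT.Irr
import Pool.Agent.Work.MP_b44cb1_al.Full.Ty.AL

/-!
# KProps : the interface propositions K4p, K5p, K6p, K7p
-/

set_option autoImplicit false

namespace Pool.Agent.Work.MP_b44cb1_al

open Subgroup
open scoped commutatorElement

variable {G : Type*} [Group G]

theorem k4p [Finite G] : K4p G := by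
  intro p a P A hp ha hpa hP hA hn
  apply commC hp P A hP hn
  haveI : Fact a.Prime := ⟨ha⟩
  obtain ⟨k, hk⟩ := IsPGroup.iff_card.1 hA
  rw [hk]
  intro h
  exact hpa ((Nat.prime_dvd_prime_iff_eq hp ha).1 (hp.dvd_of_dvd_pow h))

theorem k5p [Finite G] : K5p G := fun _ P g hp hP hn hc h => trivFr hp P hP g hn hc h

theorem k6p [Finite G] : K6p G := fun _ _ _ hp hP hRP h => frGen hp hP hRP h

theorem k7p [Finite G] : K7p G := fun _ P R L hp _ hFR hRP hLP hLR hc =>
  maschkeFr hp P R L hFR hRP hLP hLR hc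

end Pool.Agent.Work.MP_b44cb1_al
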