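import Pool.Agent.Work.MP_b44cb1_al.Full.Kit.RegA

/-!
# K8 reg : regular vectors for sections `W / F`  (size S-M)

PROOF. `F.subgroupOf W` is normal in `W` (`Nz W F`), the quotient `M = W ⧸ F.subgroupOf W` is commutative of exponent `q`; `B` (as a group) acts
by `secAct`; `regA` and `sec_fix_iff` (`KDefs`).
`reg_fr`: `F = Fr q P`.
-/

set_option autoImplicit false

namespace Pool.Agent.Work.MP_b44cb1_al

open Subgroup
open scoped commutatorElement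

variable {G : Type*} [Group G]

private theorem rs_comm {W F : Subgroup G} (hab : ⁅W, W⁆ ≤ F) [(F.subgroupOf W).Normal]
    (x y : W ⧸ F.subgroupOf W) : x * y = y * x := by
  obtain ⟨x, rfl⟩ := QuotientGroup.mk_surjective x
  obtain ⟨y, rfl⟩ := QuotientGroup.mk_surjective y
  rw [← QuotientGroup.mk_mul, ← QuotientGroup.mk_mul, QuotientGroup.eq, mem_subgroupOf]
  have h1 : (((x * y)⁻¹ * (y * x) : W) : G) = ⁅(y : G)⁻¹, (x : G)⁻¹⁆ := by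
    show ((x : G) * y)⁻¹ * (y * x) = (y : G)⁻¹ * (x : G)⁻¹ * ((y : G)⁻¹)⁻¹ * ((x : G)⁻¹)⁻¹
    group
  rw [h1]
  exact hab (commutator_mem_commutator (inv_mem y.2) (inv_mem x.2))

private theorem rs_exp {W F : Subgroup G} {q : ℕ} (hexp : ∀ x ∈ W, x ^ q ∈ F)
    [(F.subgroupOf W).Normal] (x : W ⧸ F.subgroupOf W) : x ^ q = 1 := by
  obtain ⟨x, rfl⟩ := QuotientGroup.mk_surjective x
  rw [← QuotientGroup.mk_pow, QuotientGroup.eq_one_iff, mem_subgroupOf]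
  exact hexp x x.2

theorem reg_sec [Finite G] {q : ℕ} (hq : q.Prime) (hq2 : q ≠ 2) (B W F : Subgroup G)
    (hB : Group.IsNilpotent B) (hodd : Odd (Nat.card B)) (hc : ¬ q ∣ Nat.card B)
    (hFW : F ≤ W) (hWF : Nz W F) (hBW : Nz B W) (hBF : Nz B F) (hab : ⁅W, W⁆ ≤ F)
    (hexp : ∀ x ∈ W, x ^ q ∈ F) :
    ∃ v ∈ W, ∀ b ∈ B, ⁅b, v⁆ ∈ F → ∀ w ∈ W, ⁅b, w⁆ ∈ F := by
  haveI hn : (F.subgroupOf W).Normal := hWF.subgroupOf_normal
  letI : CommGroup (W ⧸ F.subgroupOf W) :=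
    { (inferInstance : Group (W ⧸ F.subgroupOf W)) with mul_comm := rs_comm hab }
  letI : MulDistribMulAction B (W ⧸ F.subgroupOf W) := secAct hBW hBF
  obtain ⟨v, hv⟩ := regA (B := B) (M := W ⧸ F.subgroupOf W) hq hq2 hB hodd hc (rs_exp hexp)
  obtain ⟨v, rfl⟩ := QuotientGroup.mk_surjective v
  refine ⟨v, v.2, fun b hb hbv w hw => ?_⟩
  have h1 := hv ⟨b, hb⟩ ((sec_fix_iff hBW hBF hWF ⟨b, hb⟩ v).2 hbv)
    (QuotientGroup.mk ⟨w, hw⟩)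
  exact (sec_fix_iff hBW hBF hWF ⟨b, hb⟩ ⟨w, hw⟩).1 h1

theorem reg_fr [Finite G] {q : ℕ} (hq : q.Prime) (hq2 : q ≠ 2) (B P : Subgroup G)
    (hB : Group.IsNilpotent B) (hodd : Odd (Nat.card B)) (hc : ¬ q ∣ Nat.card B)
    (hBP : Nz B P) :
    ∃ v ∈ P, ∀ b ∈ B, ⁅b, v⁆ ∈ Fr q P → ∀ w ∈ P, ⁅b, w⁆ ∈ Fr q P :=
  reg_sec hq hq2 B P (Fr q P) hB hodd hc (fr_le q P) (nz_fr q (nz_self P)) hBP (nz_fr q hBP)
    (comm_le_fr q P) (fun _ hx => pow_mem_fr hx)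

end Pool.Agent.Work.MP_b44cb1_al
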