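import Pool.Agent.Work.MP_b44cb1_al.Full.Kit.FixN
import Pool.Agent.Work.MP_b44cb1_al.Full.Kit.Reg

/-!
# K11 blockA : a point of a `W`-orbit with smallest possible stabiliser, transitive case  (size M-L)

`G` acts on `X`, `W` is a normal `e`-subgroup transitive on `X`, `B` nilpotent of odd order prime to `e`, fixing `x`.

PROOF. Induction on `|X|` over all `G`-sets `X` in the universe (`X` replaced by the set of `A`-orbits). If `|X| = 1` take `z = 1`.
`N₀ = {w ∈ W : w` acts trivially on `X}` is normal in `G`; `A = {a ∈ W : a ^ e ∈ N₀, ⁅a, w⁆ ∈ N₀ for all w ∈ W}` (it is a subgroup, since `W / N₀` has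
abelian centre, normal in `G`), `N₀ < A` (`W / N₀` is a nontrivial `e`-group: `W` is transitive and `|X| > 1`; its centre contains an element of
order `e`).
(F) if `a ∈ A` fixes one point `w x` then it fixes all points: `a w' w x = ⁅a, w'⁆ w' a w x = w' w x`. So `a ∈ N₀`.
Let `X'` be the set of `A`-orbits (`MulAction.orbitRel.Quotient A X` with the action of `G` defined by hand, or the set of all
`A`-orbits as elements of `Set X` with the pointwise action of `G`); `|X'| < |X|`, `W` is transitive on `X'`, `B` fixes the class of `x`. Induction gives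
`z₁ ∈ W` such that `b ∈ B`, `b [z₁ x] = [z₁ x]` implies that `b` acts trivially on `X'`. Let `B₁` be the subgroup of `B` acting trivially on `X'`. For `b ∈ B₁`,
`b (z₁ x) ∈ A (z₁ x)`, so by `glauN` (`A`, `B₁`) we may change `z₁` by an element of `A` such that `B₁` fixes `z₁ x`. `reg_sec` for `B₁` acting on `A / N₀`: `a ∈ A`
with: `b ∈ B₁`, `⁅b, a⁆ ∈ N₀` implies `⁅b, a'⁆ ∈ N₀` for all `a' ∈ A`. Put `z = a z₁`.
Let `b ∈ B`, `b z x = z x`. Then `b [z₁ x] = [z₁ x]`, so `b ∈ B₁`, `b` fixes `z₁ x` and `a z₁ x`, so `⁅b, a⁆ = (b a b⁻¹) a⁻¹` fixes the point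
`a z₁ x`, so it is in `N₀` by (F). Let `y ∈ X`: `b y ∈ A y`, and `glauN` (`A`, `zpowers b`) gives a point `y' ∈ A y` fixed by `b`; `y = a' y'`, `b y = (b a' b⁻¹) y' =
⁅b, a'⁆ a' y' = y`. So `b` acts trivially on `X`.
-/

set_option autoImplicit false

namespace Pool.Agent.Work.MP_b44cb1_al

open Subgroup
open scoped commutatorElement

universe v

variable {G : Type*} [Group G]

/-- The action of `G` on the orbits of a normal subgroup. -/
@[reducible] private def blockA_act (A : Subgroup G) (hA : A.Normal) (X : Type*) [MulAction G X] :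
    MulAction G (MulAction.orbitRel.Quotient A X) where
  smul g := Quotient.map' (fun x => g • x) (by
    intro x y hxy
    have h1 : x ∈ MulAction.orbit A y := hxy
    show g • x ∈ MulAction.orbit A (g • y)
    obtain ⟨a, rfl⟩ := h1
    refine ⟨⟨g * a * g⁻¹, hA.conj_mem _ a.2 g⟩, ?_⟩
    show (g * (a : G) * g⁻¹) • g • y = g • (a : G) • y
    rw [smul_smul, inv_mul_cancel_right, mul_smul])
  one_smul q := by
    induction q using Quotient.inductionOn' with
    | h x =>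
      show (Quotient.mk'' ((1 : G) • x) : MulAction.orbitRel.Quotient A X) = Quotient.mk'' x
      rw [one_smul]
  mul_smul g h q := by
    induction q using Quotient.inductionOn' with
    | h x =>
      show (Quotient.mk'' ((g * h) • x) : MulAction.orbitRel.Quotient A X) =
        Quotient.mk'' (g • h • x)
      rw [mul_smul]

private theorem blockA_eq {A : Subgroup G} {X : Type*} [MulAction G X] {x y : X}
    (h : (Quotient.mk'' x : MulAction.orbitRel.Quotient A X) = Quotient.mk'' y) :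
    ∃ a ∈ A, a • y = x := by
  have h1 : x ∈ MulAction.orbit A y := Quotient.eq''.1 h
  obtain ⟨a, ha⟩ := h1
  exact ⟨a, a.2, ha⟩

private theorem blockA_eq' {A : Subgroup G} {X : Type*} [MulAction G X] {y : X} {a : G}
    (ha : a ∈ A) :
    (Quotient.mk'' (a • y) : MulAction.orbitRel.Quotient A X) = Quotient.mk'' y :=
  Quotient.eq''.2 ⟨⟨a, ha⟩, rfl⟩

/-- a nontrivial `e`-group has a central element of order `e` -/
private theorem blockA_cen {P : Type*} [Group P] [Finite P] [Nontrivial P] {e : ℕ} (he : e.Prime)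
    (hP : IsPGroup e P) : ∃ d : P, d ≠ 1 ∧ d ^ e = 1 ∧ ∀ w : P, d * w = w * d := by
  classical
  have : Fact e.Prime := ⟨he⟩
  have := hP.center_nontrivial
  obtain ⟨c, hc⟩ := exists_ne (1 : center P)
  have hex : ∃ k : ℕ, c ^ e ^ k = 1 := (hP.to_subgroup (center P)) c
  have h0 : Nat.find hex ≠ 0 := by
    intro h0
    have h1 := Nat.find_spec hex
    rw [h0, pow_zero, pow_one] at h1
    exact hc h1
  have h1 : c ^ e ^ (Nat.find hex - 1) ≠ 1 := Nat.find_min hex (by omega)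
  refine ⟨((c ^ e ^ (Nat.find hex - 1) : center P) : P), ?_, ?_, ?_⟩
  · intro h2
    exact h1 (Subtype.ext h2)
  · rw [← Subgroup.coe_pow, ← pow_mul, ← pow_succ]
    have h3 : Nat.find hex - 1 + 1 = Nat.find hex := by omega
    rw [h3, Nat.find_spec hex]
    rfl
  · intro w
    exact (mem_center_iff.1 (c ^ e ^ (Nat.find hex - 1) : center P).2 w).symm

private theorem blockA_aux [Finite G] {e : ℕ} (he : e.Prime)
    (he2 : e ≠ 2) (W B : Subgroup G) (hWn : W.Normal) (hW : IsPGroup e W)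
    (hB : Group.IsNilpotent B) (hodd : Odd (Nat.card B)) (hc : ¬ e ∣ Nat.card B) (n : ℕ) :
    ∀ (X : Type v) [Finite X] [MulAction G X], Nat.card X = n →
      (∀ x y : X, ∃ w ∈ W, w • x = y) → ∀ x : X, (∀ b ∈ B, b • x = x) →
      ∃ z ∈ W, ∀ b ∈ B, b • (z • x) = z • x → ∀ y : X, b • y = y := by
  induction n using Nat.strong_induction_on with
  | _ n ih =>
  intro X _ _ hn htr x hx
  by_cases hs : Subsingleton X
  · exact ⟨1, one_mem W, fun b _ _ y => Subsingleton.elim _ _⟩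
  classical
  rw [not_subsingleton_iff_nontrivial] at hs
  obtain ⟨ρ, hρ⟩ : ∃ ρ : G →* Equiv.Perm X, ∀ g y, ρ g y = g • y :=
    ⟨MulAction.toPermHom G X, fun g y => rfl⟩
  have hconjW : ∀ g w : G, w ∈ W → g * w * g⁻¹ ∈ W := fun g w hw => hWn.conj_mem w hw g
  obtain ⟨N₀, hN₀⟩ : ∃ N₀ : Subgroup G, ∀ g, g ∈ N₀ ↔ g ∈ W ∧ ρ g = 1 :=
    ⟨W ⊓ ρ.ker, fun g => by rw [mem_inf, MonoidHom.mem_ker]⟩
  obtain ⟨A, hA⟩ : ∃ A : Subgroup G, ∀ a, a ∈ A ↔
      a ∈ W ∧ ρ a ^ e = 1 ∧ ∀ w ∈ W, ρ a * ρ w = ρ w * ρ a := by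
    refine ⟨{ carrier := {a | a ∈ W ∧ ρ a ^ e = 1 ∧ ∀ w ∈ W, ρ a * ρ w = ρ w * ρ a}
              mul_mem' := ?_
              one_mem' := ?_
              inv_mem' := ?_ }, fun a => Iff.rfl⟩
    · rintro a b ⟨h1, h2, h3⟩ ⟨h1', h2', h3'⟩
      refine ⟨mul_mem h1 h1', ?_, fun w hw => ?_⟩
      · rw [map_mul, Commute.mul_pow (h3 b h1'), h2, h2', one_mul]
      · rw [map_mul, mul_assoc, h3' w hw, ← mul_assoc, h3 w hw, mul_assoc]
    · exact ⟨one_mem _, by rw [map_one, one_pow], fun w hw => by rw [map_one, one_mul, mul_one]⟩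
    · rintro a ⟨h1, h2, h3⟩
      refine ⟨inv_mem h1, ?_, fun w hw => ?_⟩
      · rw [map_inv, inv_pow, h2, inv_one]
      · rw [map_inv]
        exact Commute.inv_left (h3 w hw)
  have hAW : A ≤ W := fun a ha => ((hA a).1 ha).1
  have hAn : A.Normal := by
    refine ⟨fun a ha g => ?_⟩
    obtain ⟨h1, h2, h3⟩ := (hA a).1 ha
    refine (hA _).2 ⟨hconjW g a h1, ?_, fun w hw => ?_⟩
    · rw [map_mul, map_mul, map_inv, conj_pow, h2, mul_one, mul_inv_cancel]
    · have h4 := h3 (g⁻¹ * w * g) (by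
        have := hconjW g⁻¹ w hw
        rwa [inv_inv] at this)
      rw [map_mul, map_mul, map_inv] at h4
      rw [map_mul, map_mul, map_inv]
      calc ρ g * ρ a * (ρ g)⁻¹ * ρ w = ρ g * (ρ a * ((ρ g)⁻¹ * ρ w * ρ g)) * (ρ g)⁻¹ := by group
        _ = ρ g * ((ρ g)⁻¹ * ρ w * ρ g * ρ a) * (ρ g)⁻¹ := by rw [h4]
        _ = ρ w * (ρ g * ρ a * (ρ g)⁻¹) := by group
  have hN₀A : N₀ ≤ A := by
    intro a ha
    obtain ⟨h1, h2⟩ := (hN₀ a).1 ha
    exact (hA a).2 ⟨h1, by rw [h2, one_pow], fun w _ => by rw [h2, one_mul, mul_one]⟩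
  have hN₀n : N₀.Normal := by
    refine ⟨fun a ha g => ?_⟩
    obtain ⟨h1, h2⟩ := (hN₀ a).1 ha
    refine (hN₀ _).2 ⟨hconjW g a h1, ?_⟩
    rw [map_mul, map_mul, map_inv, h2, mul_one, mul_inv_cancel]
  -- one fixed point is enough
  have hF : ∀ a ∈ A, ∀ y : X, a • y = y → a ∈ N₀ := by
    intro a ha y hy
    obtain ⟨h1, h2, h3⟩ := (hA a).1 ha
    refine (hN₀ a).2 ⟨h1, ?_⟩
    ext y'
    obtain ⟨w, hw, rfl⟩ := htr y y'
    have h4 := DFunLike.congr_fun (h3 w hw) y
    rw [Equiv.Perm.mul_apply, Equiv.Perm.mul_apply, hρ a y, hy, hρ w y] at h4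
    exact h4
  -- `A` acts nontrivially
  obtain ⟨a₀, ha₀A, y₀, hy₀⟩ : ∃ a ∈ A, ∃ y : X, a • y ≠ y := by
    obtain ⟨y, y', hyy⟩ := exists_pair_ne X
    obtain ⟨w, hw, hwy⟩ := htr y y'
    have : Nontrivial (W.map ρ) := by
      refine ⟨⟨⟨ρ w, mem_map_of_mem ρ hw⟩, 1, fun h => hyy ?_⟩⟩
      have h1 : ρ w = 1 := congrArg Subtype.val h
      rw [← hwy, ← hρ w y, h1]
      rfl
    obtain ⟨d, hd1, hd2, hd3⟩ := blockA_cen he (hW.map ρ)
    obtain ⟨a, haW, had⟩ := mem_map.1 d.2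
    refine ⟨a, (hA a).2 ⟨haW, ?_, fun w hw => ?_⟩, ?_⟩
    · rw [had]
      exact congrArg Subtype.val hd2
    · rw [had]
      exact congrArg Subtype.val (hd3 ⟨ρ w, mem_map_of_mem ρ hw⟩)
    · by_contra hcon
      push Not at hcon
      apply hd1
      apply Subtype.ext
      rw [← had]
      ext y
      rw [hρ, hcon y]
      rfl
  -- the orbits of `A`
  let _ := blockA_act A hAn X
  have hact : ∀ (g : G) (y : X), g • (Quotient.mk'' y : MulAction.orbitRel.Quotient A X) =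
      Quotient.mk'' (g • y) := fun g y => rfl
  have hsurj : Function.Surjective
      (fun y : X => (Quotient.mk'' y : MulAction.orbitRel.Quotient A X)) :=
    fun q => Quotient.inductionOn' q fun y => ⟨y, rfl⟩
  have : Finite (MulAction.orbitRel.Quotient A X) := Finite.of_surjective _ hsurj
  have hcard : Nat.card (MulAction.orbitRel.Quotient A X) < n := by
    let _ := Fintype.ofFinite X
    let _ := Fintype.ofFinite (MulAction.orbitRel.Quotient A X)
    rw [← hn, Nat.card_eq_fintype_card, Nat.card_eq_fintype_card]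
    refine Fintype.card_lt_of_surjective_not_injective _ hsurj fun hinj => hy₀ ?_
    exact hinj (blockA_eq' ha₀A)
  obtain ⟨z₁, hz₁, hz₁B⟩ := ih _ hcard (MulAction.orbitRel.Quotient A X) rfl
    (fun q q' => by
      obtain ⟨y, rfl⟩ := hsurj q
      obtain ⟨y', rfl⟩ := hsurj q'
      obtain ⟨w, hw, rfl⟩ := htr y y'
      exact ⟨w, hw, rfl⟩) (Quotient.mk'' x)
    (fun b hb => by rw [hact, hx b hb])
  obtain ⟨B₁, hB₁⟩ : ∃ B₁ : Subgroup G, ∀ b, b ∈ B₁ ↔ b ∈ B ∧
      ∀ q : MulAction.orbitRel.Quotient A X, b • q = q := by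
    refine ⟨B ⊓ (MulAction.toPermHom G (MulAction.orbitRel.Quotient A X)).ker, fun b => ?_⟩
    rw [mem_inf, MonoidHom.mem_ker]
    refine and_congr_right fun _ => ⟨fun h q => ?_, fun h => ?_⟩
    · exact DFunLike.congr_fun h q
    · ext q
      exact h q
  have hB₁B : B₁ ≤ B := fun b hb => ((hB₁ b).1 hb).1
  have hB₁o : ∀ b ∈ B₁, ∀ y : X, ∃ w ∈ A, b • y = w • y := by
    intro b hb y
    obtain ⟨w, hw, hwy⟩ := blockA_eq (((hB₁ b).1 hb).2 (Quotient.mk'' y))
    exact ⟨w, hw, hwy.symm⟩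
  have hdvd : Nat.card B₁ ∣ Nat.card B := card_dvd_of_le hB₁B
  have hcB₁ : ¬ e ∣ Nat.card B₁ := fun h => hc (h.trans hdvd)
  have hoddB₁ : Odd (Nat.card B₁) := hodd.of_dvd_nat hdvd
  have hnilB₁ : Group.IsNilpotent B₁ := by
    have := hB
    exact Group.nilpotent_of_surjective (f := ((Subgroup.subgroupOfEquivOfLe hB₁B).toMonoidHom))
      (Subgroup.subgroupOfEquivOfLe hB₁B).surjective
  have hAe : IsPGroup e A := hW.to_le hAW
  have hnz : ∀ (U : Subgroup G) (V : Subgroup G), V.Normal → Nz U V :=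
    fun U V hV g _ d hd => hV.conj_mem d hd g
  obtain ⟨u, hu, huB⟩ := glauN he A B₁ (z₁ • x) hAe (hnz _ _ hAn) hcB₁
    (fun b hb => hB₁o b hb _)
  have hN₀' : ∀ a ∈ A, ∀ w ∈ W, ⁅a, w⁆ ∈ N₀ := by
    intro a ha w hw
    obtain ⟨h1, h2, h3⟩ := (hA a).1 ha
    refine (hN₀ _).2 ⟨?_, ?_⟩
    · rw [commutatorElement_def]
      exact mul_mem (hconjW a w hw) (inv_mem hw)
    · rw [commutatorElement_def, map_mul, map_mul, map_mul, h3 w hw, map_inv, map_inv,
        mul_inv_cancel_right, mul_inv_cancel]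
  obtain ⟨v, hv, hvB⟩ := reg_sec he he2 B₁ A N₀ hnilB₁ hoddB₁ hcB₁ hN₀A (hnz _ _ hN₀n)
    (hnz _ _ hAn) (hnz _ _ hN₀n)
    (by
      rw [commutator_le]
      exact fun a ha w hw => hN₀' a ha w (hAW hw))
    (fun a ha => by
      obtain ⟨h1, h2, h3⟩ := (hA a).1 ha
      exact (hN₀ _).2 ⟨pow_mem h1 e, by rw [map_pow, h2]⟩)
  refine ⟨v * (u * z₁), mul_mem (hAW hv) (mul_mem (hAW hu) hz₁), ?_⟩
  intro b hb hbz y
  have hcl : (Quotient.mk'' ((v * (u * z₁)) • x) : MulAction.orbitRel.Quotient A X) =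
      z₁ • Quotient.mk'' x := by
    rw [hact, mul_smul, mul_smul, blockA_eq' hv, blockA_eq' hu]
  have hb₁ : b ∈ B₁ := by
    refine (hB₁ b).2 ⟨hb, hz₁B b hb ?_⟩
    rw [← hcl, hact, hbz]
  have hbu := huB b hb₁
  have hbN : ⁅b, v⁆ ∈ N₀ := by
    have hbA : ⁅b, v⁆ ∈ A := by
      rw [commutatorElement_def]
      exact mul_mem (hAn.conj_mem v hv b) (inv_mem hv)
    refine hF _ hbA (v • u • z₁ • x) ?_
    have h1 : b⁻¹ • u • z₁ • x = u • z₁ • x := by
      rw [inv_smul_eq_iff, hbu]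
    have h2 : b • v • u • z₁ • x = v • u • z₁ • x := by
      rw [mul_smul, mul_smul] at hbz
      exact hbz
    rw [commutatorElement_def, mul_smul, inv_smul_smul, mul_smul, mul_smul, h1, h2]
  have hb2 := hvB b hb₁ hbN
  obtain ⟨u', hu', hub⟩ := glauN he A (zpowers b) y hAe (hnz _ _ hAn)
    (fun h => hcB₁ (h.trans (card_dvd_of_le (zpowers_le.2 hb₁))))
    (fun b' hb' => hB₁o b' (zpowers_le.2 hb₁ hb') y)
  have h1 := hub b (mem_zpowers b)
  have h2 := ((hN₀ _).1 (hb2 u'⁻¹ (inv_mem hu'))).2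
  have h3 : ⁅b, u'⁻¹⁆ • y = y := by
    rw [← hρ, h2]
    rfl
  calc b • y = (⁅b, u'⁻¹⁆ * u'⁻¹ * b * u') • y := by
        congr 1
        rw [commutatorElement_def]
        group
    _ = ⁅b, u'⁻¹⁆ • y := by
        rw [mul_smul, mul_smul, h1, mul_smul, inv_smul_smul]
    _ = y := h3

theorem blockA [Finite G] {X : Type*} [Finite X] [MulAction G X] {e : ℕ} (he : e.Prime)
    (he2 : e ≠ 2) (W B : Subgroup G) (hWn : W.Normal) (hW : IsPGroup e W)
    (htr : ∀ x y : X, ∃ w ∈ W, w • x = y) (hB : Group.IsNilpotent B) (hodd : Odd (Nat.card B))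
    (hc : ¬ e ∣ Nat.card B) (x : X) (hx : ∀ b ∈ B, b • x = x) :
    ∃ z ∈ W, ∀ b ∈ B, b • (z • x) = z • x → ∀ y : X, b • y = y :=
  blockA_aux he he2 W B hWn hW hB hodd hc _ X rfl htr x hx

end Pool.Agent.Work.MP_b44cb1_al
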