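import Pool.Agent.Work.MP_b44cb1_al.Full.Kit.BlockA

/-!
# K11 blockN : a point of a `W`-orbit with smallest possible stabiliser in `B`  (size S-M)

PROOF. Apply `blockA` to the group `L = W ⊔ B` (as a type), its subgroups `W.subgroupOf L` (normal) and `B.subgroupOf L`, acting on the
orbit `X = {y : ∃ w ∈ W, y = w • x}` (invariant under `B` since `b w x = (b w b⁻¹) x`).
-/

set_option autoImplicit false

namespace Pool.Agent.Work.MP_b44cb1_al

open Subgroup
open scoped commutatorElement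

variable {G : Type*} [Group G]

/-- the subgroup of the elements that preserve a subset -/
private def keep (G : Type*) [Group G] {α : Type*} [MulAction G α] (S : Set α) : Subgroup G where
  carrier := {g | ∀ y, y ∈ S ↔ g • y ∈ S}
  mul_mem' := by
    intro g h hg hh y
    rw [mul_smul, ← hg, ← hh]
  one_mem' := fun y => by rw [one_smul]
  inv_mem' := by
    intro g hg y
    rw [hg (g⁻¹ • y), smul_inv_smul]

theorem blockN [Finite G] {α : Type*} [MulAction G α] {e : ℕ} (he : e.Prime) (he2 : e ≠ 2)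
    (W B : Subgroup G) (x : α) (hW : IsPGroup e W) (hB : Group.IsNilpotent B)
    (hodd : Odd (Nat.card B)) (hc : ¬ e ∣ Nat.card B) (hn : Nz B W) (hx : ∀ b ∈ B, b • x = x) :
    ∃ z ∈ W, ∀ b ∈ B, b • (z • x) = z • x → ∀ u ∈ W, b • (u • x) = u • x := by
  obtain ⟨L, hL⟩ : ∃ L : Subgroup G, L = W ⊔ B := ⟨_, rfl⟩
  have hWL : W ≤ L := hL ▸ le_sup_left
  have hBL : B ≤ L := hL ▸ le_sup_right
  obtain ⟨S, hS⟩ : ∃ S : Set α, S = {y | ∃ w ∈ W, y = w • x} := ⟨_, rfl⟩
  have hSB : ∀ b ∈ B, ∀ y ∈ S, b • y ∈ S := by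
    intro b hb y hy
    rw [hS] at hy ⊢
    obtain ⟨w, hw, rfl⟩ := hy
    refine ⟨b * w * b⁻¹, hn b hb w hw, ?_⟩
    rw [mul_smul, hx b⁻¹ (B.inv_mem hb), mul_smul]
  have hSW : ∀ w ∈ W, ∀ y ∈ S, w • y ∈ S := by
    intro w hw y hy
    rw [hS] at hy ⊢
    obtain ⟨w', hw', rfl⟩ := hy
    exact ⟨w * w', W.mul_mem hw hw', by rw [mul_smul]⟩
  have hLS : L ≤ keep G S := by
    rw [hL]
    refine sup_le (fun w hw y => ⟨hSW w hw y, fun h => ?_⟩) (fun b hb y => ⟨hSB b hb y, fun h => ?_⟩)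
    · have h1 := hSW w⁻¹ (W.inv_mem hw) _ h
      rwa [inv_smul_smul] at h1
    · have h1 := hSB b⁻¹ (B.inv_mem hb) _ h
      rwa [inv_smul_smul] at h1
  letI act : MulAction L S :=
    { smul := fun l y => ⟨(l : G) • (y : α), (hLS l.2 y).1 y.2⟩
      one_smul := fun y => Subtype.ext (one_smul G (y : α))
      mul_smul := fun l l' y => Subtype.ext (mul_smul (l : G) (l' : G) (y : α)) }
  have hval : ∀ (l : L) (y : S), ((l • y : S) : α) = (l : G) • (y : α) := fun _ _ => rfl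
  have hfin : Finite S := by
    have h1 : S = (fun w : G => w • x) '' (W : Set G) := by
      rw [hS]
      ext y
      constructor
      · rintro ⟨w, hw, rfl⟩
        exact ⟨w, hw, rfl⟩
      · rintro ⟨w, hw, rfl⟩
        exact ⟨w, hw, rfl⟩
    rw [h1]
    exact (Set.toFinite _).image _
  have hWn : (W.subgroupOf L).Normal := by
    rw [normal_subgroupOf_iff_le_normalizer hWL, hL]
    refine sup_le le_normalizer fun b hb => ?_
    rw [mem_normalizer_iff]
    intro w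
    refine ⟨fun hw => hn b hb w hw, fun hw => ?_⟩
    have h1 := hn b⁻¹ (B.inv_mem hb) _ hw
    have h2 : b⁻¹ * (b * w * b⁻¹) * b⁻¹⁻¹ = w := by group
    rwa [h2] at h1
  have hW' : IsPGroup e (W.subgroupOf L) := hW.of_equiv (subgroupOfEquivOfLe hWL).symm
  have hB' : Group.IsNilpotent (B.subgroupOf L) :=
    Group.nilpotent_of_mulEquiv (subgroupOfEquivOfLe hBL).symm
  have hcard : Nat.card (B.subgroupOf L) = Nat.card B :=
    Nat.card_congr (subgroupOfEquivOfLe hBL).toEquiv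
  have htr : ∀ y y' : S, ∃ w ∈ W.subgroupOf L, w • y = y' := by
    rintro ⟨y, hy⟩ ⟨y', hy'⟩
    have hy1 := hy
    have hy1' := hy'
    rw [hS] at hy1 hy1'
    obtain ⟨w, hw, rfl⟩ := hy1
    obtain ⟨w', hw', rfl⟩ := hy1'
    have hmem : w' * w⁻¹ ∈ W := W.mul_mem hw' (W.inv_mem hw)
    refine ⟨⟨w' * w⁻¹, hWL hmem⟩, hmem, Subtype.ext ?_⟩
    rw [hval]
    show (w' * w⁻¹) • (w • x) = w' • x
    rw [mul_smul, inv_smul_smul]
  have hxS : x ∈ S := by
    rw [hS]
    exact ⟨1, W.one_mem, (one_smul G x).symm⟩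
  obtain ⟨z, hz, h⟩ := blockA he he2 (W.subgroupOf L) (B.subgroupOf L) hWn hW' htr hB'
    (by rw [hcard]; exact hodd) (by rw [hcard]; exact hc) (⟨x, hxS⟩ : S)
    (fun b hb => Subtype.ext (hx (b : G) hb))
  refine ⟨(z : G), hz, fun b hb hbz u hu => ?_⟩
  have h1 := h ⟨b, hBL hb⟩ hb (Subtype.ext hbz) ⟨u • x, hSW u hu x hxS⟩
  exact congrArg Subtype.val h1

theorem blockN_cj [Finite G] {e : ℕ} (he : e.Prime) (he2 : e ≠ 2)
    (W B U : Subgroup G) (hW : IsPGroup e W) (hB : Group.IsNilpotent B)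
    (hodd : Odd (Nat.card B)) (hc : ¬ e ∣ Nat.card B) (hn : Nz B W)
    (hx : ∀ b ∈ B, cj b U = U) :
    ∃ z ∈ W, ∀ b ∈ B, cj b (cj z U) = cj z U → ∀ u ∈ W, cj b (cj u U) = cj u U := by
  letI : MulAction G (Subgroup G) := { smul := cj, one_smul := cj_one, mul_smul := cj_mul }
  exact blockN he he2 W B U hW hB hodd hc hn hx

end Pool.Agent.Work.MP_b44cb1_al
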