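import Pool.Agent.Work.MP_b44cb1_al.Full.Kit.GlauC
import Pool.Agent.Work.MP_b44cb1_al.Maschke

/-!
# KIT / Cop : coprime action of `B` on a `p`-group `P` (any `B` with `p ∤ |B|`), all proved

* `commC` : `[P,A] ≤ [[P,A],A]` (K4).
* `trivFr`, `trivFrC` : trivial action modulo `Fr p P` is trivial (K5).
* `maschkeFr` : K7.
-/

set_option autoImplicit false

namespace Pool.Agent.Work.MP_b44cb1_al

open Subgroup
open scoped commutatorElement

variable {G : Type*} [Group G]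

theorem nz_comm_left (P A : Subgroup G) : Nz P ⁅P, A⁆ :=
  nz_iff.2 (normalizer_commutator_ge_left P A)

theorem nz_comm_right (P A : Subgroup G) : Nz A ⁅P, A⁆ :=
  nz_iff.2 (normalizer_commutator_ge_right P A)

/-- K4. -/
theorem commC [Finite G] {p : ℕ} (hp : p.Prime) (P A : Subgroup G) (hP : IsPGroup p P)
    (hn : Nz A P) (hc : ¬ p ∣ Nat.card A) : ⁅P, A⁆ ≤ ⁅⁅P, A⁆, A⁆ := by
  have hQP : ⁅P, A⁆ ≤ P := comm_le_left hn
  rw [commutator_le]
  intro x hx a ha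
  obtain ⟨y, hy, hya, hxy⟩ := liftC hp P ⁅P, A⁆ A hP hQP (nz_comm_left P A) hn (nz_comm_right P A)
    hc x hx (fun b hb => by
      rw [commutator_comm]
      exact commutator_mem_commutator hb hx)
  have h1 : y⁻¹ * x ∈ ⁅P, A⁆ := by
    have := inv_mem hxy
    rwa [mul_inv_rev, inv_inv] at this
  have h2 : y * (y⁻¹ * x) * y⁻¹ ∈ ⁅P, A⁆ := nz_comm_left P A y hy _ h1
  have h3 := commutator_mem_commutator h2 ha
  have e : ⁅y * (y⁻¹ * x) * y⁻¹, a⁆ = ⁅x, a⁆ := by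
    have h4 : a * y = y * a := hya a ha
    have h5 : y⁻¹ * a = a * y⁻¹ := by
      rw [inv_mul_eq_iff_eq_mul, ← mul_assoc, ← h4, mul_inv_cancel_right]
    rw [commutatorElement_def, commutatorElement_def]
    calc y * (y⁻¹ * x) * y⁻¹ * a * (y * (y⁻¹ * x) * y⁻¹)⁻¹ * a⁻¹
        = x * (y⁻¹ * a) * y * x⁻¹ * a⁻¹ := by group
      _ = x * (a * y⁻¹) * y * x⁻¹ * a⁻¹ := by rw [h5]
      _ = x * a * x⁻¹ * a⁻¹ := by group
  rwa [e] at h3

/-- K4 as an equality. -/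
theorem commC_eq [Finite G] {p : ℕ} (hp : p.Prime) (P A : Subgroup G) (hP : IsPGroup p P)
    (hn : Nz A P) (hc : ¬ p ∣ Nat.card A) : ⁅⁅P, A⁆, A⁆ = ⁅P, A⁆ :=
  le_antisymm (comm_le_left (nz_comm_right P A)) (commC hp P A hP hn hc)

/-- K5 for groups. -/
theorem trivFrC [Finite G] {p : ℕ} (hp : p.Prime) (P B : Subgroup G) (hP : IsPGroup p P)
    (hn : Nz B P) (hc : ¬ p ∣ Nat.card B) (h : ∀ b ∈ B, ∀ x ∈ P, ⁅b, x⁆ ∈ Fr p P) : Cz B P := by
  have h1 : P ⊓ centralizer (B : Set G) = P := by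
    apply frGen hp hP inf_le_left
    intro x hx
    obtain ⟨y, hy, hyb, hxy⟩ := liftC hp P (Fr p P) B hP (fr_le p P) (nz_fr p (nz_self P)) hn
      (nz_fr p hn) hc x hx (fun b hb => h b hb x hx)
    have e : x = y * (x⁻¹ * y)⁻¹ := by group
    rw [e]
    refine mul_mem (mem_sup_left ⟨hy, ?_⟩) (mem_sup_right (inv_mem hxy))
    exact mem_centralizer_iff.2 fun b hb => hyb b hb
  intro b hb x hx
  rw [← h1] at hx
  exact (mem_centralizer_iff.1 hx.2) b hb

/-- K5 for a single element. -/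
theorem trivFr [Finite G] {p : ℕ} (hp : p.Prime) (P : Subgroup G) (hP : IsPGroup p P) (g : G)
    (hn : ∀ x ∈ P, g * x * g⁻¹ ∈ P) (hc : ¬ p ∣ orderOf g)
    (h : ∀ x ∈ P, ⁅g, x⁆ ∈ Fr p P) : ∀ x ∈ P, g * x = x * g := by
  have hk : ∀ k : ℕ, (∀ x ∈ P, g ^ k * x * (g ^ k)⁻¹ ∈ P) ∧ ∀ x ∈ P, ⁅g ^ k, x⁆ ∈ Fr p P := by
    intro k
    induction k with
    | zero => exact ⟨fun x hx => by simpa using hx, fun x _ => by
        rw [pow_zero, commutatorElement_one_left]; exact one_mem _⟩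
    | succ k ih =>
      refine ⟨fun x hx => ?_, fun x hx => ?_⟩
      · have h1 := hn _ (ih.1 x hx)
        have e : g ^ (k + 1) * x * (g ^ (k + 1))⁻¹ = g * (g ^ k * x * (g ^ k)⁻¹) * g⁻¹ := by
          rw [pow_succ']; group
        rw [e]; exact h1
      · have h1 := h _ (ih.1 x hx)
        have h2 := ih.2 x hx
        have e : ⁅g ^ (k + 1), x⁆ = ⁅g, g ^ k * x * (g ^ k)⁻¹⁆ * ⁅g ^ k, x⁆ := by
          rw [pow_succ', commutatorElement_def, commutatorElement_def, commutatorElement_def]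
          group
        rw [e]
        exact mul_mem h1 h2
  have hpw : ∀ b ∈ zpowers g, ∃ k : ℕ, b = g ^ k := by
    intro b hb
    rw [← mem_powers_iff_mem_zpowers] at hb
    obtain ⟨k, hk⟩ := hb
    exact ⟨k, hk.symm⟩
  have h1 : Cz (zpowers g) P := by
    apply trivFrC hp P (zpowers g) hP
    · intro b hb x hx
      obtain ⟨k, rfl⟩ := hpw b hb
      exact (hk k).1 x hx
    · rwa [Nat.card_zpowers]
    · intro b hb x hx
      obtain ⟨k, rfl⟩ := hpw b hb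
      exact (hk k).2 x hx
  exact h1 g (mem_zpowers g)

/-- K7 (Maschke modulo the Frattini subgroup). -/
theorem maschkeFr [Finite G] {p : ℕ} (hp : p.Prime) (P R L : Subgroup G) (hFR : Fr p P ≤ R)
    (hRP : R ≤ P) (hLP : Nz L P) (hLR : Nz L R) (hc : ¬ p ∣ Nat.card L) :
    ∃ R' : Subgroup G, Fr p P ≤ R' ∧ R' ≤ P ∧ Nz L R' ∧ R ⊔ R' = P ∧ R ⊓ R' = Fr p P := by
  set H : Subgroup G := P ⊔ L with hH
  have hPH : P ≤ H := le_sup_left
  have hLH : L ≤ H := le_sup_right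
  have hFP : Fr p P ≤ P := fr_le p P
  have hHF : Nz H (Fr p P) := by
    have h1 : Nz P (Fr p P) := nz_fr p (nz_self P)
    have h2 : Nz L (Fr p P) := nz_fr p hLP
    rw [nz_iff] at h1 h2 ⊢
    exact sup_le h1 h2
  haveI hNn : ((Fr p P).subgroupOf H).Normal := hHF.subgroupOf_normal
  set q := QuotientGroup.mk' ((Fr p P).subgroupOf H) with hq
  have hq1 : ∀ y : H, q y = 1 ↔ (y : G) ∈ Fr p P := fun y => by
    rw [hq, QuotientGroup.mk'_apply, QuotientGroup.eq_one_iff, mem_subgroupOf]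
  have hker : q.ker = (Fr p P).subgroupOf H := QuotientGroup.ker_mk' _
  have hsurj : Function.Surjective q := QuotientGroup.mk'_surjective _
  have hcK : Nat.card ((L.subgroupOf H).map q) ∣ Nat.card L := by
    refine (card_map_dvd _ _).trans ?_
    rw [Nat.card_congr (subgroupOfEquivOfLe hLH).toEquiv]
  obtain ⟨M₂, hM₂, hn₂, hinf, hsup⟩ := maschke hp ((L.subgroupOf H).map q) ((P.subgroupOf H).map q)
    ((R.subgroupOf H).map q)
    (by
      rintro _ ⟨a, ha, rfl⟩ _ ⟨b, hb, rfl⟩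
      rw [← map_mul, ← map_mul, ← mul_inv_eq_one, ← map_inv, ← map_mul, hq1]
      have := comm_mem_fr (p := p) (mem_subgroupOf.1 ha) (mem_subgroupOf.1 hb)
      rw [commutatorElement_def] at this
      have e : ((a * b * (b * a)⁻¹ : H) : G) = (a : G) * b * (a : G)⁻¹ * (b : G)⁻¹ := by
        show (a : G) * b * ((b : G) * a)⁻¹ = _
        group
      rw [e]
      exact this)
    (by
      rintro _ ⟨a, ha, rfl⟩
      rw [← map_pow, hq1]
      exact pow_mem_fr (mem_subgroupOf.1 ha))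
    (map_mono (comap_mono hRP))
    (by
      rintro _ ⟨a, ha, rfl⟩ _ ⟨b, hb, rfl⟩
      exact ⟨a * b * a⁻¹, mem_subgroupOf.2 (hLP a (mem_subgroupOf.1 ha) b (mem_subgroupOf.1 hb)),
        by simp⟩)
    (by
      rintro _ ⟨a, ha, rfl⟩ _ ⟨b, hb, rfl⟩
      exact ⟨a * b * a⁻¹, mem_subgroupOf.2 (hLR a (mem_subgroupOf.1 ha) b (mem_subgroupOf.1 hb)),
        by simp⟩)
    (by
      intro x hx ⟨k, hk⟩ m _
      have h1 : orderOf x ∣ p ^ k := orderOf_dvd_of_pow_eq_one hk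
      have h2 : orderOf x ∣ Nat.card L := by
        refine (Subgroup.orderOf_dvd_natCard _ hx).trans hcK
      have h3 : orderOf x = 1 := by
        have h4 : Nat.Coprime (p ^ k) (Nat.card L) :=
          Nat.Coprime.pow_left k ((Nat.Prime.coprime_iff_not_dvd hp).2 hc)
        exact Nat.eq_one_of_dvd_coprimes h4 h1 h2
      rw [orderOf_eq_one_iff.1 h3, one_mul, mul_one])
  have hle : ∀ A : Subgroup G, Fr p P ≤ A → ((A.subgroupOf H).map q).comap q = A.subgroupOf H := by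
    intro A hA
    rw [comap_map_eq, hker, sup_eq_left]
    exact comap_mono hA
  have hmap : ∀ A : Subgroup G, A ≤ H → (A.subgroupOf H).map H.subtype = A :=
    fun A hA => map_subgroupOf_eq_of_le hA
  have hsup' : (R.subgroupOf H) ⊔ M₂.comap q = P.subgroupOf H := by
    rw [← hle R hFR, ← hle P hFP, ← hsup, ← comap_sup_eq _ _ _ hsurj]
  have hbot : (⊥ : Subgroup (H ⧸ (Fr p P).subgroupOf H)).comap q = (Fr p P).subgroupOf H := hker
  have hinf' : (R.subgroupOf H) ⊓ M₂.comap q = (Fr p P).subgroupOf H := by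
    rw [← hle R hFR, ← comap_inf, hinf]
    exact hbot
  have hn' : ∀ l (hl : l ∈ L), ∀ y ∈ M₂.comap q, (⟨l, hLH hl⟩ : H) * y * ⟨l, hLH hl⟩⁻¹ ∈
      M₂.comap q := by
    intro l hl y hy
    have h1 := hn₂ (q ⟨l, hLH hl⟩) ⟨⟨l, hLH hl⟩, mem_subgroupOf.2 hl, rfl⟩ (q y) hy
    rwa [← map_mul, ← map_inv, ← map_mul] at h1
  generalize M₂.comap q = A₂ at hsup' hinf' hn'
  have e1 := congrArg (Subgroup.map H.subtype) hsup'
  have e2 := congrArg (Subgroup.map H.subtype) hinf'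
  rw [Subgroup.map_sup, hmap R (hRP.trans hPH), hmap P hPH] at e1
  rw [Subgroup.map_inf _ _ _ H.subtype_injective, hmap R (hRP.trans hPH),
    hmap (Fr p P) (hFP.trans hPH)] at e2
  refine ⟨A₂.map H.subtype, e2 ▸ inf_le_right, e1 ▸ le_sup_right, ?_, e1, e2⟩
  rintro l hl _ ⟨y, hy, rfl⟩
  exact ⟨⟨l, hLH hl⟩ * y * ⟨l, hLH hl⟩⁻¹, hn' l hl y hy, rfl⟩

end Pool.Agent.Work.MP_b44cb1_al
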