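import Mathlib

/-!
# K9a pp : a noncyclic `p`-group, `p` odd, has a normal subgroup of type `(p,p)`  (size M-L)

PROOF. Suppose `P` is a finite `p`-group, `p` odd, without such a subgroup.
Step 1: every normal elementary abelian subgroup `E` has order at most `p`. (If `|E| ≥ p ^ 2`: `E` is a
nontrivial normal subgroup, so it contains a central subgroup `Z` of `P` of order `p`
(`E ⊓ center P ≠ ⊥`), and `E / Z` is a nontrivial normal subgroup of `P / Z`, so it contains a central
subgroup of order `p` of `P / Z`, whose preimage is normal in `P` of order `p ^ 2`, contained in `E`.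
Alternatively: `Sylow.exists_subgroup_card_pow_prime_le` for normal subgroups, or take a normal
subgroup `F` of `P` with `Z < F ≤ E` minimal.)
Step 2: let `A` be maximal among the normal abelian subgroups of `P`. `A` is cyclic: the elements `a` of `A` with
`a ^ p = 1` form a normal elementary abelian subgroup, of order at most `p` by step 1, so `A` is cyclic
(`isCyclic_of_card_pow_eq_one_le`, or a finite abelian `p`-group with at most `p` solutions of `x ^ p = 1`).
Also `A` is self centralising: otherwise `C = C_P(A) > A`, `C/A` is a nontrivial normal subgroup of `P / A`, it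
contains an element `cA` of `center (P / A)`, `c ∉ A`, and `A ⊔ zpowers c` is normal and abelian, larger than `A`.
Step 3: `A = ⊤`, so `P` is cyclic. Otherwise let `b ∉ A` with `bA` in the centre of `P / A` and `b ^ p ∈ A`.
Let `A = ⟨a⟩`, `|A| = p ^ n`. `b` does not centralise `A`. For `x ∈ A`: `[b, x] ∈ A`; `x ↦ [b,x]` is an endomorphism `δ` of `A`,
`b x b⁻¹ = δ x * x`, i.e. `b` acts on the cyclic group `A` as `x ↦ x ^ k`, `k ^ p ≡ 1 mod p ^ n` (`b ^ p ∈ A` commutes with
`A`), so `k ≡ 1 mod p`, and then `k ≡ 1 mod p ^ (n-1)` (`p` odd; `n ≥ 2`, LTE: `v_p(k^p - 1) = v_p(k - 1) + 1`).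
So `z := [b, a]` has order `p`, and is centralised by `b` and by `A`; `H = ⟨A, b⟩` has class 2, commutators
of order dividing `p`. `b ^ p` commutes with `b`, and `C_A(b) = {a ^ j : a ^ (j (k-1)) = 1} = ⟨a ^ p⟩`, so
`b ^ p = a ^ (p j)`. Put `b' = a ^ (-j) b ∉ A`: `b' ^ p = a ^ (-p j) b ^ p [b, a ^ (-j)] ^ (p (p-1) / 2) = 1` (`p` odd).
`E = ⟨b', z⟩` (note `z` generates the elements of order `p` of `A`) has order `p ^ 2`, exponent `p`, and is normal in
`P`: for `g ∈ P`, `g b' g⁻¹ = b' c` with `c ∈ A` (`b' A` is central in `P / A`), `(b' c) ^ p = 1` gives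
`c ^ p [.,.] ^ (p (p-1) / 2) = 1`, `c ^ p = 1`, `c ∈ ⟨z⟩`; and `⟨z⟩` is normal (characteristic in `A`). Contradiction.
-/

set_option autoImplicit false

namespace Pool.Agent.Work.MP_b44cb1_al

open Subgroup

private theorem lemA {P : Type*} [Group P] [Finite P] {p : ℕ} (hp : p.Prime) (hP : IsPGroup p P)
    (N : Subgroup P) (hNn : N.Normal) (hN : N ≠ ⊥) :
    ∃ z ∈ N, z ∈ center P ∧ orderOf z = p := by
  have := Fact.mk hp
  have hNp : IsPGroup p N := hP.to_subgroup N
  have hnt : Nontrivial N := (Subgroup.nontrivial_iff_ne_bot N).2 hN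
  have hdvd : p ∣ Nat.card N := by
    rcases hNp.card_eq_or_dvd with h | h
    · exact absurd h (Finite.one_lt_card).ne'
    · exact h
  have hcp : IsPGroup p (ConjAct P) := hP.of_equiv ConjAct.toConjAct
  obtain ⟨b, hb, hb1⟩ := hcp.exists_fixed_point_of_prime_dvd_card_of_fixed_point N hdvd
    (a := 1) (fun g => smul_one g)
  have hbc : (b : P) ∈ center P := by
    rw [mem_center_iff]
    intro g
    have h1 := hb (ConjAct.toConjAct g)
    have h2 : g * (b : P) * g⁻¹ = b := congrArg Subtype.val h1
    exact mul_inv_eq_iff_eq_mul.1 h2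
  have hb2 : (b : P) ≠ 1 := fun h => hb1 (Subtype.ext h.symm)
  have hd : p ∣ orderOf (b : P) := hP.dvd_orderOf hb2
  exact ⟨(b : P) ^ (orderOf (b : P) / p), pow_mem b.2 _, pow_mem hbc _,
    orderOf_pow_orderOf_div (orderOf_pos _).ne' hd⟩

private theorem cnorm {P : Type*} [Group P] {z : P} (hz : z ∈ center P) :
    (zpowers z).Normal := by
  refine ⟨fun n hn g => ?_⟩
  have h1 : n ∈ center P := (zpowers_le.2 hz) hn
  have h2 : g * n * g⁻¹ = n := by
    rw [mem_center_iff.1 h1 g, mul_inv_cancel_right]
  rw [h2]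
  exact hn

private theorem card_cm {P : Type*} [Group P] [Finite P] (Z : Subgroup P) [Z.Normal]
    (H : Subgroup (P ⧸ Z)) :
    Nat.card (H.comap (QuotientGroup.mk' Z)) = Nat.card H * Nat.card Z := by
  have h1 := (H.comap (QuotientGroup.mk' Z)).card_mul_index
  rw [index_comap_of_surjective H (QuotientGroup.mk'_surjective Z)] at h1
  have h2 := H.card_mul_index
  have h3 := Z.card_eq_card_quotient_mul_card_subgroup
  have h4 : H.index ≠ 0 := Subgroup.index_ne_zero_of_finite
  apply Nat.eq_of_mul_eq_mul_right (Nat.pos_of_ne_zero h4)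
  rw [h1, h3, ← h2]
  ring

private theorem lemB {P : Type*} [Group P] [Finite P] {p : ℕ} (hp : p.Prime) (hP : IsPGroup p P)
    (N : Subgroup P) (hNn : N.Normal) (hN : p < Nat.card N) (hexp : ∀ x ∈ N, x ^ p = 1) :
    ∃ E : Subgroup P, E.Normal ∧ Nat.card E = p ^ 2 ∧ (∀ x ∈ E, x ^ p = 1) ∧
      ∀ x ∈ E, ∀ y ∈ E, x * y = y * x := by
  have := Fact.mk hp
  have hNb : N ≠ ⊥ := by
    rintro rfl
    rw [Subgroup.card_bot] at hN
    exact absurd hN (by have := hp.one_lt; omega)
  obtain ⟨z, hzN, hzc, hz⟩ := lemA hp hP N hNn hNb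
  have := cnorm hzc
  have hcZ : Nat.card (zpowers z) = p := by rw [Nat.card_zpowers, hz]
  have hN'n : (N.map (QuotientGroup.mk' (zpowers z))).Normal :=
    hNn.map _ (QuotientGroup.mk'_surjective _)
  have hN'b : N.map (QuotientGroup.mk' (zpowers z)) ≠ ⊥ := by
    intro h
    rw [Subgroup.map_eq_bot_iff, QuotientGroup.ker_mk'] at h
    have := Subgroup.card_le_of_le h
    rw [hcZ] at this
    omega
  obtain ⟨z', hz'N, hz'c, hz'⟩ := lemA hp (hP.to_quotient (zpowers z)) _ hN'n hN'b
  have := cnorm hz'c
  have hEN : (zpowers z').comap (QuotientGroup.mk' (zpowers z)) ≤ N := by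
    intro x hx
    rw [mem_comap] at hx
    have h1 := (zpowers_le.2 hz'N) hx
    rw [mem_map] at h1
    obtain ⟨n, hn, hnx⟩ := h1
    have h2 : n⁻¹ * x ∈ zpowers z := QuotientGroup.eq.1 hnx
    have h3 : n⁻¹ * x ∈ N := (zpowers_le.2 hzN) h2
    have h4 := mul_mem hn h3
    rwa [mul_inv_cancel_left] at h4
  have hcard : Nat.card ((zpowers z').comap (QuotientGroup.mk' (zpowers z))) = p ^ 2 := by
    rw [card_cm, Nat.card_zpowers, hz', hcZ, sq]
  refine ⟨(zpowers z').comap (QuotientGroup.mk' (zpowers z)), inferInstance, hcard,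
    fun x hx => hexp x (hEN hx), fun x hx y hy => ?_⟩
  have h5 := IsPGroup.commutative_of_card_eq_prime_sq hcard ⟨x, hx⟩ ⟨y, hy⟩
  exact congrArg Subtype.val h5

private theorem ypow {P : Type*} [Group P] {x y c : P} (hc : c ∈ center P)
    (h : y * x = c * (x * y)) (n : ℕ) : y ^ n * x = c ^ n * (x * y ^ n) := by
  induction n with
  | zero => simp
  | succ n ih =>
    have hc' : y ^ n * c = c * y ^ n := mem_center_iff.1 hc _
    calc y ^ (n + 1) * x = y ^ n * (y * x) := by rw [pow_succ, mul_assoc]
      _ = (y ^ n * c) * (x * y) := by rw [h, mul_assoc]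
      _ = c * (y ^ n * x) * y := by rw [hc']; group
      _ = c ^ (n + 1) * (x * y ^ (n + 1)) := by
        rw [ih, pow_succ' c, pow_succ y]
        group

private theorem xypow {P : Type*} [Group P] {x y c : P} (hc : c ∈ center P)
    (h : y * x = c * (x * y)) (n : ℕ) :
    (x * y) ^ n = c ^ (n.choose 2) * (x ^ n * y ^ n) := by
  induction n with
  | zero => simp
  | succ n ih =>
    have hcn : c ^ n ∈ center P := pow_mem hc n
    have hc' : x ^ n * c ^ n = c ^ n * x ^ n := mem_center_iff.1 hcn _
    have hch : (n + 1).choose 2 = n.choose 2 + n := by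
      rw [Nat.choose_succ_succ, Nat.choose_one_right, add_comm]
    calc (x * y) ^ (n + 1) = c ^ (n.choose 2) * (x ^ n * (y ^ n * x) * y) := by
          rw [pow_succ, ih]
          group
      _ = c ^ (n.choose 2) * ((x ^ n * c ^ n) * (x * y ^ n) * y) := by
          rw [ypow hc h n]
          group
      _ = c ^ (n.choose 2) * ((c ^ n * x ^ n) * (x * y ^ n) * y) := by rw [hc']
      _ = c ^ ((n + 1).choose 2) * (x ^ (n + 1) * y ^ (n + 1)) := by
          rw [hch, pow_add, pow_succ x, pow_succ y]
          group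

universe u

private theorem pp_aux {p : ℕ} (hp : p.Prime) (hp2 : p ≠ 2) (n : ℕ) :
    ∀ (P : Type u) [Group P] [Finite P], Nat.card P ≤ n → IsPGroup p P → ¬ IsCyclic P →
    ∃ E : Subgroup P, E.Normal ∧ Nat.card E = p ^ 2 ∧ (∀ x ∈ E, x ^ p = 1) ∧
      ∀ x ∈ E, ∀ y ∈ E, x * y = y * x := by
  have := Fact.mk hp
  induction n with
  | zero =>
    intro P _ _ h
    exact absurd h (by have := Nat.card_pos (α := P); omega)
  | succ n ih =>
    intro P _ _ hn hP hnc
    have hnt : Nontrivial P := by
      by_contra h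
      rw [not_nontrivial_iff_subsingleton] at h
      exact hnc inferInstance
    have htop : (⊤ : Subgroup P) ≠ ⊥ := top_ne_bot
    obtain ⟨z, -, hzc, hz⟩ := lemA hp hP ⊤ inferInstance htop
    have := cnorm hzc
    have hcZ : Nat.card (zpowers z) = p := by rw [Nat.card_zpowers, hz]
    have hzp : z ^ p = 1 := by rw [← hz]; exact pow_orderOf_eq_one z
    have hcP : Nat.card P = Nat.card (P ⧸ zpowers z) * p := by
      rw [← hcZ]
      exact (zpowers z).card_eq_card_quotient_mul_card_subgroup
    have hlt : Nat.card (P ⧸ zpowers z) ≤ n := by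
      have h1 : 0 < Nat.card (P ⧸ zpowers z) := Nat.card_pos
      have h2 := hp.two_le
      nlinarith
    by_cases hcyc : IsCyclic (P ⧸ zpowers z)
    · -- abelian case
      have hcomm : ∀ a b : P, a * b = b * a := by
        refine commutative_of_cyclic_center_quotient (QuotientGroup.mk' (zpowers z)) ?_
        rw [QuotientGroup.ker_mk']
        exact zpowers_le.2 hzc
      obtain ⟨g', hg'⟩ := hcyc.exists_generator
      obtain ⟨g, rfl⟩ := QuotientGroup.mk_surjective g'
      have hgen : ∀ x : P, ∃ k j : ℤ, x = g ^ k * z ^ j := by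
        intro x
        obtain ⟨k, hk⟩ := mem_zpowers_iff.1 (hg' (x : P ⧸ zpowers z))
        have h1 : (g ^ k)⁻¹ * x ∈ zpowers z := by
          rw [← QuotientGroup.eq, QuotientGroup.mk_zpow]
          exact hk
        obtain ⟨j, hj⟩ := mem_zpowers_iff.1 h1
        refine ⟨k, j, ?_⟩
        have hj' : z ^ j = (g ^ k)⁻¹ * x := hj
        rw [hj', mul_inv_cancel_left]
      have hzg : z ∉ zpowers g := by
        intro h
        apply hnc
        refine ⟨g, fun x => ?_⟩
        obtain ⟨k, j, rfl⟩ := hgen x
        exact mul_mem (zpow_mem (mem_zpowers g) k) (zpow_mem h j)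
      have hg1 : g ≠ 1 := by
        rintro rfl
        apply hnc
        refine ⟨z, fun x => ?_⟩
        obtain ⟨k, j, rfl⟩ := hgen x
        rw [one_zpow, one_mul]
        exact zpow_mem (mem_zpowers z) j
      have hgd : p ∣ orderOf g := hP.dvd_orderOf hg1
      have hw : orderOf (g ^ (orderOf g / p)) = p :=
        orderOf_pow_orderOf_div (orderOf_pos _).ne' hgd
      set w := g ^ (orderOf g / p) with hwdef
      have hwp : w ^ p = 1 := by rw [← hw]; exact pow_orderOf_eq_one w
      have hwZ : w ∉ zpowers z := by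
        intro h
        have h1 : zpowers w ≤ zpowers z := zpowers_le.2 h
        have h2 : zpowers w = zpowers z := by
          apply Subgroup.eq_of_le_of_card_ge h1
          rw [hcZ, Nat.card_zpowers, hw]
        apply hzg
        have h3 : z ∈ zpowers w := by
          rw [h2]
          exact mem_zpowers z
        exact (zpowers_le.2 (pow_mem (mem_zpowers g) _)) h3
      let N : Subgroup P :=
        { carrier := {x | x ^ p = 1}
          mul_mem' := fun {a b} ha hb => by
            change (a * b) ^ p = 1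
            have hab : Commute a b := hcomm a b
            rw [hab.mul_pow, show a ^ p = 1 from ha, show b ^ p = 1 from hb, one_mul]
          one_mem' := one_pow p
          inv_mem' := fun {a} ha => by
            change (a⁻¹) ^ p = 1
            rw [inv_pow, show a ^ p = 1 from ha, inv_one] }
      have hzN : zpowers z ≤ N := zpowers_le.2 hzp
      have hNn : N.Normal := by
        refine ⟨fun n hn g => ?_⟩
        rw [hcomm g n, mul_inv_cancel_right]
        exact hn
      refine lemB hp hP N hNn ?_ (fun x hx => hx)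
      by_contra hcon
      have h4 : zpowers z = N := by
        apply Subgroup.eq_of_le_of_card_ge hzN
        rw [hcZ]
        exact not_lt.1 hcon
      apply hwZ
      rw [h4]
      exact hwp
    · obtain ⟨E', hE'n, hE'c, hE'e, hE'a⟩ := ih (P ⧸ zpowers z) hlt (hP.to_quotient _) hcyc
      set E := E'.comap (QuotientGroup.mk' (zpowers z)) with hE
      have hEn : E.Normal := hE'n.comap _
      have hEc : Nat.card E = p ^ 3 := by
        rw [hE, card_cm, hE'c, hcZ]
        ring
      have hcentral : ∀ c ∈ zpowers z, c ∈ center P ∧ c ^ p = 1 := by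
        intro c hc
        refine ⟨(zpowers_le.2 hzc) hc, ?_⟩
        obtain ⟨k, hk⟩ := mem_zpowers_iff.1 hc
        rw [← hk, ← zpow_natCast, ← zpow_mul, mul_comm, zpow_mul, zpow_natCast, hzp, one_zpow]
      have hmul : ∀ x ∈ E, ∀ y ∈ E, (x * y) ^ p = x ^ p * y ^ p := by
        intro x hx y hy
        have h1 : y * x * (x * y)⁻¹ ∈ zpowers z := by
          rw [← QuotientGroup.eq_one_iff]
          have h2 := hE'a _ hy _ hx
          have h3 : ((y * x : P) : P ⧸ zpowers z) = ((x * y : P) : P ⧸ zpowers z) := h2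
          rw [QuotientGroup.mk_mul, h3, ← QuotientGroup.mk_mul, mul_inv_cancel]
          rfl
        obtain ⟨hc1, hc2⟩ := hcentral _ h1
        have h4 := xypow hc1 (x := x) (y := y) (by rw [inv_mul_cancel_right]) p
        rw [h4]
        have h5 : p ∣ p.choose 2 := hp.dvd_choose_self (by norm_num) (by
          have := hp.two_le
          omega)
        obtain ⟨m, hm⟩ := h5
        rw [hm, pow_mul, hc2, one_pow, one_mul]
      let f : E →* P :=
        { toFun := fun x => (x : P) ^ p
          map_one' := one_pow p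
          map_mul' := fun x y => hmul x x.2 y y.2 }
      have hrange : f.range ≤ zpowers z := by
        rintro _ ⟨x, rfl⟩
        change (x : P) ^ p ∈ zpowers z
        rw [← QuotientGroup.eq_one_iff, QuotientGroup.mk_pow]
        exact hE'e _ x.2
      have hcr : Nat.card f.range ≤ p := by
        rw [← hcZ]
        exact Subgroup.card_le_of_le hrange
      have hprod : Nat.card f.ker * Nat.card f.range = p ^ 3 := by
        rw [← hEc, ← Subgroup.index_ker, Subgroup.card_mul_index]
      have hck : p < Nat.card f.ker := by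
        by_contra hcon
        have h1 : Nat.card f.ker ≤ p := not_lt.1 hcon
        have h2 : p ^ 3 ≤ p * p := by
          rw [← hprod]
          exact Nat.mul_le_mul h1 hcr
        have h3 := hp.two_le
        have h4 : p * p * 2 ≤ p ^ 3 := by
          rw [pow_succ, sq]
          exact Nat.mul_le_mul_left _ h3
        nlinarith [Nat.mul_pos hp.pos hp.pos]
      have hNmem : ∀ x, x ∈ f.ker.map E.subtype ↔ x ∈ E ∧ x ^ p = 1 := by
        intro x
        rw [mem_map]
        constructor
        · rintro ⟨y, hy, rfl⟩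
          exact ⟨y.2, hy⟩
        · rintro ⟨h1, h2⟩
          exact ⟨⟨x, h1⟩, h2, rfl⟩
      refine lemB hp hP (f.ker.map E.subtype) ?_ ?_ ?_
      · refine ⟨fun n hn g => ?_⟩
        rw [hNmem] at hn ⊢
        refine ⟨hEn.conj_mem n hn.1 g, ?_⟩
        rw [conj_pow, hn.2, mul_one, mul_inv_cancel]
      · rwa [Subgroup.card_map_of_injective (E.subtype_injective)]
      · intro x hx
        exact ((hNmem x).1 hx).2

theorem pp {P : Type*} [Group P] [Finite P] {p : ℕ} (hp : p.Prime) (hp2 : p ≠ 2)
    (hP : IsPGroup p P) (hnc : ¬ IsCyclic P) :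
    ∃ E : Subgroup P, E.Normal ∧ Nat.card E = p ^ 2 ∧ (∀ x ∈ E, x ^ p = 1) ∧
      ∀ x ∈ E, ∀ y ∈ E, x * y = y * x :=
  pp_aux hp hp2 _ P le_rfl hP hnc

end Pool.Agent.Work.MP_b44cb1_al
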