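import Pool.Agent.Work.MP_b44cb1_al.Full.Kit.GlauN

/-!
# K2 fixN, K3 liftN, cosetN : fixed representatives

PROOF. `cosetN`: `G` acts on `G ⧸ B`; for `b ∈ B`, `b (u B) = (b u b⁻¹) B = u s B`, `s ∈ S`, and
`u s B = (u s u⁻¹) (u B)`; the `e`-group `cj u S` is normalised by `B`
(`b u S u⁻¹ b⁻¹ = (b u b⁻¹) S (b u b⁻¹)⁻¹ = u s S s⁻¹ u⁻¹`). `glauN` gives `s` with `b (u s B) = u s B` for all
`b ∈ B`; so `v = u s ∈ W` normalises `B`: `v⁻¹ b v ∈ B`, and `(v⁻¹ b v) b⁻¹ = v⁻¹ (b v b⁻¹) ∈ W ⊓ B = ⊥`.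
`fixN`: `S = W ⊓ Stab(x)`, `cosetN`. `liftN`: `S = F`, `u = x`.
-/

set_option autoImplicit false

namespace Pool.Agent.Work.MP_b44cb1_al

open Subgroup
open scoped commutatorElement

variable {G : Type*} [Group G]

/-- A `B`-invariant coset `u S` in `W` contains an element commuting with `B`. -/
theorem cosetN [Finite G] {e : ℕ} (he : e.Prime) (W S B : Subgroup G) (hW : IsPGroup e W)
    (hSW : S ≤ W) (hBW : Nz B W) (hBS : Nz B S) (hc : ¬ e ∣ Nat.card B) {u : G} (hu : u ∈ W)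
    (h : ∀ b ∈ B, u⁻¹ * (b * u * b⁻¹) ∈ S) :
    ∃ s ∈ S, ∀ b ∈ B, b * (u * s) = (u * s) * b := by
  obtain ⟨t, ht, hfix⟩ := glauN he S B (QuotientGroup.mk u⁻¹ : G ⧸ B) (hW.to_le hSW) hBS hc (by
    intro b hb
    refine ⟨(u⁻¹ * (b * u * b⁻¹))⁻¹, inv_mem (h b hb), ?_⟩
    show (QuotientGroup.mk (b * u⁻¹) : G ⧸ B) = QuotientGroup.mk ((u⁻¹ * (b * u * b⁻¹))⁻¹ * u⁻¹)
    rw [QuotientGroup.eq]
    have e1 : (b * u⁻¹)⁻¹ * ((u⁻¹ * (b * u * b⁻¹))⁻¹ * u⁻¹) = b⁻¹ := by group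
    rw [e1]
    exact inv_mem hb)
  have hmem : t * u⁻¹ ∈ W := mul_mem (hSW ht) (inv_mem hu)
  have hcomm := comm_of_coset he hW hBW hc hmem (by
    intro b hb
    have h1 : (QuotientGroup.mk (b * (t * u⁻¹)) : G ⧸ B) = QuotientGroup.mk (t * u⁻¹) := hfix b hb
    rw [QuotientGroup.eq] at h1
    have h2 := inv_mem h1
    have e1 : ((b * (t * u⁻¹))⁻¹ * (t * u⁻¹))⁻¹ = (t * u⁻¹)⁻¹ * b * (t * u⁻¹) := by group
    rwa [e1] at h2)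
  refine ⟨t⁻¹, inv_mem ht, fun b hb => ?_⟩
  have h1 := ((show Commute b (t * u⁻¹) from hcomm b hb).inv_right).eq
  rwa [mul_inv_rev, inv_inv] at h1

theorem fixN [Finite G] {α : Type*} [MulAction G α] {e : ℕ} (he : e.Prime) (W Y : Subgroup G)
    (x : α) (hW : IsPGroup e W) (hn : Nz Y W) (hc : ¬ e ∣ Nat.card Y)
    (hx : ∀ y ∈ Y, y • x = x) {u : G} (hu : u ∈ W) (hux : ∀ y ∈ Y, y • (u • x) = u • x) :
    ∃ c ∈ W, (∀ y ∈ Y, y * c = c * y) ∧ u • x = c • x := by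
  exact fixrepC he W Y x hW hn hc hx u hu hux

theorem fixN_cj [Finite G] {e : ℕ} (he : e.Prime) (W Y U : Subgroup G) (hW : IsPGroup e W)
    (hn : Nz Y W) (hc : ¬ e ∣ Nat.card Y) (hx : ∀ y ∈ Y, cj y U = U) {u : G} (hu : u ∈ W)
    (hux : ∀ y ∈ Y, cj y (cj u U) = cj u U) :
    ∃ c ∈ W, (∀ y ∈ Y, y * c = c * y) ∧ cj u U = cj c U := by
  letI : MulAction G (Subgroup G) := { smul := cj, one_smul := cj_one, mul_smul := cj_mul }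
  exact fixN he W Y U hW hn hc hx hu hux

theorem liftN [Finite G] {p : ℕ} (hp : p.Prime) (P F B : Subgroup G) (hP : IsPGroup p P)
    (hF : F ≤ P) (hPF : Nz P F) (hBP : Nz B P) (hBF : Nz B F) (hc : ¬ p ∣ Nat.card B) {x : G}
    (hx : x ∈ P) (h : ∀ b ∈ B, ⁅b, x⁆ ∈ F) :
    ∃ y ∈ P, (∀ b ∈ B, b * y = y * b) ∧ x⁻¹ * y ∈ F := by
  exact liftC hp P F B hP hF hPF hBP hBF hc x hx h

end Pool.Agent.Work.MP_b44cb1_al
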