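import Pool.Agent.Work.MP_b44cb1_al.Full.Base

/-!
# KIT / FrKit : general facts on the Frattini subgroup `Fr p P = [P,P] P^p` (all proved)
-/

set_option autoImplicit false

namespace Pool.Agent.Work.MP_b44cb1_al

open Subgroup
open scoped commutatorElement

variable {G : Type*} [Group G]

theorem fr_le_iff {p : ℕ} {P D : Subgroup G} :
    Fr p P ≤ D ↔ ⁅P, P⁆ ≤ D ∧ ∀ x ∈ P, x ^ p ∈ D := by
  unfold Fr
  rw [sup_le_iff, closure_le]
  constructor
  · rintro ⟨h1, h2⟩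
    exact ⟨h1, fun x hx => h2 ⟨x, hx, rfl⟩⟩
  · rintro ⟨h1, h2⟩
    refine ⟨h1, ?_⟩
    rintro _ ⟨x, hx, rfl⟩
    exact h2 x hx

theorem map_fr {H : Type*} [Group H] (f : G →* H) (p : ℕ) (P : Subgroup G) :
    (Fr p P).map f = Fr p (P.map f) := by
  unfold Fr
  rw [Subgroup.map_sup, Subgroup.map_commutator, MonoidHom.map_closure]
  congr 2
  ext y
  constructor
  · rintro ⟨_, ⟨x, hx, rfl⟩, rfl⟩
    exact ⟨f x, ⟨x, hx, rfl⟩, by simp⟩
  · rintro ⟨_, ⟨x, hx, rfl⟩, rfl⟩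
    exact ⟨x ^ p, ⟨x, hx, rfl⟩, by simp⟩

theorem cj_fr (g : G) (p : ℕ) (P : Subgroup G) : cj g (Fr p P) = Fr p (cj g P) :=
  map_fr _ p P

theorem fr_bot (p : ℕ) : Fr p (⊥ : Subgroup G) = ⊥ := le_bot_iff.1 (fr_le p ⊥)

/-- `Fr p P` is contained in every subgroup `D` of `P`, normalised by `P`, such that `P / D` is
elementary abelian; conversely. -/
theorem fr_le_of {p : ℕ} {P D : Subgroup G} (h1 : ∀ x ∈ P, ∀ y ∈ P, ⁅x, y⁆ ∈ D)
    (h2 : ∀ x ∈ P, x ^ p ∈ D) : Fr p P ≤ D :=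
  fr_le_iff.2 ⟨commutator_le.2 h1, h2⟩

/-- An elementary abelian group has trivial Frattini subgroup. -/
theorem fr_eq_bot_iff {p : ℕ} {P : Subgroup G} :
    Fr p P = ⊥ ↔ Cz P P ∧ ∀ x ∈ P, x ^ p = 1 := by
  rw [← le_bot_iff, fr_le_iff]
  refine and_congr ?_ (forall₂_congr fun x _ => mem_bot)
  rw [commutator_le]
  refine forall₂_congr fun x _ => forall₂_congr fun y _ => ?_
  rw [mem_bot, commutatorElement_eq_one_iff_mul_comm]

/-- `Fr(P N) ≤ Fr(P) N` if `P` normalises `N`. -/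
theorem fr_sup_le (p : ℕ) {P N : Subgroup G} (h : Nz P N) : Fr p (P ⊔ N) ≤ Fr p P ⊔ N := by
  have hN : Nz (P ⊔ N) N := by
    rw [nz_iff] at h ⊢
    exact sup_le h le_normalizer
  have hNn : (N.subgroupOf (P ⊔ N)).Normal := hN.subgroupOf_normal
  let q := QuotientGroup.mk' (N.subgroupOf (P ⊔ N))
  have hq : ∀ x : ↥(P ⊔ N), q x = 1 ↔ (x : G) ∈ N := fun x => by
    rw [← MonoidHom.mem_ker, QuotientGroup.ker_mk', mem_subgroupOf]
  have hrep : ∀ x : ↥(P ⊔ N), ∃ y : ↥(P ⊔ N), (y : G) ∈ P ∧ q x = q y := by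
    intro x
    have hx := x.2
    rw [← SetLike.mem_coe, coe_mul_of_left_le_normalizer_right P N (nz_iff.1 h)] at hx
    obtain ⟨a, ha, b, hb, hab⟩ := hx
    refine ⟨⟨a, mem_sup_left ha⟩, ha, ?_⟩
    rw [← inv_mul_eq_one, ← map_inv, ← map_mul, hq]
    have hab' : a * b = (x : G) := hab
    show (x : G)⁻¹ * a ∈ N
    rw [← hab', mul_inv_rev, inv_mul_cancel_right]
    exact inv_mem hb
  have key : ∀ x y : ↥(P ⊔ N), q x = q y → (y : G) ∈ Fr p P → (x : G) ∈ Fr p P ⊔ N := by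
    intro x y hxy hy
    rw [← mul_inv_eq_one, ← map_inv, ← map_mul, hq] at hxy
    have e : (x : G) = (x * y⁻¹ : ↥(P ⊔ N)) * (y : G) := by
      show (x : G) = (x : G) * (y : G)⁻¹ * y
      rw [inv_mul_cancel_right]
    rw [e]
    exact mul_mem (mem_sup_right hxy) (mem_sup_left hy)
  apply fr_le_of
  · intro x hx y hy
    obtain ⟨x', hx', ex⟩ := hrep ⟨x, hx⟩
    obtain ⟨y', hy', ey⟩ := hrep ⟨y, hy⟩
    refine key ⁅(⟨x, hx⟩ : ↥(P ⊔ N)), ⟨y, hy⟩⁆ ⁅x', y'⁆ ?_ ?_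
    · rw [map_commutatorElement, map_commutatorElement, ex, ey]
    · exact comm_mem_fr hx' hy'
  · intro x hx
    obtain ⟨x', hx', ex⟩ := hrep ⟨x, hx⟩
    refine key ((⟨x, hx⟩ : ↥(P ⊔ N)) ^ p) (x' ^ p) ?_ ?_
    · rw [map_pow, map_pow, ex]
    · exact pow_mem_fr hx'

/-- A `p`-group is generated by any subgroup together with `Fr p P`: K6. -/
theorem frGen [Finite G] {p : ℕ} (hp : p.Prime) {P R : Subgroup G} (hP : IsPGroup p P)
    (hRP : R ≤ P) (h : P ≤ R ⊔ Fr p P) : R = P := by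
  haveI : Fact p.Prime := ⟨hp⟩
  by_contra hne
  have hRt : R.subgroupOf P ≠ ⊤ := by
    intro h1
    rw [subgroupOf_eq_top] at h1
    exact hne (le_antisymm hRP h1)
  obtain h1 | ⟨M, hM, hRM⟩ := eq_top_or_exists_le_coatom (R.subgroupOf P)
  · exact hRt h1
  haveI : Group.IsNilpotent P := hP.isNilpotent
  haveI hMn : M.Normal := NormalizerCondition.normal_of_coatom M Group.normalizerCondition_of_isNilpotent hM
  have hQ : IsPGroup p (P ⧸ M) := hP.to_quotient M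
  haveI hnt : Nontrivial (P ⧸ M) := by
    rw [QuotientGroup.nontrivial_iff]
    exact hM.1
  have hdvd : p ∣ Nat.card (P ⧸ M) := by
    obtain ⟨n, hn, hc⟩ := (hQ.nontrivial_iff_card).1 hnt
    rw [hc]
    exact dvd_pow_self p (by omega)
  obtain ⟨z, hz⟩ := exists_prime_orderOf_dvd_card' p hdvd
  have hz1 : zpowers z = ⊤ := by
    have h2 : M < (zpowers z).comap (QuotientGroup.mk' M) := by
      refine lt_of_le_of_ne ?_ ?_
      · intro m hm
        rw [mem_comap, QuotientGroup.mk'_apply, (QuotientGroup.eq_one_iff m).2 hm]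
        exact one_mem _
      · intro h3
        obtain ⟨y, rfl⟩ := QuotientGroup.mk'_surjective M z
        have h4 : y ∈ (zpowers (QuotientGroup.mk' M y)).comap (QuotientGroup.mk' M) :=
          mem_zpowers _
        rw [← h3] at h4
        have h5 : QuotientGroup.mk' M y = 1 := (QuotientGroup.eq_one_iff y).2 h4
        rw [h5, orderOf_one] at hz
        exact hp.one_lt.ne hz
    have h3 := hM.2 _ h2
    rw [eq_top_iff]
    intro y _
    obtain ⟨y, rfl⟩ := QuotientGroup.mk'_surjective M y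
    have : y ∈ (zpowers z).comap (QuotientGroup.mk' M) := h3 ▸ mem_top y
    exact this
  have hcard : Nat.card (P ⧸ M) = p := by
    rw [← hz, ← Nat.card_zpowers, hz1, Nat.card_congr (topEquiv (G := P ⧸ M)).toEquiv]
  have hcomm : ∀ a b : P ⧸ M, a * b = b * a := by
    intro a b
    have ha : a ∈ zpowers z := hz1 ▸ mem_top a
    have hb : b ∈ zpowers z := hz1 ▸ mem_top b
    obtain ⟨i, rfl⟩ := mem_zpowers_iff.1 ha
    obtain ⟨j, rfl⟩ := mem_zpowers_iff.1 hb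
    rw [← zpow_add, ← zpow_add, add_comm]
  have hFM : Fr p P ≤ M.map P.subtype := by
    apply fr_le_of
    · intro x hx y hy
      refine ⟨⁅(⟨x, hx⟩ : P), ⟨y, hy⟩⁆, ?_, rfl⟩
      have : (QuotientGroup.mk' M) ⁅(⟨x, hx⟩ : P), ⟨y, hy⟩⁆ = 1 := by
        rw [map_commutatorElement, commutatorElement_eq_one_iff_mul_comm]
        exact hcomm _ _
      exact (QuotientGroup.eq_one_iff _).1 this
    · intro x hx
      refine ⟨(⟨x, hx⟩ : P) ^ p, ?_, rfl⟩
      have : (QuotientGroup.mk' M) ((⟨x, hx⟩ : P) ^ p) = 1 := by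
        rw [map_pow]
        conv_lhs => rw [← hcard]
        exact pow_card_eq_one'
      exact (QuotientGroup.eq_one_iff _).1 this
  have hRM' : R ≤ M.map P.subtype := by
    intro x hx
    exact ⟨⟨x, hRP hx⟩, hRM (mem_subgroupOf.2 hx), rfl⟩
  have hPM : P ≤ M.map P.subtype := h.trans (sup_le hRM' hFM)
  apply hM.1
  rw [eq_top_iff]
  intro x _
  obtain ⟨y, hy, hxy⟩ := hPM x.2
  have : y = x := Subtype.ext hxy
  rwa [← this]

/-- `Fr p P` is a proper subgroup of a nontrivial `p`-group. -/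
theorem fr_ne [Finite G] {p : ℕ} (hp : p.Prime) {P : Subgroup G} (hP : IsPGroup p P)
    (h : P ≠ ⊥) : ¬ P ≤ Fr p P := by
  intro h1
  exact h (frGen hp hP bot_le (h1.trans le_sup_right)).symm

theorem fr_relIndex [Finite G] {p : ℕ} (hp : p.Prime) {P : Subgroup G} (hP : IsPGroup p P)
    (R : Subgroup G) : ∃ k : ℕ, R.relIndex P = p ^ k := by
  haveI : Fact p.Prime := ⟨hp⟩
  obtain ⟨n, hn⟩ := IsPGroup.iff_card.1 hP
  have h1 : R.relIndex P ∣ p ^ n := by
    rw [← hn]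
    exact Subgroup.index_dvd_card (R.subgroupOf P)
  obtain ⟨k, -, hk⟩ := (Nat.dvd_prime_pow hp).1 h1
  exact ⟨k, hk⟩

end Pool.Agent.Work.MP_b44cb1_al
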