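import Pool.Agent.Work.MP_b44cb1_al.Full.Kit.GlauC

/-!
# K1 glauN : Glauberman's lemma for an `e`-group `W` and any group `B` of order prime to `e`

Proved in `GlauC.lean`.
-/

set_option autoImplicit false

namespace Pool.Agent.Work.MP_b44cb1_al

open Subgroup
open scoped commutatorElement

variable {G : Type*} [Group G]

theorem glauN [Finite G] {α : Type*} [MulAction G α] {e : ℕ} (he : e.Prime) (W B : Subgroup G)
    (x : α) (hW : IsPGroup e W) (hn : Nz B W) (hc : ¬ e ∣ Nat.card B)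
    (hx : ∀ b ∈ B, ∃ w ∈ W, b • x = w • x) :
    ∃ u ∈ W, ∀ b ∈ B, b • (u • x) = u • x :=
  glauC he W B x hW hn hc hx

theorem glauN_cj [Finite G] {e : ℕ} (he : e.Prime) (W B U : Subgroup G)
    (hW : IsPGroup e W) (hn : Nz B W) (hc : ¬ e ∣ Nat.card B)
    (hx : ∀ b ∈ B, ∃ w ∈ W, cj b U = cj w U) :
    ∃ u ∈ W, ∀ b ∈ B, cj b (cj u U) = cj u U := by
  letI : MulAction G (Subgroup G) := { smul := cj, one_smul := cj_one, mul_smul := cj_mul }
  exact glauN he W B U hW hn hc hx

end Pool.Agent.Work.MP_b44cb1_al
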