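import Pool.Agent.Work.MP_b44cb1_al.Full.Kit.KDefs

/-!
# K12b hypG : the fixed points of hyperplanes generate  (size M)

PROOF. Let `Γ` be the image of `A` in `MulAut M` : a finite abelian group of exponent `p` (`K` acts trivially), with
`C_M(Γ) = 1`. Let `N = ⨆ U ∈ Hyp K A p, Fx M U`, a `Γ`-invariant subgroup. Suppose `N ≠ ⊤`.
Idempotent proof: for a subgroup `Δ` of `Γ` let `e_Δ(m) = ∏_{δ ∈ Δ} δ m`. If `|Γ| = p ^ r` (`r ≥ 1`, otherwise `M = 1`), summing over the
`n = (p^r - 1)/(p - 1)` hyperplanes `Δ` of `Γ`: every `γ ≠ 1` lies in `n' = (p^(r-1) - 1)/(p-1)` of them, so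
`∏_Δ e_Δ(m) = m ^ (n - n') * e_Γ(m) ^ n' = m ^ (p ^ (r-1))`, as `e_Γ(m) ∈ C_M(Γ) = 1`. So `m ^ (p ^ (r-1)) ∈ N` and `m ∈ N`.
Alternative proof without counting (induction on `|M|`): let `R ≠ 1` be a minimal `Γ`-invariant subgroup of `M`. For `γ ∈ Γ` and the
endomorphisms commuting with `Γ`, `Fx R ⟨γ⟩` is invariant, so it is `1` or `R`. The kernel `U` of `A` on `R` has index `p` or `1` in `A`: if
`γ, δ ∈ Γ` generate a subgroup of order `p ^ 2` acting on `R` with every nontrivial element fixed point free, then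
for `m ∈ R`, `∏_{i<p} e_⟨γ δ^i⟩(m) * e_⟨δ⟩(m) = m ^ p * e_⟨γ,δ⟩(m)`, all `e` are `1` (their values are fixed points), so `m ^ p = 1`, contradiction to
`p ∤ |M|`. So `R ≤ Fx M U ≤ N` with `U ∈ Hyp K A p`. Apply the induction hypothesis to `M / R` (fixed points of `p`-groups lift: `U` acts as a group of order
prime to `|M|`, `cocycle_abs`/`norm`): `M/R` is generated by the images of the `Fx M U`.
-/

set_option autoImplicit false

namespace Pool.Agent.Work.MP_b44cb1_al

open Subgroup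

private theorem pw_add {G : Type*} [Monoid G] {p : ℕ} [NeZero p] {T : G} (hT : T ^ p = 1)
    (x y : ZMod p) : T ^ (x + y).val = T ^ x.val * T ^ y.val := by
  rw [ZMod.val_add, ← pow_add, ← pow_eq_pow_mod _ hT]

/-- the identity of the two-dimensional case -/
private theorem hyp_ident {M : Type*} [CommGroup M] {p : ℕ} [Fact p.Prime] (f : ZMod p → ZMod p → M) :
    (∏ i : ZMod p, ∏ j : ZMod p, f j (i * j)) * ∏ j : ZMod p, f 0 j =
      f 0 0 ^ p * ∏ j : ZMod p, ∏ i : ZMod p, f j i := by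
  classical
  rw [Finset.prod_comm]
  have h0 : ∏ i : ZMod p, f 0 (i * 0) = f 0 0 ^ p := by
    simp [ZMod.card]
  have hj : ∀ j : ZMod p, j ≠ 0 → ∏ i : ZMod p, f j (i * j) = ∏ i : ZMod p, f j i := by
    intro j hj
    exact Equiv.prod_comp (Equiv.mulRight₀ j hj) (fun i => f j i)
  rw [← Finset.mul_prod_erase Finset.univ (fun j : ZMod p => ∏ i : ZMod p, f j (i * j))
    (Finset.mem_univ 0), ← Finset.mul_prod_erase Finset.univ
      (fun j : ZMod p => ∏ i : ZMod p, f j i) (Finset.mem_univ 0)]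
  have h1 : ∏ j ∈ Finset.univ.erase (0 : ZMod p), ∏ i : ZMod p, f j (i * j) =
      ∏ j ∈ Finset.univ.erase (0 : ZMod p), ∏ i : ZMod p, f j i :=
    Finset.prod_congr rfl fun j hj' => hj j (Finset.ne_of_mem_erase hj')
  rw [h1, h0]
  simp only [mul_comm, mul_left_comm]

private theorem mem_of_coprime_pow {G : Type*} [Group G] {H : Subgroup G} {x : G} {a b : ℕ}
    (hab : Nat.Coprime a b) (ha : x ^ a ∈ H) (hb : x ^ b ∈ H) : x ∈ H := by
  have h1 : IsCoprime (a : ℤ) (b : ℤ) := Nat.isCoprime_iff_coprime.2 hab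
  obtain ⟨u, v, huv⟩ := h1
  have h2 : x = (x ^ a) ^ u * (x ^ b) ^ v := by
    rw [← zpow_natCast, ← zpow_natCast, ← zpow_mul, ← zpow_mul, ← zpow_add, mul_comm (a : ℤ),
      mul_comm (b : ℤ), huv, zpow_one]
  rw [h2]
  exact H.mul_mem (H.zpow_mem ha u) (H.zpow_mem hb v)

/-- adjoining one element -/
private theorem hyp_cyc {B : Type*} [Group B] [Finite B] {p : ℕ} (hp : p.Prime) {A K U : Subgroup B}
    (hKU : K ≤ U) (hUA : U ≤ A) (hAA : ∀ a ∈ A, ∀ b ∈ A, a * b * a⁻¹ * b⁻¹ ∈ K)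
    (hexp : ∀ a ∈ A, a ^ p ∈ K) {γ : B} (hγ : γ ∈ A) (hγU : γ ∉ U) (hg : U ⊔ zpowers γ = A) :
    U.relIndex A = p := by
  have : Fact p.Prime := ⟨hp⟩
  have hn : (U.subgroupOf A).Normal := by
    constructor
    intro n hn g
    rw [mem_subgroupOf] at hn ⊢
    have h1 := hAA g g.2 n n.2
    have h2 : ((g * n * g⁻¹ : A) : B) = (g * n * (g : B)⁻¹ * (n : B)⁻¹) * n := by
      push_cast; group
    rw [h2]
    exact U.mul_mem (hKU h1) hn
  have hgA : zpowers γ ≤ A := by
    rw [zpowers_le]; exact hγ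
  let x : A ⧸ U.subgroupOf A := QuotientGroup.mk ⟨γ, hγ⟩
  have hx1 : x ≠ 1 := by
    intro h
    rw [QuotientGroup.eq_one_iff, mem_subgroupOf] at h
    exact hγU h
  have hxp : x ^ p = 1 := by
    show (QuotientGroup.mk ((⟨γ, hγ⟩ : A) ^ p) : A ⧸ U.subgroupOf A) = 1
    rw [QuotientGroup.eq_one_iff, mem_subgroupOf]
    exact hKU (hexp γ hγ)
  have hord : orderOf x = p := orderOf_eq_prime hxp hx1
  have htop : zpowers x = ⊤ := by
    rw [eq_top_iff]
    intro y _
    obtain ⟨a, rfl⟩ := QuotientGroup.mk_surjective y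
    have h3 : (U.subgroupOf A) ⊔ zpowers (⟨γ, hγ⟩ : A) = ⊤ := by
      have h4 : (U.subgroupOf A) ⊔ (zpowers γ).subgroupOf A = ⊤ := by
        rw [← subgroupOf_sup hUA hgA, hg, subgroupOf_self]
      have h5 : (zpowers γ).subgroupOf A = zpowers (⟨γ, hγ⟩ : A) := by
        ext z
        rw [mem_subgroupOf, mem_zpowers_iff, mem_zpowers_iff]
        constructor
        · rintro ⟨k, hk⟩
          exact ⟨k, Subtype.ext (by rw [SubgroupClass.coe_zpow]; exact hk)⟩
        · rintro ⟨k, rfl⟩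
          exact ⟨k, by rw [SubgroupClass.coe_zpow]⟩
      rwa [h5] at h4
    have h6 : a ∈ (U.subgroupOf A) ⊔ zpowers (⟨γ, hγ⟩ : A) := by rw [h3]; trivial
    obtain ⟨u, hu, z, hz, rfl⟩ := Subgroup.mem_sup_of_normal_left.1 h6
    obtain ⟨k, rfl⟩ := mem_zpowers_iff.1 hz
    rw [mem_zpowers_iff]
    refine ⟨k, ?_⟩
    show (QuotientGroup.mk ((⟨γ, hγ⟩ : A) ^ k) : A ⧸ U.subgroupOf A) = QuotientGroup.mk (u * _)
    rw [QuotientGroup.mk_mul, (QuotientGroup.eq_one_iff u).2 hu, one_mul]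
  have h7 : Nat.card (A ⧸ U.subgroupOf A) = p := by
    rw [← hord, ← Nat.card_zpowers, htop, Subgroup.card_top]
  exact h7

theorem hypG {B M : Type*} [Group B] [Finite B] [CommGroup M] [Finite M] [MulDistribMulAction B M]
    {p : ℕ} (hp : p.Prime) (A K : Subgroup B) (hKA : K ≤ A) (hK : ∀ k ∈ K, ∀ m : M, k • m = m)
    (hAA : ∀ a ∈ A, ∀ b ∈ A, a * b * a⁻¹ * b⁻¹ ∈ K) (hexp : ∀ a ∈ A, a ^ p ∈ K)
    (hc : ¬ p ∣ Nat.card M) (hfix : ∀ m : M, (∀ a ∈ A, a • m = m) → m = 1) :
    (⨆ U ∈ Hyp K A p, Fx M U) = ⊤ := by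
  classical
  have : Fact p.Prime := ⟨hp⟩
  set N : Subgroup M := ⨆ U ∈ Hyp K A p, Fx M U with hN
  have hcomm : ∀ a ∈ A, ∀ b ∈ A, ∀ m : M, a • b • m = b • a • m := by
    intro a ha b hb m
    have h1 := hK _ (hAA a ha b hb) (b • a • m)
    rw [smul_smul, smul_smul] at h1
    have h2 : a * b * a⁻¹ * b⁻¹ * b * a = a * b := by group
    rw [smul_smul, ← h2, h1]
  have hfx : ∀ (U : Subgroup B) (m : M), m ∈ Fx M U ↔ U ≤ MulAction.stabilizer B m := by
    intro U m
    rw [mem_fx]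
    exact Iff.rfl
  have key : ∀ U : Subgroup B, K ≤ U → U ≤ A → Fx M U ≤ N := by
    intro U
    induction U using WellFoundedGT.induction with
    | ind U ih =>
    intro hKU hUA
    by_cases hU : U = A
    · intro m hm
      have h1 : m = 1 := hfix m fun a ha => hm a (by rw [hU]; exact ha)
      rw [h1]
      exact one_mem _
    obtain ⟨γ, hγ, hγU⟩ := SetLike.exists_of_lt (lt_of_le_of_ne hUA hU)
    have hgA : ∀ {x : B}, x ∈ A → U ⊔ zpowers x ≤ A := fun {x} hx =>
      sup_le hUA (by rw [zpowers_le]; exact hx)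
    by_cases hg : U ⊔ zpowers γ = A
    · have h1 : U ∈ Hyp K A p := ⟨hKU, hUA, hyp_cyc hp hKU hUA hAA hexp hγ hγU hg⟩
      exact le_iSup₂ (f := fun U (_ : U ∈ Hyp K A p) => Fx M U) U h1
    obtain ⟨δ, hδ, hδU⟩ := SetLike.exists_of_lt (lt_of_le_of_ne (hgA hγ) hg)
    -- subgroups with one more element
    have hstep : ∀ x ∈ A, x ∉ U → ∀ m : M, m ∈ Fx M U → x • m = m → m ∈ N := by
      intro x hx hxU m hm hxm
      have hlt : U < U ⊔ zpowers x := by
        refine lt_of_le_of_ne le_sup_left fun he => hxU ?_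
        rw [he]
        exact mem_sup_right (mem_zpowers x)
      refine ih (U ⊔ zpowers x) hlt (hKU.trans le_sup_left) (hgA hx) ?_
      rw [hfx]
      refine sup_le ((hfx U m).1 hm) ?_
      rw [zpowers_le]
      exact hxm
    intro m hm
    let T : B →* MulAut M := MulDistribMulAction.toMulAut B M
    have hT : ∀ (b : B) (x : M), T b x = b • x := fun _ _ => rfl
    have hTp : ∀ a ∈ A, T a ^ p = 1 := by
      intro a ha
      rw [← map_pow]
      ext x
      exact hK _ (hexp a ha) x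
    have hTc : ∀ a ∈ A, ∀ b ∈ A, Commute (T a) (T b) := by
      intro a ha b hb
      ext x
      exact hcomm a ha b hb x
    let f : ZMod p → ZMod p → M := fun i j => (T γ ^ i.val * T δ ^ j.val) m
    have hf00 : f 0 0 = m := by simp [f]
    have hγ1 : T γ = T γ ^ (1 : ZMod p).val := by
      rw [ZMod.val_one, pow_one]
    have hδ1 : T δ = T δ ^ (1 : ZMod p).val := by
      rw [ZMod.val_one, pow_one]
    have hgd := hTc γ hγ δ hδ
    have hfγ : ∀ i j, γ • f i j = f (1 + i) j := by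
      intro i j
      show (T γ * (T γ ^ i.val * T δ ^ j.val)) m = (T γ ^ (1 + i).val * T δ ^ j.val) m
      rw [pw_add (hTp γ hγ), ← hγ1, mul_assoc]
    have hfδ : ∀ i j (k : ZMod p), (δ ^ k.val) • f i j = f i (k + j) := by
      intro i j k
      have h1 : T (δ ^ k.val) = T δ ^ k.val := map_pow T δ _
      show (T (δ ^ k.val) * (T γ ^ i.val * T δ ^ j.val)) m = (T γ ^ i.val * T δ ^ (k + j).val) m
      rw [h1, pw_add (hTp δ hδ), ← mul_assoc, ← mul_assoc,
        ((hgd.pow_pow i.val k.val).eq)]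
    have hfδ1 : ∀ i j, δ • f i j = f i (1 + j) := by
      intro i j
      have := hfδ i j 1
      rwa [ZMod.val_one, pow_one] at this
    have hfU : ∀ i j, f i j ∈ Fx M U := by
      intro i j u hu
      have hcu : ∀ a ∈ A, Commute (T u) (T a) := fun a ha => hTc u (hUA hu) a ha
      show (T u * (T γ ^ i.val * T δ ^ j.val)) m = (T γ ^ i.val * T δ ^ j.val) m
      rw [((hcu γ hγ).pow_right i.val).mul_right ((hcu δ hδ).pow_right j.val) |>.eq]
      show (T γ ^ i.val * T δ ^ j.val) (u • m) = _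
      rw [hm u hu]
    -- the three kinds of products
    have hE1 : ∀ i : ZMod p, ∏ j : ZMod p, f j (i * j) ∈ N := by
      intro i
      refine hstep (γ * δ ^ i.val) (A.mul_mem hγ (A.pow_mem hδ _)) ?_ _
        (Subgroup.prod_mem _ fun j _ => hfU j (i * j)) ?_
      · intro hcon
        by_cases hi : i = 0
        · rw [hi, ZMod.val_zero, pow_zero, mul_one] at hcon
          exact hγU hcon
        · apply hδU
          have h1 : δ ^ i.val ∈ U ⊔ zpowers γ := by
            have h2 : δ ^ i.val = γ⁻¹ * (γ * δ ^ i.val) := by group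
            rw [h2]
            exact mul_mem (inv_mem (mem_sup_right (mem_zpowers γ))) (mem_sup_left hcon)
          have h3 : δ ^ p ∈ U ⊔ zpowers γ := mem_sup_left (hKU (hexp δ hδ))
          refine mem_of_coprime_pow ?_ h1 h3
          exact ZMod.val_coe_unit_coprime (Units.mk0 i hi)
      · rw [Finset.smul_prod', ← Equiv.prod_comp (Equiv.addLeft (1 : ZMod p))
          (fun j => f j (i * j))]
        refine Finset.prod_congr rfl fun j _ => ?_
        rw [mul_smul, hfδ, hfγ]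
        show f (1 + j) (i + i * j) = f (1 + j) (i * (1 + j))
        congr 1
        ring
    have hE2 : ∏ j : ZMod p, f 0 j ∈ N := by
      refine hstep δ hδ (fun h => hδU (mem_sup_left h)) _
        (Subgroup.prod_mem _ fun j _ => hfU 0 j) ?_
      rw [Finset.smul_prod', ← Equiv.prod_comp (Equiv.addLeft (1 : ZMod p)) (fun j => f 0 j)]
      exact Finset.prod_congr rfl fun j _ => hfδ1 0 j
    have hE3 : ∏ j : ZMod p, ∏ i : ZMod p, f j i ∈ N := by
      refine hstep δ hδ (fun h => hδU (mem_sup_left h)) _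
        (Subgroup.prod_mem _ fun j _ => Subgroup.prod_mem _ fun i _ => hfU j i) ?_
      rw [Finset.smul_prod']
      refine Finset.prod_congr rfl fun j _ => ?_
      rw [Finset.smul_prod', ← Equiv.prod_comp (Equiv.addLeft (1 : ZMod p)) (fun i => f j i)]
      exact Finset.prod_congr rfl fun i _ => hfδ1 j i
    have hid := hyp_ident f
    rw [hf00] at hid
    have hmp : m ^ p ∈ N := by
      have h1 : m ^ p = ((∏ i : ZMod p, ∏ j : ZMod p, f j (i * j)) * ∏ j : ZMod p, f 0 j) *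
          (∏ j : ZMod p, ∏ i : ZMod p, f j i)⁻¹ := by
        rw [hid, mul_inv_cancel_right]
      rw [h1]
      exact N.mul_mem (N.mul_mem (Subgroup.prod_mem _ fun i _ => hE1 i) hE2) (N.inv_mem hE3)
    have hcop : Nat.Coprime p (orderOf m) :=
      Nat.Coprime.coprime_dvd_right (orderOf_dvd_natCard m) ((Nat.Prime.coprime_iff_not_dvd hp).2 hc)
    obtain ⟨t, ht⟩ := exists_pow_eq_self_of_coprime hcop
    rw [← ht]
    exact N.pow_mem hmp t
  rw [eq_top_iff]
  intro m _
  exact key K le_rfl hKA fun k hk => hK k hk m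

end Pool.Agent.Work.MP_b44cb1_al
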