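import Pool.Agent.Work.MP_b44cb1_al.Full.Kit.HypI
import Pool.Agent.Work.MP_b44cb1_al.Full.Kit.HypG
import Pool.Agent.Work.MP_b44cb1_al.Full.Kit.FixN

/-!
# K12 HypDec : hyperplane decomposition of `P / F`  (size M)

`A` a `p`-group acting on the `r`-group `P`, `K ≤ A` centralises `P`, `A / K` elementary abelian, `P / F` abelian, `C_P(A) ≤ F`.

PROOF. The group `A` (as a type) acts on `M = P ⧸ F.subgroupOf P` by `secAct` (`KDefs`); `M` is a finite abelian `r`-group, `p ∤ |M|`.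
For `U ≤ A`: `m = [x]` is fixed by `U` iff `⁅u, x⁆ ∈ F` for all `u ∈ U` (`sec_fix_iff`) iff (`liftN`, `U` is an `r'`-group) `x ∈ (P ⊓ centralizer U) ⊔ F`.
So `Fx M U` is the image of `P ⊓ centralizer U`. Then `hypG`, `hypI` for the group `A`, with `A := ⊤`, `K := K.subgroupOf A` (`Hyp K A p` in `G` corresponds to
`Hyp (K.subgroupOf A) ⊤ p` by `subgroupOf` / `map subtype`).
-/

set_option autoImplicit false

namespace Pool.Agent.Work.MP_b44cb1_al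

open Subgroup
open scoped commutatorElement

variable {G : Type*} [Group G]

private theorem hd_comm {W F : Subgroup G} (hab : ⁅W, W⁆ ≤ F) [(F.subgroupOf W).Normal]
    (x y : W ⧸ F.subgroupOf W) : x * y = y * x := by
  obtain ⟨x, rfl⟩ := QuotientGroup.mk_surjective x
  obtain ⟨y, rfl⟩ := QuotientGroup.mk_surjective y
  rw [← QuotientGroup.mk_mul, ← QuotientGroup.mk_mul, QuotientGroup.eq, mem_subgroupOf]
  have h1 : (((x * y)⁻¹ * (y * x) : W) : G) = ⁅(y : G)⁻¹, (x : G)⁻¹⁆ := by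
    show ((x : G) * y)⁻¹ * (y * x) = (y : G)⁻¹ * (x : G)⁻¹ * ((y : G)⁻¹)⁻¹ * ((x : G)⁻¹)⁻¹
    group
  rw [h1]
  exact hab (commutator_mem_commutator (inv_mem y.2) (inv_mem x.2))

/-- Preimage in `G` of a subgroup of the section. -/
private def hdUp {P F : Subgroup G} [(F.subgroupOf P).Normal]
    (Q : Subgroup (P ⧸ F.subgroupOf P)) : Subgroup G :=
  (Q.comap (QuotientGroup.mk' (F.subgroupOf P))).map P.subtype

private theorem mem_hdUp {P F : Subgroup G} [(F.subgroupOf P).Normal]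
    {Q : Subgroup (P ⧸ F.subgroupOf P)} {x : G} :
    x ∈ hdUp Q ↔ ∃ h : x ∈ P, (QuotientGroup.mk ⟨x, h⟩ : P ⧸ F.subgroupOf P) ∈ Q := by
  constructor
  · rintro ⟨y, hy, rfl⟩
    exact ⟨y.2, hy⟩
  · rintro ⟨h, hx⟩
    exact ⟨⟨x, h⟩, hx, rfl⟩

private theorem le_hdUp {P F : Subgroup G} [(F.subgroupOf P).Normal] (hFP : F ≤ P)
    (Q : Subgroup (P ⧸ F.subgroupOf P)) : F ≤ hdUp Q := fun x hx => by
  rw [mem_hdUp]
  refine ⟨hFP hx, ?_⟩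
  rw [(QuotientGroup.eq_one_iff (⟨x, hFP hx⟩ : P)).2 (mem_subgroupOf.2 hx)]
  exact one_mem Q

private theorem hd_not_dvd [Finite G] {p r : ℕ} (hp : p.Prime) (hr : r.Prime) (hpr : p ≠ r)
    {A : Type*} [Group A] [Finite A] (hA : IsPGroup p A) : ¬ r ∣ Nat.card A := by
  haveI : Fact p.Prime := ⟨hp⟩
  obtain ⟨n, hn⟩ := IsPGroup.iff_card.1 hA
  rw [hn]
  intro h
  exact hpr ((Nat.prime_dvd_prime_iff_eq hr hp).1 (hr.dvd_of_dvd_pow h)).symm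

private theorem hd_hyp {K A U : Subgroup G} {p : ℕ} (h : U ∈ Hyp K A p) :
    U.subgroupOf A ∈ Hyp (K.subgroupOf A) (⊤ : Subgroup A) p := by
  obtain ⟨h1, h2, h3⟩ := h
  refine ⟨comap_mono h1, le_top, ?_⟩
  rw [relIndex_top_right]
  exact h3

private theorem hd_hyp' {K A : Subgroup G} {U : Subgroup A} {p : ℕ} (hKA : K ≤ A)
    (h : U ∈ Hyp (K.subgroupOf A) (⊤ : Subgroup A) p) : U.map A.subtype ∈ Hyp K A p := by
  obtain ⟨h1, h2, h3⟩ := h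
  refine ⟨fun x hx => ⟨⟨x, hKA hx⟩, h1 (mem_subgroupOf.2 hx), rfl⟩, ?_, ?_⟩
  · rintro _ ⟨x, _, rfl⟩
    exact x.2
  · rw [relIndex_top_right] at h3
    have h4 : (U.map A.subtype).subgroupOf A = U :=
      comap_map_eq_self_of_injective A.subtype_injective U
    show ((U.map A.subtype).subgroupOf A).index = p
    rw [h4, h3]

theorem hyp_gen [Finite G] {p r : ℕ} (hp : p.Prime) (hr : r.Prime) (hpr : p ≠ r)
    (A K P F : Subgroup G) (hA : IsPGroup p A) (hP : IsPGroup r P) (hKA : K ≤ A) (hKP : Cz K P)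
    (hAA : ⁅A, A⁆ ≤ K) (hexp : ∀ a ∈ A, a ^ p ∈ K) (hFP : F ≤ P) (hPF : Nz P F) (hAP : Nz A P)
    (hAF : Nz A F) (hab : ⁅P, P⁆ ≤ F) (hfix : P ⊓ centralizer (A : Set G) ≤ F) :
    P ≤ (⨆ U ∈ Hyp K A p, P ⊓ centralizer (U : Set G)) ⊔ F := by
  haveI hn : (F.subgroupOf P).Normal := hPF.subgroupOf_normal
  letI : CommGroup (P ⧸ F.subgroupOf P) :=
    { (inferInstance : Group (P ⧸ F.subgroupOf P)) with mul_comm := hd_comm hab }
  letI : MulDistribMulAction A (P ⧸ F.subgroupOf P) := secAct hAP hAF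
  have hrA : ¬ r ∣ Nat.card A := hd_not_dvd (G := G) hp hr hpr hA
  have hK' : ∀ k ∈ K.subgroupOf A, ∀ m : P ⧸ F.subgroupOf P, k • m = m := by
    intro k hk m
    obtain ⟨x, rfl⟩ := QuotientGroup.mk_surjective m
    refine (sec_fix_iff hAP hAF hPF k x).2 ?_
    rw [(commutatorElement_eq_one_iff_mul_comm).2 (hKP k (mem_subgroupOf.1 hk) x x.2)]
    exact one_mem F
  have hAA' : ∀ a ∈ (⊤ : Subgroup A), ∀ b ∈ (⊤ : Subgroup A), a * b * a⁻¹ * b⁻¹ ∈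
      K.subgroupOf A := fun a _ b _ =>
    mem_subgroupOf.2 (hAA (commutator_mem_commutator a.2 b.2))
  have hexp' : ∀ a ∈ (⊤ : Subgroup A), a ^ p ∈ K.subgroupOf A := fun a _ =>
    mem_subgroupOf.2 (hexp a a.2)
  have hc' : ¬ p ∣ Nat.card (P ⧸ F.subgroupOf P) :=
    hd_not_dvd (G := G) hr hp hpr.symm (hP.to_quotient (F.subgroupOf P))
  have hfix' : ∀ m : P ⧸ F.subgroupOf P, (∀ a ∈ (⊤ : Subgroup A), a • m = m) → m = 1 := by
    intro m hm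
    obtain ⟨x, rfl⟩ := QuotientGroup.mk_surjective m
    have h1 : ∀ a ∈ A, ⁅a, (x : G)⁆ ∈ F := fun a ha =>
      (sec_fix_iff hAP hAF hPF ⟨a, ha⟩ x).1 (hm ⟨a, ha⟩ (mem_top _))
    obtain ⟨y, hy, hcy, hxy⟩ := liftN hr P F A hP hFP hPF hAP hAF hrA x.2 h1
    have h2 : y ∈ F := hfix ⟨hy, mem_centralizer_iff.2 hcy⟩
    rw [QuotientGroup.eq_one_iff, mem_subgroupOf]
    have h3 : y * ((x : G)⁻¹ * y)⁻¹ ∈ F := mul_mem h2 (inv_mem hxy)
    have h4 : y * ((x : G)⁻¹ * y)⁻¹ = x := by group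
    rwa [h4] at h3
  have key := hypG hp (⊤ : Subgroup A) (K.subgroupOf A) le_top hK' hAA' hexp' hc' hfix'
  obtain ⟨N, hN⟩ : ∃ N, N = (⨆ U ∈ Hyp K A p, P ⊓ centralizer (U : Set G)) ⊔ F := ⟨_, rfl⟩
  rw [← hN]
  have hFN : F ≤ N := hN ▸ le_sup_right
  have h1 : (⨆ U ∈ Hyp (K.subgroupOf A) (⊤ : Subgroup A) p, Fx (P ⧸ F.subgroupOf P) U) ≤
      (N.subgroupOf P).map (QuotientGroup.mk' (F.subgroupOf P)) := by
    refine iSup₂_le fun U hU m hm => ?_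
    obtain ⟨x, rfl⟩ := QuotientGroup.mk_surjective m
    have hUA : U.map A.subtype ≤ A := by
      rintro _ ⟨x, _, rfl⟩
      exact x.2
    have h1 : ∀ a ∈ U.map A.subtype, ⁅a, (x : G)⁆ ∈ F := by
      rintro _ ⟨a, ha, rfl⟩
      exact (sec_fix_iff hAP hAF hPF a x).1 (hm a ha)
    obtain ⟨y, hy, hcy, hxy⟩ := liftN hr P F (U.map A.subtype) hP hFP hPF
      (fun t ht => hAP t (hUA ht)) (fun t ht => hAF t (hUA ht))
      (fun h => hrA (h.trans (card_dvd_of_le hUA))) x.2 h1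
    have h2 : y ∈ N := by
      rw [hN]
      refine mem_sup_left ?_
      have h3 : P ⊓ centralizer ((U.map A.subtype : Subgroup G) : Set G) ≤
          ⨆ U ∈ Hyp K A p, P ⊓ centralizer (U : Set G) :=
        le_iSup₂_of_le (U.map A.subtype) (hd_hyp' hKA hU) le_rfl
      exact h3 ⟨hy, mem_centralizer_iff.2 hcy⟩
    have h3 : y * ((x : G)⁻¹ * y)⁻¹ ∈ N := mul_mem h2 (inv_mem (hFN hxy))
    have h4 : y * ((x : G)⁻¹ * y)⁻¹ = x := by group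
    rw [h4] at h3
    exact ⟨x, mem_subgroupOf.2 h3, rfl⟩
  rw [key] at h1
  intro x hx
  obtain ⟨y, hy, hyx⟩ := h1 (mem_top (QuotientGroup.mk ⟨x, hx⟩ : P ⧸ F.subgroupOf P))
  have h2 : (y : G)⁻¹ * x ∈ F := mem_subgroupOf.1 (QuotientGroup.eq.1 hyx)
  have h3 := mul_mem (mem_subgroupOf.1 hy) (hFN h2)
  rwa [mul_inv_cancel_left] at h3

theorem hyp_ind [Finite G] {p r : ℕ} (hp : p.Prime) (hr : r.Prime) (hpr : p ≠ r)
    (A K P F : Subgroup G) (hA : IsPGroup p A) (hP : IsPGroup r P) (hKA : K ≤ A) (hKP : Cz K P)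
    (hAA : ⁅A, A⁆ ≤ K) (hexp : ∀ a ∈ A, a ^ p ∈ K) (hFP : F ≤ P) (hPF : Nz P F) (hAP : Nz A P)
    (hAF : Nz A F) (hab : ⁅P, P⁆ ≤ F) (hfix : P ⊓ centralizer (A : Set G) ≤ F)
    (U₀ : Subgroup G) (hU₀ : U₀ ∈ Hyp K A p) (𝒮 : Set (Subgroup G))
    (h𝒮 : ∀ U ∈ 𝒮, U ∈ Hyp K A p ∧ U ≠ U₀) :
    ((P ⊓ centralizer (U₀ : Set G)) ⊔ F) ⊓
      ((⨆ U ∈ 𝒮, P ⊓ centralizer (U : Set G)) ⊔ F) ≤ F := by
  haveI hn : (F.subgroupOf P).Normal := hPF.subgroupOf_normal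
  letI : CommGroup (P ⧸ F.subgroupOf P) :=
    { (inferInstance : Group (P ⧸ F.subgroupOf P)) with mul_comm := hd_comm hab }
  letI : MulDistribMulAction A (P ⧸ F.subgroupOf P) := secAct hAP hAF
  have hrA : ¬ r ∣ Nat.card A := hd_not_dvd (G := G) hp hr hpr hA
  have hK' : ∀ k ∈ K.subgroupOf A, ∀ m : P ⧸ F.subgroupOf P, k • m = m := by
    intro k hk m
    obtain ⟨x, rfl⟩ := QuotientGroup.mk_surjective m
    refine (sec_fix_iff hAP hAF hPF k x).2 ?_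
    rw [(commutatorElement_eq_one_iff_mul_comm).2 (hKP k (mem_subgroupOf.1 hk) x x.2)]
    exact one_mem F
  have hAA' : ∀ a ∈ (⊤ : Subgroup A), ∀ b ∈ (⊤ : Subgroup A), a * b * a⁻¹ * b⁻¹ ∈
      K.subgroupOf A := fun a _ b _ =>
    mem_subgroupOf.2 (hAA (commutator_mem_commutator a.2 b.2))
  have hexp' : ∀ a ∈ (⊤ : Subgroup A), a ^ p ∈ K.subgroupOf A := fun a _ =>
    mem_subgroupOf.2 (hexp a a.2)
  have hc' : ¬ p ∣ Nat.card (P ⧸ F.subgroupOf P) :=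
    hd_not_dvd (G := G) hr hp hpr.symm (hP.to_quotient (F.subgroupOf P))
  have hfix' : ∀ m : P ⧸ F.subgroupOf P, (∀ a ∈ (⊤ : Subgroup A), a • m = m) → m = 1 := by
    intro m hm
    obtain ⟨x, rfl⟩ := QuotientGroup.mk_surjective m
    have h1 : ∀ a ∈ A, ⁅a, (x : G)⁆ ∈ F := fun a ha =>
      (sec_fix_iff hAP hAF hPF ⟨a, ha⟩ x).1 (hm ⟨a, ha⟩ (mem_top _))
    obtain ⟨y, hy, hcy, hxy⟩ := liftN hr P F A hP hFP hPF hAP hAF hrA x.2 h1
    have h2 : y ∈ F := hfix ⟨hy, mem_centralizer_iff.2 hcy⟩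
    rw [QuotientGroup.eq_one_iff, mem_subgroupOf]
    have h3 : y * ((x : G)⁻¹ * y)⁻¹ ∈ F := mul_mem h2 (inv_mem hxy)
    have h4 : y * ((x : G)⁻¹ * y)⁻¹ = x := by group
    rwa [h4] at h3
  obtain ⟨𝒯, h𝒯d⟩ : ∃ 𝒯 : Set (Subgroup A), 𝒯 = (fun U : Subgroup G => U.subgroupOf A) '' 𝒮 :=
    ⟨_, rfl⟩
  have key := hypI hp (⊤ : Subgroup A) (K.subgroupOf A) le_top hK' hAA' hexp' hc' hfix'
    (U₀.subgroupOf A) (hd_hyp hU₀) 𝒯 (by
      rw [h𝒯d]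
      rintro _ ⟨U, hU, rfl⟩
      refine ⟨hd_hyp (h𝒮 U hU).1, fun h => (h𝒮 U hU).2 ?_⟩
      have h5 : U.subgroupOf A = U₀.subgroupOf A := h
      rw [subgroupOf_inj, inf_eq_left.2 (h𝒮 U hU).1.2.1, inf_eq_left.2 hU₀.2.1] at h5
      exact h5)
  have hcent : ∀ U : Subgroup G, P ⊓ centralizer (U : Set G) ≤
      hdUp (Fx (P ⧸ F.subgroupOf P) (U.subgroupOf A)) := by
    rintro U x ⟨hx, hxU⟩
    rw [mem_hdUp]
    refine ⟨hx, fun a ha => ?_⟩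
    refine (sec_fix_iff hAP hAF hPF a ⟨x, hx⟩).2 ?_
    rw [(commutatorElement_eq_one_iff_mul_comm).2
      (mem_centralizer_iff.1 hxU a (mem_subgroupOf.1 ha))]
    exact one_mem F
  rintro x ⟨hx1, hx2⟩
  have h1 : x ∈ hdUp (Fx (P ⧸ F.subgroupOf P) (U₀.subgroupOf A)) :=
    (sup_le (hcent U₀) (le_hdUp hFP _)) hx1
  have h2 : x ∈ hdUp (⨆ U ∈ 𝒯, Fx (P ⧸ F.subgroupOf P) U) := by
    refine (sup_le (iSup₂_le fun U hU => (hcent U).trans ?_) (le_hdUp hFP _)) hx2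
    refine map_mono (comap_mono ?_)
    have h3 : U.subgroupOf A ∈ 𝒯 := by
      rw [h𝒯d]
      exact ⟨U, hU, rfl⟩
    exact le_iSup₂_of_le (U.subgroupOf A) h3 le_rfl
  obtain ⟨hxP, h1⟩ := mem_hdUp.1 h1
  obtain ⟨_, h2⟩ := mem_hdUp.1 h2
  have h3 : (QuotientGroup.mk ⟨x, hxP⟩ : P ⧸ F.subgroupOf P) ∈
      Fx (P ⧸ F.subgroupOf P) (U₀.subgroupOf A) ⊓ (⨆ U ∈ 𝒯, Fx (P ⧸ F.subgroupOf P) U) :=
    ⟨h1, h2⟩
  rw [key, mem_bot, QuotientGroup.eq_one_iff, mem_subgroupOf] at h3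
  exact h3

end Pool.Agent.Work.MP_b44cb1_al
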