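import Pool.Agent.Work.MP_b44cb1_al.Full.Kit.KDefs

/-!
# K12a hypI : independence of the fixed points of hyperplanes  (size M)

PROOF. Let `U₀ ∈ Hyp K A p`. For `m ∈ M` put `N m = ∏_{u ∈ U₀} u • m` (a homomorphism `M → M`, `M` abelian). If
`U ∈ Hyp K A p`, `U ≠ U₀`, and `m ∈ Fx M U`, then `N m` is fixed by `U₀` (reindexing) and by `U`: for
`v ∈ U`, `u ∈ U₀`, `v u = (v u v⁻¹ u⁻¹) u v` with the commutator in `K`, which acts trivially, so `v • u • m = u • v • m`.
`U ⊔ U₀ = A` (both have prime index `p` in `A`, are different, and contain `K ⊇ [A,A]`, so are normal in `A`), so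
`N m` is fixed by `A` and `N m = 1` by `hfix`. Hence `N` is trivial on `⨆ U ∈ 𝒮, Fx M U`. If `m ∈ Fx M U₀` lies in this supremum then
`1 = N m = m ^ |U₀|`. Now `|U₀|` need not be prime to `|M|` (`K` is arbitrary), so use coset representatives: replace
`N m` by `∏_{c ∈ U₀ / K} c • m` (`K` acts trivially and is normal in `U₀`); `|U₀ / K|` is a power of `p` (exponent `p`), prime to
`|M|`, so `m = 1`. (The quotient of `U₀` by `K`, or the finite set of automorphisms `u • ·`, `u ∈ U₀`, of `M`: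
the range `Γ` of `U₀` in `MulAut M`, a group of exponent `p`, hence of order a power of `p`; `N m = ∏ γ ∈ Γ, γ m`.)
-/

set_option autoImplicit false

namespace Pool.Agent.Work.MP_b44cb1_al

open Subgroup

theorem hypI {B M : Type*} [Group B] [Finite B] [CommGroup M] [Finite M] [MulDistribMulAction B M]
    {p : ℕ} (hp : p.Prime) (A K : Subgroup B) (hKA : K ≤ A) (hK : ∀ k ∈ K, ∀ m : M, k • m = m)
    (hAA : ∀ a ∈ A, ∀ b ∈ A, a * b * a⁻¹ * b⁻¹ ∈ K) (hexp : ∀ a ∈ A, a ^ p ∈ K)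
    (hc : ¬ p ∣ Nat.card M) (hfix : ∀ m : M, (∀ a ∈ A, a • m = m) → m = 1)
    (U₀ : Subgroup B) (hU₀ : U₀ ∈ Hyp K A p) (𝒮 : Set (Subgroup B))
    (h𝒮 : ∀ U ∈ 𝒮, U ∈ Hyp K A p ∧ U ≠ U₀) :
    Fx M U₀ ⊓ (⨆ U ∈ 𝒮, Fx M U) = ⊥ := by
  classical
  have := Fact.mk hp
  let τ : B →* MulAut M := MulDistribMulAction.toMulAut B M
  have hτ : ∀ (b : B) (m : M), τ b m = b • m := fun b m => rfl
  let Γ : Subgroup (MulAut M) := U₀.map τ
  have hfin : Finite Γ := by
    have hs : Function.Surjective (fun u : U₀ => (⟨τ u, mem_map_of_mem τ u.2⟩ : Γ)) := by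
      rintro ⟨_, u, hu, rfl⟩
      exact ⟨⟨u, hu⟩, rfl⟩
    exact Finite.of_surjective _ hs
  have : Fintype Γ := Fintype.ofFinite _
  let N : M →* M :=
    { toFun := fun m => ∏ γ : Γ, (γ : MulAut M) m
      map_one' := by simp
      map_mul' := fun a b => by simp [Finset.prod_mul_distrib] }
  have hN : ∀ m, N m = ∏ γ : Γ, (γ : MulAut M) m := fun m => rfl
  have hΓp : IsPGroup p Γ := by
    rintro ⟨_, u, hu, rfl⟩
    refine ⟨1, Subtype.ext ?_⟩
    change (τ u) ^ (p ^ 1) = 1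
    rw [pow_one, ← map_pow]
    ext m
    exact hK _ (hexp u (hU₀.2.1 hu)) m
  obtain ⟨k, hk⟩ := IsPGroup.iff_card.1 hΓp
  have hN1 : ∀ m ∈ Fx M U₀, N m = m ^ (p ^ k) := by
    intro m hm
    rw [hN]
    have h1 : ∀ γ ∈ (Finset.univ : Finset Γ), (γ : MulAut M) m = m := by
      rintro ⟨_, u, hu, rfl⟩ -
      exact hm u hu
    rw [Finset.prod_congr rfl h1, Finset.prod_const, Finset.card_univ, ← Nat.card_eq_fintype_card,
      hk]
  have hN2 : ∀ U ∈ 𝒮, Fx M U ≤ N.ker := by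
    intro U hU m hm
    rw [MonoidHom.mem_ker]
    obtain ⟨⟨hKU, hUA, hUi⟩, hne⟩ := h𝒮 U hU
    obtain ⟨hKU₀, hU₀A, hU₀i⟩ := hU₀
    apply hfix
    -- the stabilizer of `N m`
    let S : Subgroup B := MulAction.stabilizer B (N m)
    have hS1 : U₀ ≤ S := by
      intro u hu
      change u • N m = N m
      rw [← hτ, hN, map_prod]
      refine Fintype.prod_equiv (Equiv.mulLeft (⟨τ u, mem_map_of_mem τ hu⟩ : Γ)) _ _ fun γ => ?_
      rfl
    have hS2 : U ≤ S := by
      intro v hv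
      change v • N m = N m
      rw [← hτ, hN, map_prod]
      refine Finset.prod_congr rfl ?_
      rintro ⟨_, u, hu, rfl⟩ -
      change v • (u • m) = u • m
      have h1 : v • (u • m) = (v * u * v⁻¹ * u⁻¹) • (u • (v • m)) := by
        rw [smul_smul, smul_smul, smul_smul]
        congr 1
        group
      rw [h1, hK _ (hAA v (hUA hv) u (hU₀A hu)), hm v hv]
    have hAS : A ≤ U₀ ⊔ U := by
      have h1 : U₀.relIndex (U₀ ⊔ U) * (U₀ ⊔ U).relIndex A = U₀.relIndex A :=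
        Subgroup.relIndex_mul_relIndex _ _ _ le_sup_left (sup_le hU₀A hUA)
      rw [hU₀i] at h1
      have h2 : (U₀ ⊔ U).relIndex A ∣ p := ⟨_, by rw [mul_comm]; exact h1.symm⟩
      rcases (Nat.dvd_prime hp).1 h2 with h3 | h3
      · exact Subgroup.relIndex_eq_one.1 h3
      · exfalso
        rw [h3] at h1
        have h4 : U₀.relIndex (U₀ ⊔ U) = 1 := by
          have : U₀.relIndex (U₀ ⊔ U) * p = 1 * p := by rw [h1, one_mul]
          exact Nat.eq_of_mul_eq_mul_right hp.pos this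
        have h5 : U ≤ U₀ := le_sup_right.trans (Subgroup.relIndex_eq_one.1 h4)
        have h6 : U.relIndex U₀ * U₀.relIndex A = U.relIndex A :=
          Subgroup.relIndex_mul_relIndex _ _ _ h5 hU₀A
        rw [hU₀i, hUi] at h6
        have h7 : U.relIndex U₀ = 1 := by
          have : U.relIndex U₀ * p = 1 * p := by rw [h6, one_mul]
          exact Nat.eq_of_mul_eq_mul_right hp.pos this
        exact hne (le_antisymm h5 (Subgroup.relIndex_eq_one.1 h7))
    intro a ha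
    exact (sup_le hS1 hS2) (hAS ha)
  rw [eq_bot_iff]
  rintro m ⟨hm1, hm2⟩
  have h1 : (⨆ U ∈ 𝒮, Fx M U) ≤ N.ker := iSup₂_le hN2
  have h2 : N m = 1 := MonoidHom.mem_ker.1 (h1 hm2)
  rw [hN1 m hm1] at h2
  rw [mem_bot]
  have h3 : orderOf m ∣ p ^ k := orderOf_dvd_of_pow_eq_one h2
  have h4 : orderOf m ∣ Nat.card M := orderOf_dvd_natCard m
  have h5 : Nat.Coprime (p ^ k) (Nat.card M) :=
    Nat.Coprime.pow_left k ((Nat.Prime.coprime_iff_not_dvd hp).2 hc)
  have h6 : orderOf m = 1 := Nat.eq_one_of_dvd_coprimes h5 h3 h4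
  exact orderOf_eq_one_iff.1 h6

end Pool.Agent.Work.MP_b44cb1_al
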