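import Pool.Agent.Work.MP_b44cb1_al.Full.Kit.NilPP
import Pool.Agent.Work.MP_b44cb1_al.Full.Kit.HypI
import Pool.Agent.Work.MP_b44cb1_al.Full.Kit.HypG

/-!
# Imp : irreducible modules of nilpotent groups of odd order are cyclic or imprimitive  (size M-L)

`B` nilpotent of odd order acts irreducibly on `M ≠ 1` (abelian of exponent `q`, `q ∤ |B|`).
Then the image of `B` in `MulAut M` is cyclic, or there are a normal subgroup `H` of prime index `l`, `b ∉ H`, and
an `H`-invariant subgroup `M₁` such that `M` is the internal direct product of the `b ^ i • M₁`, `i < l`.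

PROOF. Let `C` be the kernel of `B → MulAut M` and suppose that `B / C` is not cyclic. `nilpp` (for `B ⧸ C`, nilpotent of odd
order) gives a prime `p` and the preimage `E` in `B` : `C ≤ E`, `E` normal in `B`, `C.relIndex E = p ^ 2`, `x ^ p ∈ C` and commutators in `C`
for elements of `E`. `p ∤ |M|` since `|M|` is a power of `q`, `q ∤ |B|`, `p ∣ |B|`. The fixed points of `E` in `M` are `B`-invariant (`E` normal), not
all of `M` (`E ≰ C`), so trivial. By `hypG`, `hypI` (`A = E`, `K = C`) `M` is the direct product of the `Fx M U`, `U ∈ Hyp C E p`, and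
some `U₁` has `Fx M U₁ ≠ ⊥`. `b • Fx M U = Fx M (b U b⁻¹)`. Let `L = {b : b U₁ b⁻¹ = U₁}`. `L ≠ ⊤`: otherwise `Fx M U₁` is invariant, so `⊤`, `U₁ ≤ C`, but
`C.relIndex U₁ = p`. Let `H ≥ L` be a maximal subgroup of `B` (`exists_le_coatom`...); it is normal (`NormalizerCondition.normal_of_coatom`,
`Group.normalizerCondition_of_isNilpotent`) and its index is a prime `l` (`B ⧸ H` has no proper nontrivial subgroups). Choose `b ∉ H`.
`M₁ = ⨆ h ∈ H, h • Fx M U₁ = ⨆ h ∈ H, Fx M (h U₁ h⁻¹)` is `H`-invariant. `⨆ i < l, b ^ i • M₁` is `B`-invariant (`B = ⋃ b ^ i H`, `H` normal) so it is `⊤`.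
Injectivity: the hyperplanes `b ^ i h U₁ h⁻¹ b ^ (-i)` for different `i < l` are different (`L ≤ H`), so `hypI` (in the form: the `Fx M U` are independent)
gives that `∏ b ^ i • f i = 1` implies `f i = 1` for all `i`; the map is a homomorphism.
-/

set_option autoImplicit false

namespace Pool.Agent.Work.MP_b44cb1_al

open Subgroup

section aux

variable {B M : Type*} [Group B] [Group M] [MulDistribMulAction B M]

/-- the action of one element -/
private def impφ (M : Type*) [Group M] [MulDistribMulAction B M] (g : B) : M →* M :=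
  MulDistribMulAction.toMonoidHom M g

private theorem impφ_apply (g : B) (m : M) : impφ M g m = g • m := rfl

private theorem imp_map (g : B) (U : Subgroup B) : (Fx M U).map (impφ M g) = Fx M (cj g U) := by
  ext m
  constructor
  · rintro ⟨m, hm, rfl⟩
    intro u hu
    have h1 := hm _ (mem_cj.1 hu)
    show u • g • m = g • m
    rw [mul_smul, mul_smul, inv_smul_eq_iff] at h1
    exact h1
  · intro hm
    refine ⟨g⁻¹ • m, fun u hu => ?_, ?_⟩
    · have h1 : g * u * g⁻¹ ∈ cj g U := by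
        rw [mem_cj]
        have : g⁻¹ * (g * u * g⁻¹) * g = u := by group
        rw [this]
        exact hu
      have h2 := hm _ h1
      rw [mul_smul, mul_smul, ← eq_inv_smul_iff] at h2
      exact h2
    · rw [impφ_apply, smul_inv_smul]

/-- a maximal normal subgroup of a finite group has prime index if the quotient is -/
private theorem imp_prime {B : Type*} [Group B] [Finite B] (H : Subgroup B) [H.Normal]
    (hH : IsCoatom H) : (H.index).Prime := by
  classical
  have hne : Nat.card (B ⧸ H) ≠ 1 := by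
    intro h
    apply hH.1
    rw [← Subgroup.index_eq_one]
    exact h
  obtain ⟨l, hl, hdvd⟩ := Nat.exists_prime_and_dvd hne
  have : Fact l.Prime := ⟨hl⟩
  obtain ⟨x, hx⟩ := exists_prime_orderOf_dvd_card' (G := B ⧸ H) l hdvd
  obtain ⟨g, hg⟩ := QuotientGroup.mk'_surjective H x
  have hx1 : x ≠ 1 := by
    intro h
    rw [h, orderOf_one] at hx
    exact hl.one_lt.ne hx
  have hlt : H < (zpowers x).comap (QuotientGroup.mk' H) := by
    refine lt_of_le_of_ne (fun h hh => ?_) (fun h => hx1 ?_)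
    · rw [mem_comap]
      have : QuotientGroup.mk' H h = 1 := (QuotientGroup.eq_one_iff h).2 hh
      rw [this]
      exact one_mem _
    · have h1 : g ∈ (zpowers x).comap (QuotientGroup.mk' H) := by
        rw [mem_comap, hg]
        exact mem_zpowers x
      rw [← h] at h1
      rw [← hg]
      exact (QuotientGroup.eq_one_iff g).2 h1
  have htop := hH.2 _ hlt
  have hz : zpowers x = ⊤ := by
    rw [eq_top_iff]
    intro y _
    obtain ⟨g', rfl⟩ := QuotientGroup.mk'_surjective H y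
    have h1 : g' ∈ (⊤ : Subgroup B) := mem_top g'
    rw [← htop] at h1
    exact h1
  have hcard : Nat.card (B ⧸ H) = l := by
    rw [← hx, ← Nat.card_zpowers, hz, Subgroup.card_top]
  rw [Subgroup.index_eq_card, hcard]
  exact hl

end aux

theorem imp {B M : Type*} [Group B] [Finite B] [CommGroup M] [Finite M] [Nontrivial M]
    [MulDistribMulAction B M] {q : ℕ} (hq : q.Prime) (hB : Group.IsNilpotent B)
    (hodd : Odd (Nat.card B)) (hc : ¬ q ∣ Nat.card B) (hexp : ∀ m : M, m ^ q = 1)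
    (hirr : ∀ R : Subgroup M, Iv (⊤ : Subgroup B) R → R = ⊥ ∨ R = ⊤) :
    (∃ g : B, ∀ b : B, ∃ k : ℤ, ∀ m : M, b • m = (g ^ k) • m) ∨
    ∃ (H : Subgroup B) (M₁ : Subgroup M) (l : ℕ) (b : B), l.Prime ∧ H.Normal ∧ H.index = l ∧
      b ∉ H ∧ M₁ ≠ ⊥ ∧ Iv H M₁ ∧
      Function.Bijective (fun f : Fin l → M₁ => ∏ i : Fin l, (b ^ (i : ℕ)) • (f i : M)) := by
  classical
  obtain ⟨C, hCd⟩ : ∃ C : Subgroup B, C = (MulDistribMulAction.toMulAut B M).ker := ⟨_, rfl⟩
  have hCn : C.Normal := by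
    rw [hCd]
    infer_instance
  have hC : ∀ c : B, c ∈ C ↔ ∀ m : M, c • m = m := by
    intro c
    rw [hCd, MonoidHom.mem_ker]
    constructor
    · intro h m
      exact DFunLike.congr_fun h m
    · intro h
      ext m
      exact h m
  by_cases hcyc : IsCyclic (B ⧸ C)
  · left
    obtain ⟨g', hg'⟩ := hcyc.exists_generator
    obtain ⟨g, rfl⟩ := QuotientGroup.mk_surjective g'
    refine ⟨g, fun b => ?_⟩
    obtain ⟨k, hk⟩ := mem_zpowers_iff.1 (hg' (b : B ⧸ C))
    refine ⟨k, fun m => ?_⟩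
    have h1 : (g ^ k)⁻¹ * b ∈ C := by
      rw [← QuotientGroup.eq]
      exact hk
    have h2 := (hC _).1 h1 m
    rwa [mul_smul, inv_smul_eq_iff] at h2
  right
  have hdvC : Nat.card (B ⧸ C) ∣ Nat.card B := Subgroup.card_quotient_dvd_card C
  obtain ⟨p, E', hp, hE'n, hE'c, hE'p, hE'a⟩ := nilpp (B := B ⧸ C)
    (Group.nilpotent_of_surjective (QuotientGroup.mk' C) (QuotientGroup.mk'_surjective C))
    (hodd.of_dvd_nat hdvC) hcyc
  obtain ⟨E, hEd⟩ : ∃ E : Subgroup B, E = E'.comap (QuotientGroup.mk' C) := ⟨_, rfl⟩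
  have hE : ∀ b : B, b ∈ E ↔ (b : B ⧸ C) ∈ E' := fun b => by
    rw [hEd]
    rfl
  have hEn : E.Normal := by
    rw [hEd]
    infer_instance
  have hCE : C ≤ E := by
    intro c hc
    rw [hE, (QuotientGroup.eq_one_iff c).2 hc]
    exact one_mem _
  have hrel : C.relIndex E = p ^ 2 := by
    have h1 := Subgroup.relIndex_mul_index hCE
    have h2 : E.index = E'.index := by
      rw [hEd]
      exact Subgroup.index_comap_of_surjective E' (QuotientGroup.mk'_surjective C)
    have h3 : Nat.card E' * E'.index = C.index := by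
      rw [Subgroup.card_mul_index, Subgroup.index_eq_card]
    rw [h2, ← h3, hE'c] at h1
    exact Nat.eq_of_mul_eq_mul_right (Nat.pos_of_ne_zero Subgroup.index_ne_zero_of_finite) h1
  have hAA : ∀ a ∈ E, ∀ b ∈ E, a * b * a⁻¹ * b⁻¹ ∈ C := by
    intro a ha b hb
    rw [← QuotientGroup.eq_one_iff]
    have h1 := hE'a _ ((hE a).1 ha) _ ((hE b).1 hb)
    show ((a : B ⧸ C) * b * (a : B ⧸ C)⁻¹ * (b : B ⧸ C)⁻¹) = 1
    rw [h1, mul_inv_cancel_right, mul_inv_cancel]
  have hexpE : ∀ a ∈ E, a ^ p ∈ C := by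
    intro a ha
    rw [← QuotientGroup.eq_one_iff]
    exact hE'p _ ((hE a).1 ha)
  have hpB : p ∣ Nat.card B := by
    have h1 : p ^ 2 ∣ Nat.card (B ⧸ C) := hE'c ▸ Subgroup.card_subgroup_dvd_card E'
    exact ((dvd_pow_self p two_ne_zero).trans h1).trans hdvC
  have hqM : IsPGroup q M := fun m => ⟨1, by rw [pow_one]; exact hexp m⟩
  have : Fact q.Prime := ⟨hq⟩
  have hcM : ¬ p ∣ Nat.card M := by
    intro h
    obtain ⟨n, hn⟩ := (IsPGroup.iff_card).1 hqM
    rw [hn] at h
    have h1 := (Nat.prime_dvd_prime_iff_eq hp hq).1 (hp.dvd_of_dvd_pow h)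
    rw [h1] at hpB
    exact hc hpB
  have hfix : ∀ m : M, (∀ a ∈ E, a • m = m) → m = 1 := by
    have hiv : Iv (⊤ : Subgroup B) (Fx M E) := by
      intro g _ m hm a ha
      have h1 := hm (g⁻¹ * a * g) (by
        have := hEn.conj_mem a ha g⁻¹
        rwa [inv_inv] at this)
      rw [mul_smul, mul_smul, inv_smul_eq_iff] at h1
      exact h1
    intro m hm
    rcases hirr _ hiv with h | h
    · have h1 : m ∈ Fx M E := hm
      rw [h] at h1
      exact mem_bot.1 h1
    · exfalso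
      have h1 : E ≤ C := by
        intro a ha
        rw [hC]
        intro m
        have h2 : m ∈ Fx M E := by rw [h]; exact mem_top m
        exact h2 a ha
      rw [Subgroup.relIndex_eq_one.2 h1] at hrel
      have := hp.one_lt
      nlinarith
  have hgen := hypG (M := M) hp E C hCE (fun k hk m => (hC k).1 hk m) hAA hexpE hcM hfix
  obtain ⟨U₁, hU₁, hU₁0⟩ : ∃ U ∈ Hyp C E p, Fx M U ≠ ⊥ := by
    by_contra hcon
    push Not at hcon
    have h1 : (⨆ U ∈ Hyp C E p, Fx M U) = ⊥ := by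
      rw [iSup₂_eq_bot]
      exact hcon
    rw [hgen] at h1
    exact top_ne_bot h1
  have hcjH : ∀ g : B, cj g U₁ ∈ Hyp C E p := by
    intro g
    obtain ⟨h1, h2, h3⟩ := hU₁
    refine ⟨fun c hc => ?_, fun u hu => ?_, ?_⟩
    · rw [mem_cj]
      apply h1
      have := hCn.conj_mem c hc g⁻¹
      rwa [inv_inv] at this
    · rw [mem_cj] at hu
      have := hEn.conj_mem _ (h2 hu) g
      have h4 : g * (g⁻¹ * u * g) * g⁻¹ = u := by group
      rwa [h4] at this
    · have h4 : cj g E = E := by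
        ext x
        rw [mem_cj]
        constructor
        · intro hx
          have := hEn.conj_mem _ hx g
          have h4 : g * (g⁻¹ * x * g) * g⁻¹ = x := by group
          rwa [h4] at this
        · intro hx
          have := hEn.conj_mem x hx g⁻¹
          rwa [inv_inv] at this
      have h5 : (cj g U₁).relIndex (cj g E) = U₁.relIndex E :=
        Subgroup.relIndex_map_map_of_injective U₁ E (MulAut.conj g).injective
      rw [h4] at h5
      rw [h5, h3]
  -- the stabiliser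
  obtain ⟨L, hL⟩ : ∃ L : Subgroup B, ∀ g, g ∈ L ↔ cj g U₁ = U₁ := by
    refine ⟨{ carrier := {g | cj g U₁ = U₁}
              mul_mem' := ?_
              one_mem' := cj_one U₁
              inv_mem' := ?_ }, fun g => Iff.rfl⟩
    · intro a b ha hb
      show cj (a * b) U₁ = U₁
      rw [cj_mul, hb, ha]
    · intro a ha
      show cj a⁻¹ U₁ = U₁
      conv_lhs => rw [← (ha : cj a U₁ = U₁)]
      exact cj_inv_cj a U₁
  have hLtop : L ≠ ⊤ := by
    intro hLt
    have hiv : Iv (⊤ : Subgroup B) (Fx M U₁) := by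
      intro g _ m hm
      have h1 : g • m ∈ (Fx M U₁).map (impφ M g) := ⟨m, hm, rfl⟩
      rw [imp_map, (hL g).1 (by rw [hLt]; exact mem_top g)] at h1
      exact h1
    rcases hirr _ hiv with h | h
    · exact hU₁0 h
    · have h1 : U₁ ≤ C := by
        intro a ha
        rw [hC]
        intro m
        have h2 : m ∈ Fx M U₁ := by rw [h]; exact mem_top m
        exact h2 a ha
      have h2 : U₁ = C := le_antisymm h1 hU₁.1
      have h3 := hU₁.2.2
      rw [h2, hrel] at h3
      have := hp.one_lt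
      nlinarith
  obtain ⟨H, hHc, hLH⟩ := (eq_top_or_exists_le_coatom L).resolve_left hLtop
  have hHn : H.Normal := by
    have := hB
    exact Subgroup.NormalizerCondition.normal_of_coatom H Group.normalizerCondition_of_isNilpotent
      hHc
  have hlp : H.index.Prime := imp_prime H hHc
  obtain ⟨b, hb⟩ : ∃ b, b ∉ H := by
    by_contra hcon
    push Not at hcon
    exact hHc.1 (eq_top_iff.2 fun x _ => hcon x)
  obtain ⟨S, hSd⟩ : ∃ S : B → Subgroup M, S = fun g => ⨆ h ∈ H, Fx M (cj (g * h) U₁) := ⟨_, rfl⟩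
  have hS : ∀ g, S g = ⨆ h ∈ H, Fx M (cj (g * h) U₁) := fun g => by rw [hSd]
  have hSmap : ∀ g g', (S g).map (impφ M g') = S (g' * g) := by
    intro g g'
    rw [hS, hS, Subgroup.map_iSup]
    refine iSup_congr fun h => ?_
    rw [Subgroup.map_iSup]
    refine iSup_congr fun hh => ?_
    rw [imp_map, ← cj_mul, mul_assoc]
  have hSH : ∀ g, ∀ h ∈ H, S (g * h) ≤ S g := by
    intro g h hh
    rw [hS, hS]
    refine iSup₂_le fun h' hh' => ?_
    rw [mul_assoc]
    exact le_iSup₂_of_le (h * h') (mul_mem hh hh') le_rfl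
  have hF : ∀ g, Fx M (cj g U₁) ≤ S g := by
    intro g
    rw [hS]
    refine le_iSup₂_of_le 1 (one_mem H) ?_
    rw [mul_one]
  have hM₁ : S 1 ≠ ⊥ := by
    intro h
    have h1 := hF 1
    rw [h, cj_one, le_bot_iff] at h1
    exact hU₁0 h1
  have hcardQ : Nat.card (B ⧸ H) = H.index := (Subgroup.index_eq_card H).symm
  have hfl : Fact (Nat.Prime H.index) := ⟨hlp⟩
  have hb1 : (b : B ⧸ H) ≠ 1 := fun h => hb ((QuotientGroup.eq_one_iff b).1 h)
  have hord : orderOf (b : B ⧸ H) = H.index := by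
    rw [← hcardQ]
    exact orderOf_eq_card_of_forall_mem_zpowers
      (fun x => mem_zpowers_of_prime_card hcardQ hb1)
  have hdec : ∀ g : B, ∃ i < H.index, (b ^ i)⁻¹ * g ∈ H := by
    intro g
    obtain ⟨k, hk⟩ : (g : B ⧸ H) ∈ Submonoid.powers (b : B ⧸ H) :=
      mem_powers_of_prime_card hcardQ hb1
    refine ⟨k % H.index, Nat.mod_lt _ hlp.pos, ?_⟩
    rw [← QuotientGroup.eq]
    show (b : B ⧸ H) ^ (k % H.index) = g
    rw [← hord, pow_mod_orderOf]
    exact hk
  have hdis : ∀ i < H.index, ∀ j < H.index, (b ^ i)⁻¹ * b ^ j ∈ H → i = j := by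
    intro i hi j hj h
    rw [← QuotientGroup.eq] at h
    have h1 : (b : B ⧸ H) ^ i = (b : B ⧸ H) ^ j := h
    exact pow_injOn_Iio_orderOf (by rw [hord]; exact hi) (by rw [hord]; exact hj) h1
  have hR : (⨆ g : B, Fx M (cj g U₁)) = ⊤ := by
    have hiv : Iv (⊤ : Subgroup B) (⨆ g : B, Fx M (cj g U₁)) := by
      intro g _ m hm
      have h1 : g • m ∈ (⨆ g : B, Fx M (cj g U₁)).map (impφ M g) := ⟨m, hm, rfl⟩
      rw [Subgroup.map_iSup] at h1
      refine (iSup_le fun g' => ?_ : _ ≤ (⨆ g : B, Fx M (cj g U₁))) h1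
      rw [imp_map, ← cj_mul]
      exact le_iSup (fun g : B => Fx M (cj g U₁)) (g * g')
    rcases hirr _ hiv with h | h
    · exfalso
      have h1 : Fx M (cj 1 U₁) ≤ ⊥ := by
        rw [← h]
        exact le_iSup (fun g : B => Fx M (cj g U₁)) 1
      rw [cj_one, le_bot_iff] at h1
      exact hU₁0 h1
    · exact h
  refine ⟨H, S 1, H.index, b, hlp, hHn, rfl, hb, hM₁, ?_, ?_⟩
  · intro h hh m hm
    have h1 : h • m ∈ (S 1).map (impφ M h) := ⟨m, hm, rfl⟩
    rw [hSmap, mul_one] at h1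
    have h2 := hSH 1 h hh
    rw [one_mul] at h2
    exact h2 h1
  -- the product map
  obtain ⟨Φ, hΦ⟩ : ∃ Φ : (Fin H.index → S 1) →* M, ∀ f,
      Φ f = ∏ i : Fin H.index, (b ^ (i : ℕ)) • (f i : M) := by
    refine ⟨MonoidHom.mk' (fun f => ∏ i : Fin H.index, (b ^ (i : ℕ)) • (f i : M)) ?_,
      fun f => rfl⟩
    intro f f'
    rw [← Finset.prod_mul_distrib]
    refine Finset.prod_congr rfl fun i _ => ?_
    rw [← smul_mul']
    rfl
  have hΦ' : (fun f : Fin H.index → S 1 => ∏ i : Fin H.index, (b ^ (i : ℕ)) • (f i : M)) = Φ := by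
    funext f
    exact (hΦ f).symm
  rw [hΦ']
  constructor
  · rw [injective_iff_map_eq_one]
    intro f hf
    funext i₀
    apply Subtype.ext
    show (f i₀ : M) = 1
    -- independence
    obtain ⟨F, hFd⟩ : ∃ F : {U : Subgroup B // U ∈ Hyp C E p} → Subgroup M,
        F = fun U => Fx M U.1 := ⟨_, rfl⟩
    have hind : iSupIndep F := by
      intro U₀
      rw [disjoint_iff, hFd]
      have h1 := hypI (M := M) hp E C hCE (fun k hk m => (hC k).1 hk m) hAA hexpE hcM hfix U₀.1
        U₀.2 {U | U ∈ Hyp C E p ∧ U ≠ U₀.1} (fun U hU => hU)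
      rw [eq_bot_iff] at h1 ⊢
      refine (inf_le_inf_left _ ?_).trans h1
      refine iSup₂_le fun U hU => ?_
      exact le_iSup₂_of_le U.1 ⟨U.2, fun h => hU (Subtype.ext h)⟩ le_rfl
    obtain ⟨T, hTd⟩ : ∃ T : ℕ → Set {U : Subgroup B // U ∈ Hyp C E p}, T = fun i =>
        {U | ∃ h ∈ H, U.1 = cj (b ^ i * h) U₁} := ⟨_, rfl⟩
    have hST : ∀ i, S (b ^ i) ≤ ⨆ U ∈ T i, F U := by
      intro i
      rw [hS]
      refine iSup₂_le fun h hh => ?_
      refine le_iSup₂_of_le ⟨cj (b ^ i * h) U₁, hcjH _⟩ ?_ ?_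
      · rw [hTd]
        exact ⟨h, hh, rfl⟩
      · rw [hFd]
    have hdj : Disjoint (T i₀) (⋃ i ∈ {i : Fin H.index | i ≠ i₀}, T i) := by
      rw [Set.disjoint_left]
      intro U hU hU'
      rw [Set.mem_iUnion₂] at hU'
      obtain ⟨i, hi, hU'⟩ := hU'
      rw [hTd] at hU hU'
      obtain ⟨h, hh, h1⟩ := hU
      obtain ⟨h', hh', h1'⟩ := hU'
      apply hi
      apply Fin.ext
      apply hdis _ i.2 _ i₀.2
      have h2 : cj ((b ^ (i : ℕ) * h')⁻¹ * (b ^ (i₀ : ℕ) * h)) U₁ = U₁ := by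
        rw [cj_mul, ← h1, h1', cj_inv_cj]
      have h3 := hLH ((hL _).2 h2)
      have h4 : (b ^ (i : ℕ))⁻¹ * b ^ (i₀ : ℕ) =
          h' * ((b ^ (i : ℕ) * h')⁻¹ * (b ^ (i₀ : ℕ) * h)) * h⁻¹ := by group
      rw [h4]
      exact mul_mem (mul_mem hh' h3) (inv_mem hh)
    have hDisj := iSupIndep.disjoint_biSup_biSup' hind hdj (Set.toFinite _)
    have hmem : ∀ i : Fin H.index, (b ^ (i : ℕ)) • (f i : M) ∈ S (b ^ (i : ℕ)) := by
      intro i
      have h1 : (b ^ (i : ℕ)) • (f i : M) ∈ (S 1).map (impφ M (b ^ (i : ℕ))) :=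
        ⟨(f i : M), (f i).2, rfl⟩
      rwa [hSmap, mul_one] at h1
    rw [hΦ, ← Finset.mul_prod_erase Finset.univ _ (Finset.mem_univ i₀)] at hf
    have hx1 : (b ^ (i₀ : ℕ)) • (f i₀ : M) ∈ ⨆ U ∈ T i₀, F U := hST _ (hmem i₀)
    have hx2 : (b ^ (i₀ : ℕ)) • (f i₀ : M) ∈
        ⨆ U ∈ (⋃ i ∈ {i : Fin H.index | i ≠ i₀}, T i), F U := by
      rw [eq_inv_of_mul_eq_one_left hf]
      refine inv_mem (prod_mem fun i hi => ?_)
      have hi' : i ≠ i₀ := Finset.ne_of_mem_erase hi
      refine (?_ : S (b ^ (i : ℕ)) ≤ _) (hmem i)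
      refine (hST i).trans (biSup_mono fun U hU => ?_)
      exact Set.mem_iUnion₂.2 ⟨i, hi', hU⟩
    have hx3 := disjoint_iff.1 hDisj
    have hx4 : (b ^ (i₀ : ℕ)) • (f i₀ : M) ∈ (⊥ : Subgroup M) := by
      rw [← hx3]
      exact mem_inf.2 ⟨hx1, hx2⟩
    rw [mem_bot] at hx4
    rw [smul_eq_iff_eq_inv_smul, smul_one] at hx4
    exact hx4
  · rw [← MonoidHom.range_eq_top, eq_top_iff, ← hR]
    refine iSup_le fun g => ?_
    obtain ⟨i, hi, hg⟩ := hdec g
    have h1 : Fx M (cj g U₁) ≤ S (b ^ i) := by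
      rw [hS]
      refine le_iSup₂_of_le _ hg ?_
      rw [mul_inv_cancel_left]
    refine h1.trans ?_
    intro m hm
    have h2 : S (b ^ i) = (S 1).map (impφ M (b ^ i)) := by rw [hSmap, mul_one]
    rw [h2] at hm
    obtain ⟨m₁, hm₁, rfl⟩ := hm
    refine ⟨Pi.mulSingle ⟨i, hi⟩ ⟨m₁, hm₁⟩, ?_⟩
    rw [hΦ, Finset.prod_eq_single ⟨i, hi⟩]
    · rw [Pi.mulSingle_eq_same]
      rfl
    · intro j _ hj
      rw [Pi.mulSingle_eq_of_ne hj]
      exact smul_one _
    · intro h
      exact absurd (Finset.mem_univ _) h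

end Pool.Agent.Work.MP_b44cb1_al
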