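import Pool.Agent.Work.MP_b44cb1_al.Full.Base
import Pool.Agent.Work.MP_b44cb1_al.CopKit

/-!
# KDefs : abstract coprime actions, definitions (all proved)

`B` acts on `M` by automorphisms. `Fx U` = fixed points of `U ≤ B`, `Iv H N` : `N` is invariant under
`H`, `Hyp K A p` = hyperplanes of `A / K`, `subAct` = action of `H` on an invariant subgroup.
-/

set_option autoImplicit false

namespace Pool.Agent.Work.MP_b44cb1_al

open Subgroup
open scoped commutatorElement

section Abs

variable {B M : Type*} [Group B] [Group M] [MulDistribMulAction B M]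

/-- Fixed points of `U` in `M`. -/
def Fx (M : Type*) [Group M] [MulDistribMulAction B M] (U : Subgroup B) : Subgroup M where
  carrier := {m | ∀ u ∈ U, u • m = m}
  mul_mem' := fun {a b} ha hb u hu => by rw [smul_mul', ha u hu, hb u hu]
  one_mem' := fun u _ => smul_one u
  inv_mem' := fun {a} ha u hu => by rw [smul_inv', ha u hu]

theorem mem_fx {U : Subgroup B} {m : M} : m ∈ Fx M U ↔ ∀ u ∈ U, u • m = m := Iff.rfl

/-- `N` is invariant under `H`. -/
def Iv (H : Subgroup B) (N : Subgroup M) : Prop := ∀ h ∈ H, ∀ m ∈ N, h • m ∈ N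

/-- The action of `H` on the invariant subgroup `N`. -/
@[reducible] def subAct {H : Subgroup B} {N : Subgroup M} (h : Iv H N) :
    MulDistribMulAction H N where
  smul b m := ⟨(b : B) • (m : M), h b b.2 m m.2⟩
  one_smul m := Subtype.ext (one_smul B (m : M))
  mul_smul a b m := Subtype.ext (mul_smul (a : B) (b : B) (m : M))
  smul_mul b m n := Subtype.ext (smul_mul' (b : B) (m : M) (n : M))
  smul_one b := Subtype.ext (smul_one (b : B))

/-- The hyperplanes of `A / K`. -/
def Hyp (K A : Subgroup B) (p : ℕ) : Set (Subgroup B) :=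
  {U | K ≤ U ∧ U ≤ A ∧ U.relIndex A = p}

end Abs

section Sec

variable {G : Type*} [Group G]

/-- The action of `B` on `W / F` by conjugation, `W` and `F` normalised by `B`, `F` normalised by
`W`. -/
@[reducible] def secAct {B W F : Subgroup G} (hBW : Nz B W) (hBF : Nz B F)
    [(F.subgroupOf W).Normal] : MulDistribMulAction B (W ⧸ F.subgroupOf W) where
  smul b := QuotientGroup.map (F.subgroupOf W) (F.subgroupOf W)
    (@MulDistribMulAction.toMonoidHom B W _ _ (cjAct hBW) b)
    (fun w hw => by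
      rw [Subgroup.mem_comap, mem_subgroupOf]
      exact hBF b b.2 w (mem_subgroupOf.1 hw))
  one_smul q := by
    obtain ⟨w, rfl⟩ := QuotientGroup.mk_surjective q
    show (QuotientGroup.mk ((cjAct hBW).toMulAction.toSMul.smul (1 : B) w) : W ⧸ _) = _
    congr 1
    exact (cjAct hBW).one_smul w
  mul_smul a b q := by
    obtain ⟨w, rfl⟩ := QuotientGroup.mk_surjective q
    show (QuotientGroup.mk ((cjAct hBW).toMulAction.toSMul.smul (a * b) w) : W ⧸ _) =
      QuotientGroup.mk ((cjAct hBW).toMulAction.toSMul.smul a ((cjAct hBW).toMulAction.toSMul.smul b w))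
    congr 1
    exact (cjAct hBW).mul_smul a b w
  smul_mul b q q' := by
    exact map_mul _ q q'
  smul_one b := by
    exact map_one _

theorem secAct_mk {B W F : Subgroup G} (hBW : Nz B W) (hBF : Nz B F)
    [(F.subgroupOf W).Normal] (b : B) (w : W) :
    (secAct hBW hBF).toMulAction.toSMul.smul b (QuotientGroup.mk w : W ⧸ F.subgroupOf W) =
      QuotientGroup.mk ⟨b * w * (b : G)⁻¹, hBW b b.2 w w.2⟩ := rfl

/-- Fixed points mod `F` in terms of commutators. -/
theorem sec_fix_iff {B W F : Subgroup G} (hBW : Nz B W) (hBF : Nz B F) (hWF : Nz W F)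
    [(F.subgroupOf W).Normal] (b : B) (w : W) :
    (secAct hBW hBF).toMulAction.toSMul.smul b (QuotientGroup.mk w : W ⧸ F.subgroupOf W) =
      QuotientGroup.mk w ↔ ⁅(b : G), (w : G)⁆ ∈ F := by
  rw [secAct_mk, QuotientGroup.eq, mem_subgroupOf]
  have e : ((⟨b * w * (b : G)⁻¹, hBW b b.2 w w.2⟩⁻¹ * w : W) : G) =
      ((b : G) * w * (b : G)⁻¹)⁻¹ * w := rfl
  rw [e, commutatorElement_def]
  constructor
  · intro h
    have h1 := hWF w w.2 _ (inv_mem h)
    have h2 : (w : G) * (((b : G) * (w : G) * (b : G)⁻¹)⁻¹ * w)⁻¹ * (w : G)⁻¹ =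
        (b : G) * (w : G) * (b : G)⁻¹ * (w : G)⁻¹ := by group
    rwa [h2] at h1
  · intro h
    have h1 := hWF (w : G)⁻¹ (inv_mem w.2) _ (inv_mem h)
    have h2 : (w : G)⁻¹ * ((b : G) * (w : G) * (b : G)⁻¹ * (w : G)⁻¹)⁻¹ * ((w : G)⁻¹)⁻¹ =
        ((b : G) * w * (b : G)⁻¹)⁻¹ * w := by group
    rwa [h2] at h1

end Sec

end Pool.Agent.Work.MP_b44cb1_al
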