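import Pool.Agent.Work.MP_b44cb1_al.Full.Kit.FixN

/-! `liftN` (K3) is in `FixN.lean`. -/
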