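import Pool.Agent.Work.MP_b44cb1_al.Full.Kit.MonoA
import Pool.Agent.Work.MP_b44cb1_al.Full.Kit.FixN

/-!
# K10 mono : monomiality for sections `W / F`  (size M)

PROOF. `monoA` for `B` acting on `M = W ⧸ F.subgroupOf W` (`secAct`, `sec_fix_iff` of `KDefs`), the pair `S` mapped to `G` (`Subgroup.map B.subtype`).
For `T ≤ B` with `T ⊓ S.1 ≤ S.2`, `monoA` (for `T.subgroupOf B`) gives `y ∈ W \ F` with `⁅t, y⁆ ∈ F` for all `t ∈ T`; `liftN` replaces it by `y'` in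
the same coset of `F` commuting with `T`.
`mono_fr`: the case `F = Fr q P ⊓ W`, `W ≤ P`.
-/

set_option autoImplicit false

namespace Pool.Agent.Work.MP_b44cb1_al

open Subgroup
open scoped commutatorElement

variable {G : Type*} [Group G]

private theorem ms_comm {W F : Subgroup G} (hab : ⁅W, W⁆ ≤ F) [(F.subgroupOf W).Normal]
    (x y : W ⧸ F.subgroupOf W) : x * y = y * x := by
  obtain ⟨x, rfl⟩ := QuotientGroup.mk_surjective x
  obtain ⟨y, rfl⟩ := QuotientGroup.mk_surjective y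
  rw [← QuotientGroup.mk_mul, ← QuotientGroup.mk_mul, QuotientGroup.eq, mem_subgroupOf]
  have h1 : (((x * y)⁻¹ * (y * x) : W) : G) = ⁅(y : G)⁻¹, (x : G)⁻¹⁆ := by
    show ((x : G) * y)⁻¹ * (y * x) = (y : G)⁻¹ * (x : G)⁻¹ * ((y : G)⁻¹)⁻¹ * ((x : G)⁻¹)⁻¹
    group
  rw [h1]
  exact hab (commutator_mem_commutator (inv_mem y.2) (inv_mem x.2))

private theorem ms_exp {W F : Subgroup G} {q : ℕ} (hexp : ∀ x ∈ W, x ^ q ∈ F)
    [(F.subgroupOf W).Normal] (x : W ⧸ F.subgroupOf W) : x ^ q = 1 := by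
  obtain ⟨x, rfl⟩ := QuotientGroup.mk_surjective x
  rw [← QuotientGroup.mk_pow, QuotientGroup.eq_one_iff, mem_subgroupOf]
  exact hexp x x.2

private theorem ms_map {B : Type*} [Group B] {H : Subgroup B} {S : Subgroup H × Subgroup H}
    (hS : CycP S) : CycP (S.1.map H.subtype, S.2.map H.subtype) := by
  obtain ⟨h1, h2, g, hg, h3⟩ := hS
  refine ⟨Subgroup.map_mono h1, ?_, g, ⟨g, hg, rfl⟩, ?_⟩
  · rintro _ ⟨a, ha, rfl⟩ _ ⟨d, hd, rfl⟩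
    exact ⟨a * d * a⁻¹, h2 a ha d hd, by simp⟩
  · have h4 := Subgroup.map_mono (f := H.subtype) h3
    rw [Subgroup.map_sup, MonoidHom.map_zpowers] at h4
    exact h4

theorem mono_sec [Finite G] {q : ℕ} (hq : q.Prime) (B W F : Subgroup G)
    (hB : Group.IsNilpotent B) (hodd : Odd (Nat.card B)) (hc : ¬ q ∣ Nat.card B)
    (hW : IsPGroup q W) (hFW : F ≤ W) (hWF : Nz W F) (hBW : Nz B W) (hBF : Nz B F)
    (hab : ⁅W, W⁆ ≤ F) (hexp : ∀ x ∈ W, x ^ q ∈ F) (hne : ¬ W ≤ F) :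
    ∃ S : Subgroup G × Subgroup G, CycP S ∧ S.1 ≤ B ∧ ∀ T : Subgroup G, T ≤ B →
      T ⊓ S.1 ≤ S.2 → ∃ y ∈ W, y ∉ F ∧ ∀ t ∈ T, t * y = y * t := by
  haveI hn : (F.subgroupOf W).Normal := hWF.subgroupOf_normal
  letI : CommGroup (W ⧸ F.subgroupOf W) :=
    { (inferInstance : Group (W ⧸ F.subgroupOf W)) with mul_comm := ms_comm hab }
  haveI : Nontrivial (W ⧸ F.subgroupOf W) := by
    rw [QuotientGroup.nontrivial_iff, Ne, subgroupOf_eq_top]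
    exact hne
  letI : MulDistribMulAction B (W ⧸ F.subgroupOf W) := secAct hBW hBF
  obtain ⟨S, hS, hST⟩ := monoA (B := B) (M := W ⧸ F.subgroupOf W) hq hB hodd hc (ms_exp hexp)
  refine ⟨(S.1.map B.subtype, S.2.map B.subtype), ms_map hS, ?_, fun T hTB hT => ?_⟩
  · rintro _ ⟨x, _, rfl⟩
    exact x.2
  · obtain ⟨y, hy, hfix⟩ := hST (T.subgroupOf B) (by
      rintro x ⟨hx1, hx2⟩
      have h3 : (x : G) ∈ S.2.map B.subtype := hT ⟨mem_subgroupOf.1 hx1, ⟨x, hx2, rfl⟩⟩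
      obtain ⟨x', hx', hxx⟩ := h3
      have h4 : x' = x := Subtype.ext hxx
      rwa [← h4])
    obtain ⟨y, rfl⟩ := QuotientGroup.mk_surjective y
    have hyF : (y : G) ∉ F := fun h => hy ((QuotientGroup.eq_one_iff y).2 (mem_subgroupOf.2 h))
    have hcomm : ∀ t ∈ T, ⁅t, (y : G)⁆ ∈ F := fun t ht =>
      (sec_fix_iff hBW hBF hWF ⟨t, hTB ht⟩ y).1 (hfix ⟨t, hTB ht⟩ (mem_subgroupOf.2 ht))
    obtain ⟨z, hz, hcz, hyz⟩ := liftN hq W F T hW hFW hWF (fun t ht => hBW t (hTB ht))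
      (fun t ht => hBF t (hTB ht)) (fun h => hc (h.trans (card_dvd_of_le hTB))) y.2 hcomm
    refine ⟨z, hz, fun h => hyF ?_, hcz⟩
    have h1 := mul_mem h (inv_mem hyz)
    have h2 : z * ((y : G)⁻¹ * z)⁻¹ = y := by group
    rwa [h2] at h1

theorem mono_fr [Finite G] {q : ℕ} (hq : q.Prime) (B P W : Subgroup G)
    (hB : Group.IsNilpotent B) (hodd : Odd (Nat.card B)) (hc : ¬ q ∣ Nat.card B)
    (hP : IsPGroup q P) (hWP : W ≤ P) (hBP : Nz B P) (hBW : Nz B W) (hne : ¬ W ≤ Fr q P) :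
    ∃ S : Subgroup G × Subgroup G, CycP S ∧ S.1 ≤ B ∧ ∀ T : Subgroup G, T ≤ B →
      T ⊓ S.1 ≤ S.2 → ∃ y ∈ W, y ∉ Fr q P ∧ ∀ t ∈ T, t * y = y * t := by
  have hPF : Nz P (Fr q P) := nz_fr q (nz_self P)
  have h1 : Nz W (Fr q P ⊓ W) := by
    intro g hg d hd
    exact ⟨hPF g (hWP hg) d hd.1, nz_self W g hg d hd.2⟩
  have h2 : Nz B (Fr q P ⊓ W) := (nz_fr q hBP).inf hBW
  have h3 : ⁅W, W⁆ ≤ Fr q P ⊓ W := by
    rw [commutator_le]
    intro a ha b hb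
    exact Subgroup.mem_inf.2 ⟨comm_mem_fr (hWP ha) (hWP hb),
      W.mul_mem (W.mul_mem (W.mul_mem ha hb) (W.inv_mem ha)) (W.inv_mem hb)⟩
  obtain ⟨S, hS, hSB, hST⟩ := mono_sec hq B W (Fr q P ⊓ W) hB hodd hc (hP.to_le hWP) inf_le_right
    h1 hBW h2 h3 (fun x hx => ⟨pow_mem_fr (hWP hx), pow_mem hx q⟩)
    (fun h => hne (h.trans inf_le_left))
  refine ⟨S, hS, hSB, fun T hTB hT => ?_⟩
  obtain ⟨y, hy, hyF, hcy⟩ := hST T hTB hT
  exact ⟨y, hy, fun h => hyF ⟨h, hy⟩, hcy⟩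

end Pool.Agent.Work.MP_b44cb1_al
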