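import Pool.Agent.Work.MP_b44cb1_al.Full.Kit.Imp

/-!
# K10 monoA : monomiality, abstract form  (size M)

PROOF. Induction on `|B| + |M|` over all `B`, `M` (fixed universes).
(1) There is an invariant subgroup `R ≠ ⊥, ⊤` of `M`: apply the induction hypothesis to `B` acting on `R` (the same `S₁`, `S₂`; `y ∈ R`).
(2) `M` irreducible: `imp`. First case: `S₁ = ⊤`, `S₂` = kernel of the action, `g` generates modulo `S₂`; `T ≤ S₂`, any `y ≠ 1`.
Second case: induction for `H` acting on `M₁` (`subAct`) gives `S₁, S₂ ≤ H` (map them to `B`). Let `T ⊓ S₁ ≤ S₂`. For `T ⊓ H` there is `y₁ ∈ M₁`,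
`y₁ ≠ 1`, fixed by `T ⊓ H`. If `T ≤ H` take `y = y₁`. Otherwise (`l` prime) `T` contains an element `t ∈ b H`, `t ^ l ∈ T ⊓ H`, and
`T = (T ⊓ H) ⟨t⟩`. Let `y = ∏_{i<l} t ^ i • y₁`. For `s ∈ T ⊓ H`: `s t ^ i = t ^ i (t ^ (-i) s t ^ i)` with the bracket in `T ⊓ H`, so `s • y = y`; `t • y = y`
because `t ^ l` fixes `y₁` (reindex `∏ i ∈ range l`). So `T` fixes `y`. `t ^ i = b ^ i h_i`, `h_i ∈ H`, so `y = ∏ b ^ i • (h_i • y₁)` with
`h_i • y₁ ∈ M₁`, `≠ 1`, and `y ≠ 1` by injectivity.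
-/

set_option autoImplicit false

namespace Pool.Agent.Work.MP_b44cb1_al

open Subgroup

universe u v

/-- The action on an invariant subgroup. -/
@[reducible] private def maAct {B M : Type*} [Group B] [Group M] [MulDistribMulAction B M]
    {R : Subgroup M} (h : Iv (⊤ : Subgroup B) R) : MulDistribMulAction B R where
  smul b m := ⟨b • (m : M), h b (mem_top b) m m.2⟩
  one_smul m := Subtype.ext (one_smul B (m : M))
  mul_smul a b m := Subtype.ext (mul_smul a b (m : M))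
  smul_mul b m n := Subtype.ext (smul_mul' b (m : M) (n : M))
  smul_one b := Subtype.ext (smul_one b)

private theorem ma_cyc {B M : Type*} [Group B] [Group M] [MulDistribMulAction B M]
    (g : B) (hg : ∀ b : B, ∃ k : ℤ, ∀ m : M, b • m = (g ^ k) • m) :
    ∃ S : Subgroup B × Subgroup B, CycP S ∧ S.1 = ⊤ ∧ ∀ t ∈ S.2, ∀ m : M, t • m = m := by
  obtain ⟨N, hN⟩ : ∃ N : Subgroup B, ∀ b, b ∈ N ↔ ∀ m : M, b • m = m := by
    refine ⟨(MulDistribMulAction.toMulAut B M).ker, fun b => ?_⟩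
    rw [MonoidHom.mem_ker]
    constructor
    · intro h m
      have h1 := congrArg (fun φ : MulAut M => φ m) h
      exact h1
    · intro h
      ext m
      exact h m
  refine ⟨(⊤, N), ⟨le_top, fun a _ d hd => ?_, g, mem_top g, fun b _ => ?_⟩, rfl,
    fun t ht => (hN t).1 ht⟩
  · rw [hN] at hd ⊢
    intro m
    rw [mul_smul, mul_smul, hd, smul_inv_smul]
  · obtain ⟨k, hk⟩ := hg b
    have h1 : b * (g ^ k)⁻¹ ∈ N := by
      rw [hN]
      intro m
      rw [mul_smul, hk, smul_inv_smul]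
    have h2 : b = b * (g ^ k)⁻¹ * g ^ k := by
      rw [inv_mul_cancel_right]
    rw [h2]
    exact mul_mem (mem_sup_left h1) (mem_sup_right (zpow_mem (mem_zpowers g) k))

private theorem ma_map {B : Type*} [Group B] {H : Subgroup B} {S : Subgroup H × Subgroup H}
    (hS : CycP S) : CycP (S.1.map H.subtype, S.2.map H.subtype) := by
  obtain ⟨h1, h2, g, hg, h3⟩ := hS
  refine ⟨Subgroup.map_mono h1, ?_, g, ⟨g, hg, rfl⟩, ?_⟩
  · rintro _ ⟨a, ha, rfl⟩ _ ⟨d, hd, rfl⟩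
    exact ⟨a * d * a⁻¹, h2 a ha d hd, by simp⟩
  · have h4 := Subgroup.map_mono (f := H.subtype) h3
    rw [Subgroup.map_sup, MonoidHom.map_zpowers] at h4
    exact h4

private theorem ma_induced {B M : Type*} [Group B] [Finite B] [CommGroup M]
    [MulDistribMulAction B M] (H : Subgroup B) (M₁ : Subgroup M) (l : ℕ) (b : B) (hl : l.Prime)
    (hH : H.Normal) (hi : H.index = l) (hb : b ∉ H) (hinv : Iv H M₁)
    (hbij : Function.Bijective (fun f : Fin l → M₁ => ∏ i : Fin l, (b ^ (i : ℕ)) • (f i : M)))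
    (T : Subgroup B) (y₁ : M) (hy₁ : y₁ ∈ M₁) (hne : y₁ ≠ 1)
    (hfix : ∀ t ∈ T, t ∈ H → t • y₁ = y₁) : ∃ y : M, y ≠ 1 ∧ ∀ t ∈ T, t • y = y := by
  by_cases hTH : T ≤ H
  · exact ⟨y₁, hne, fun t ht => hfix t ht (hTH ht)⟩
  obtain ⟨t₀, ht₀, ht₀H⟩ := SetLike.not_le_iff_exists.1 hTH
  have hcard : Nat.card (B ⧸ H) = l := by rw [← hi]; rfl
  haveI : Fact l.Prime := ⟨hl⟩
  have hgen : ∀ (t : B), t ∉ H → ∀ s : B, ∃ k : ℤ, (t ^ k)⁻¹ * s ∈ H := by
    intro t ht s
    have h1 : (QuotientGroup.mk t : B ⧸ H) ≠ 1 := fun h => ht ((QuotientGroup.eq_one_iff t).1 h)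
    have h2 := mem_zpowers_of_prime_card hcard (g := (QuotientGroup.mk t : B ⧸ H))
      (g' := (QuotientGroup.mk s : B ⧸ H)) h1
    obtain ⟨k, hk⟩ := mem_zpowers_iff.1 h2
    refine ⟨k, ?_⟩
    rw [← QuotientGroup.eq, ← hk]
    rfl
  obtain ⟨k, hk⟩ := hgen t₀ ht₀H b
  obtain ⟨t, htd⟩ : ∃ t, t = t₀ ^ k := ⟨_, rfl⟩
  rw [← htd] at hk
  have htT : t ∈ T := htd ▸ zpow_mem ht₀ k
  have htb : (QuotientGroup.mk t : B ⧸ H) = QuotientGroup.mk b := QuotientGroup.eq.2 hk
  have htl : t ^ l ∈ H := by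
    rw [← QuotientGroup.eq_one_iff, QuotientGroup.mk_pow, ← hcard]
    exact pow_card_eq_one'
  by_cases htH : t ∈ H
  · exfalso
    have hbH : b ∈ H := by
      rw [← QuotientGroup.eq_one_iff, ← htb, QuotientGroup.eq_one_iff]
      exact htH
    exact absurd hbH hb
  have hti : ∀ i : ℕ, (b ^ i)⁻¹ * t ^ i ∈ H := by
    intro i
    rw [← QuotientGroup.eq, QuotientGroup.mk_pow, QuotientGroup.mk_pow, htb]
  obtain ⟨y, hy⟩ : ∃ y : M, y = ∏ i ∈ Finset.range l, t ^ i • y₁ := ⟨_, rfl⟩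
  refine ⟨y, ?_, ?_⟩
  · intro hy1
    have h1 : ∏ i : Fin l, (b ^ (i : ℕ)) •
        ((⟨((b ^ (i : ℕ))⁻¹ * t ^ (i : ℕ)) • y₁, hinv _ (hti i) y₁ hy₁⟩ : M₁) : M) = y := by
      rw [hy, ← Fin.prod_univ_eq_prod_range (fun i => t ^ i • y₁) l]
      refine Finset.prod_congr rfl fun i _ => ?_
      show (b ^ (i : ℕ)) • ((b ^ (i : ℕ))⁻¹ * t ^ (i : ℕ)) • y₁ = t ^ (i : ℕ) • y₁
      rw [← mul_smul, mul_inv_cancel_left]
    have h2 : ∏ i : Fin l, (b ^ (i : ℕ)) • ((1 : M₁) : M) = 1 :=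
      Finset.prod_eq_one fun i _ => by rw [OneMemClass.coe_one, smul_one]
    have h3 := hbij.1 (a₁ := fun i : Fin l =>
      (⟨((b ^ (i : ℕ))⁻¹ * t ^ (i : ℕ)) • y₁, hinv _ (hti i) y₁ hy₁⟩ : M₁))
      (a₂ := fun _ => 1) (by
        show (∏ i : Fin l, (b ^ (i : ℕ)) •
          ((⟨((b ^ (i : ℕ))⁻¹ * t ^ (i : ℕ)) • y₁, hinv _ (hti i) y₁ hy₁⟩ : M₁) : M)) =
          ∏ i : Fin l, (b ^ (i : ℕ)) • ((1 : M₁) : M)
        rw [h1, h2, hy1])
    have h4 := congrArg Subtype.val (congrFun h3 ⟨0, hl.pos⟩)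
    have h5 : ((b ^ 0)⁻¹ * t ^ 0) • y₁ = 1 := h4
    rw [pow_zero, pow_zero, inv_one, one_mul, one_smul] at h5
    exact hne h5
  · have hstab1 : ∀ s ∈ T, s ∈ H → s • y = y := by
      intro s hs hsH
      rw [hy, Finset.smul_prod']
      refine Finset.prod_congr rfl fun i _ => ?_
      have h1 : ((t ^ i)⁻¹ * s * t ^ i) • y₁ = y₁ := by
        refine hfix _ (mul_mem (mul_mem (inv_mem (pow_mem htT i)) hs) (pow_mem htT i)) ?_
        have h2 := hH.conj_mem s hsH (t ^ i)⁻¹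
        rwa [inv_inv] at h2
      calc s • t ^ i • y₁ = t ^ i • ((t ^ i)⁻¹ * s * t ^ i) • y₁ := by
            rw [← mul_smul, ← mul_smul]
            congr 1
            group
        _ = t ^ i • y₁ := by rw [h1]
    have hstab2 : t • y = y := by
      have h1 : t • y = ∏ i ∈ Finset.range l, t ^ (i + 1) • y₁ := by
        rw [hy, Finset.smul_prod']
        refine Finset.prod_congr rfl fun i _ => ?_
        rw [← mul_smul, ← pow_succ']
      have h2 := Finset.prod_range_succ (fun i => t ^ i • y₁) l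
      have h3 := Finset.prod_range_succ' (fun i => t ^ i • y₁) l
      rw [h2, pow_zero, one_smul, hfix _ (pow_mem htT l) htl] at h3
      rw [h1, hy]
      exact (mul_right_cancel h3).symm
    intro s hs
    obtain ⟨j, hj⟩ := hgen t htH s
    have h1 : ((t ^ j)⁻¹ * s) • y = y :=
      hstab1 _ (mul_mem (inv_mem (zpow_mem htT j)) hs) hj
    have h2 : t ^ j • y = y := by
      have h3 : t ∈ MulAction.stabilizer B y := hstab2
      exact zpow_mem h3 j
    have h3 : s = t ^ j * ((t ^ j)⁻¹ * s) := by group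
    rw [h3, mul_smul, h1, h2]

private theorem ma_aux {q : ℕ} (hq : q.Prime) (n : ℕ) :
    ∀ (B : Type u) (M : Type v) [Group B] [Finite B] [CommGroup M] [Finite M] [Nontrivial M]
      [MulDistribMulAction B M], Nat.card B + Nat.card M ≤ n → Group.IsNilpotent B →
      Odd (Nat.card B) → ¬ q ∣ Nat.card B → (∀ m : M, m ^ q = 1) →
      ∃ S : Subgroup B × Subgroup B, CycP S ∧ ∀ T : Subgroup B, T ⊓ S.1 ≤ S.2 →
        ∃ y : M, y ≠ 1 ∧ ∀ t ∈ T, t • y = y := by
  induction n with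
  | zero =>
    intro B M _ _ _ _ _ _ h
    have h1 := Nat.card_pos (α := B)
    omega
  | succ n ih =>
    intro B M _ _ _ _ _ _ hn hB hodd hc hexp
    by_cases hirr : ∀ R : Subgroup M, Iv (⊤ : Subgroup B) R → R = ⊥ ∨ R = ⊤
    · rcases imp hq hB hodd hc hexp hirr with
        ⟨g, hg⟩ | ⟨H, M₁, l, b, hl, hHn, hi, hb, hM1, hinv, hbij⟩
      · obtain ⟨S, hS, hS1, hS2⟩ := ma_cyc (M := M) g hg
        obtain ⟨w, hw⟩ := exists_ne (1 : M)
        refine ⟨S, hS, fun T hT => ⟨w, hw, fun t ht => hS2 t (hT ⟨ht, ?_⟩) w⟩⟩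
        show t ∈ S.1
        rw [hS1]
        exact mem_top t
      · have hcardH : Nat.card H * H.index = Nat.card B := H.card_mul_index
        have hH0 : 0 < Nat.card H := Nat.card_pos
        have h2 := hl.two_le
        have hlt : Nat.card H < Nat.card B := by
          rw [← hcardH, hi]
          nlinarith
        have hle : Nat.card M₁ ≤ Nat.card M := Subgroup.card_le_card_group M₁
        have hdvd : Nat.card H ∣ Nat.card B := Subgroup.card_subgroup_dvd_card H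
        letI := subAct hinv
        haveI : Nontrivial M₁ := (Subgroup.nontrivial_iff_ne_bot M₁).2 hM1
        obtain ⟨S, hS, hST⟩ := ih H M₁ (by omega) inferInstance (hodd.of_dvd_nat hdvd)
          (fun h => hc (h.trans hdvd)) (fun m => Subtype.ext (hexp m))
        refine ⟨(S.1.map H.subtype, S.2.map H.subtype), ma_map hS, fun T hT => ?_⟩
        obtain ⟨y₁, hy₁, hfix⟩ := hST (T.subgroupOf H) (by
          rintro x ⟨hx1, hx2⟩
          have h3 : (x : B) ∈ S.2.map H.subtype := hT ⟨mem_subgroupOf.1 hx1, ⟨x, hx2, rfl⟩⟩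
          obtain ⟨x', hx', hxx⟩ := h3
          have h4 : x' = x := Subtype.ext hxx
          rwa [← h4])
        refine ma_induced H M₁ l b hl hHn hi hb hinv hbij T y₁ y₁.2
          (fun h => hy₁ (Subtype.ext h)) (fun t ht htH => ?_)
        exact congrArg Subtype.val (hfix ⟨t, htH⟩ (mem_subgroupOf.2 ht))
    · push Not at hirr
      obtain ⟨R, hR, hRb, hRt⟩ := hirr
      have hlt : Nat.card R < Nat.card M :=
        lt_of_le_of_ne (Subgroup.card_le_card_group R)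
          fun h => hRt (Subgroup.eq_top_of_card_eq R h)
      letI := maAct hR
      haveI : Nontrivial R := (Subgroup.nontrivial_iff_ne_bot R).2 hRb
      obtain ⟨S, hS, hST⟩ := ih B R (by omega) hB hodd hc (fun m => Subtype.ext (hexp m))
      refine ⟨S, hS, fun T hT => ?_⟩
      obtain ⟨y, hy, hfix⟩ := hST T hT
      exact ⟨y, fun h => hy (Subtype.ext h), fun t ht => congrArg Subtype.val (hfix t ht)⟩

theorem monoA {B M : Type*} [Group B] [Finite B] [CommGroup M] [Finite M] [Nontrivial M]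
    [MulDistribMulAction B M] {q : ℕ} (hq : q.Prime) (hB : Group.IsNilpotent B)
    (hodd : Odd (Nat.card B)) (hc : ¬ q ∣ Nat.card B) (hexp : ∀ m : M, m ^ q = 1) :
    ∃ S : Subgroup B × Subgroup B, CycP S ∧ ∀ T : Subgroup B, T ⊓ S.1 ≤ S.2 →
      ∃ y : M, y ≠ 1 ∧ ∀ t ∈ T, t • y = y :=
  ma_aux hq _ B M le_rfl hB hodd hc hexp

end Pool.Agent.Work.MP_b44cb1_al
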