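import Pool.Agent.Work.MP_b44cb1_al.Full.Kit.KDefs
import Pool.Agent.Work.MP_b44cb1_al.Maschke

/-!
# MskA : Maschke's theorem, abstract form  (size S-M)

PROOF. Copy the averaging of `Maschke.lean` (`msk_proj` gives a homomorphism `π : M → M` onto `R`, identity on
`R`; `π' m = ∏ b, b • π (b⁻¹ • m)`, `R' = ker π'`; `q ∤ |B|`).
-/

set_option autoImplicit false

namespace Pool.Agent.Work.MP_b44cb1_al

open Subgroup

private theorem mskA_proj {M : Type*} [CommGroup M] {p : ℕ} (hp : p.Prime)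
    (hMp : ∀ m : M, m ^ p = 1) (M₁ : Subgroup M) :
    ∃ π : M →* M, (∀ m, π m ∈ M₁) ∧ ∀ m ∈ M₁, π m = m := by
  have : Fact p.Prime := ⟨hp⟩
  let _ : Module (ZMod p) (Additive M) :=
    AddCommGroup.zmodModule (n := p) (fun x => hMp x.toMul)
  let W : Submodule (ZMod p) (Additive M) :=
    AddSubgroup.toZModSubmodule p (Subgroup.toAddSubgroup M₁)
  obtain ⟨W', hW⟩ := W.exists_isCompl
  let f : Additive M →ₗ[ZMod p] Additive M := W.subtype ∘ₗ (W.projectionOnto W' hW)
  refine ⟨MonoidHom.toAdditive.symm f.toAddMonoidHom, ?_, ?_⟩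
  · intro m
    have h1 : f (Additive.ofMul m) ∈ W := (W.projectionOnto W' hW (Additive.ofMul m)).2
    rw [AddSubgroup.mem_toZModSubmodule] at h1
    exact h1
  · intro m hm
    have h1 : Additive.ofMul m ∈ W := by
      rw [AddSubgroup.mem_toZModSubmodule]
      exact hm
    have h2 := Submodule.projectionOnto_apply_left hW ⟨Additive.ofMul m, h1⟩
    have h3 : f (Additive.ofMul m) = Additive.ofMul m := by
      simp only [f, LinearMap.comp_apply]
      rw [h2]
      rfl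
    exact congrArg Additive.toMul h3

theorem mskA {B M : Type*} [Group B] [Finite B] [CommGroup M] [Finite M] [MulDistribMulAction B M]
    {q : ℕ} (hq : q.Prime) (hc : ¬ q ∣ Nat.card B) (hexp : ∀ m : M, m ^ q = 1)
    (R : Subgroup M) (hR : Iv (⊤ : Subgroup B) R) :
    ∃ R' : Subgroup M, Iv (⊤ : Subgroup B) R' ∧ R ⊓ R' = ⊥ ∧ R ⊔ R' = ⊤ := by
  classical
  obtain ⟨π, hπ1, hπ2⟩ := mskA_proj hq hexp R
  let _ : Fintype B := Fintype.ofFinite B
  let π' : M →* M :=
    { toFun := fun m => ∏ b : B, b • π (b⁻¹ • m)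
      map_one' := by simp
      map_mul' := fun m m' => by simp [smul_mul', Finset.prod_mul_distrib] }
  have hdef : ∀ m, π' m = ∏ b : B, b • π (b⁻¹ • m) := fun _ => rfl
  have h1 : ∀ m, π' m ∈ R := fun m =>
    Subgroup.prod_mem _ fun b _ => hR b (mem_top b) _ (hπ1 _)
  have h2 : ∀ m ∈ R, π' m = m ^ (Nat.card B) := by
    intro m hm
    have h3 : ∀ b : B, b • π (b⁻¹ • m) = m := by
      intro b
      rw [hπ2 _ (hR b⁻¹ (mem_top _) m hm), smul_inv_smul]
    rw [hdef, Finset.prod_congr rfl (fun b _ => h3 b), Finset.prod_const, Finset.card_univ,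
      Nat.card_eq_fintype_card]
  have h3 : ∀ (c : B) (m : M), π' (c • m) = c • π' m := by
    intro c m
    rw [hdef, hdef, Finset.smul_prod']
    rw [← Equiv.prod_comp (Equiv.mulLeft c)]
    refine Finset.prod_congr rfl fun b _ => ?_
    show (c * b) • π ((c * b)⁻¹ • c • m) = c • b • π (b⁻¹ • m)
    rw [mul_inv_rev, smul_smul (b⁻¹ * c⁻¹) c m, inv_mul_cancel_right, mul_smul]
  have hcop : Nat.Coprime (Nat.card B) q := by
    rw [Nat.coprime_comm]
    exact (Nat.Prime.coprime_iff_not_dvd hq).2 hc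
  have hroot : ∀ m : M, ∃ s : ℕ, (m ^ Nat.card B) ^ s = m := by
    intro m
    apply exists_pow_eq_self_of_coprime
    exact Nat.Coprime.coprime_dvd_right (orderOf_dvd_of_pow_eq_one (hexp m)) hcop
  refine ⟨π'.ker, ?_, ?_, ?_⟩
  · intro c _ m hm
    rw [MonoidHom.mem_ker] at hm ⊢
    rw [h3, hm, smul_one]
  · rw [eq_bot_iff]
    rintro m ⟨hm1, hm2⟩
    have h4 : π' m = 1 := hm2
    rw [h2 m hm1] at h4
    obtain ⟨s, hs⟩ := hroot m
    rw [h4, one_pow] at hs
    exact hs.symm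
  · rw [eq_top_iff]
    intro m _
    obtain ⟨s, hs⟩ := hroot (π' m)
    have h4 : (π' m) ^ s ∈ R := R.pow_mem (h1 m) s
    have h5 : ((π' m) ^ s)⁻¹ * m ∈ π'.ker := by
      rw [MonoidHom.mem_ker, map_mul, map_inv, h2 _ h4, ← pow_mul, mul_comm s, pow_mul, hs,
        inv_mul_cancel]
    have h6 := mul_mem_sup h4 h5
    rwa [mul_inv_cancel_left] at h6

end Pool.Agent.Work.MP_b44cb1_al
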