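import Pool.Agent.Work.MP_b44cb1_al.Full.Kit.Cyc

/-!
# K9b nilpp : the same for nilpotent groups of odd order  (size S-M)

PROOF. If all Sylow subgroups of `B` are cyclic then the nilpotent group `B` is cyclic (search Mathlib: `IsZGroup`,
`Group.IsNilpotent`, `isNilpotent_of_finite_tfae`; or: `B` is the product of its Sylow
subgroups, elements of coprime orders commute, the product of generators generates). So some Sylow `p`-subgroup `P` of
`B` is not cyclic; `p ≠ 2` as `|B|` is odd; `pp` gives `E` normal in `P`. The image of `E` in `B` is normal: `B` is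
the product of `P` and of the other Sylow subgroups, which commute with `P` elementwise (or:
for `g ∈ B` write `g = x y`, `x` a power of `g` of `p`-power order, `y` a power of `g` of order prime to `p`;
`x ∈ P`, `y` commutes with `P`).
-/

set_option autoImplicit false

namespace Pool.Agent.Work.MP_b44cb1_al

private theorem conj_single {I : Type*} {f : I → Type*} [DecidableEq I] [∀ i, Group (f i)]
    (i : I) (x : f i) (h : ∀ i, f i) :
    h * Pi.mulSingle i x * h⁻¹ = Pi.mulSingle i (h i * x * (h i)⁻¹) := by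
  funext j
  by_cases hj : j = i
  · subst hj
    simp
  · simp [Pi.mulSingle_eq_of_ne hj]

theorem nilpp {B : Type*} [Group B] [Finite B] (hB : Group.IsNilpotent B)
    (hodd : Odd (Nat.card B)) (hnc : ¬ IsCyclic B) :
    ∃ (p : ℕ) (E : Subgroup B), p.Prime ∧ E.Normal ∧ Nat.card E = p ^ 2 ∧
      (∀ x ∈ E, x ^ p = 1) ∧ ∀ x ∈ E, ∀ y ∈ E, x * y = y * x := by
  classical
  have hZ : ¬ IsZGroup B := fun h => hnc inferInstance
  rw [isZGroup_iff] at hZ
  push Not at hZ
  obtain ⟨p, hp, P, hP⟩ := hZ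
  have := Fact.mk hp
  have hPnt : Nontrivial P := by
    by_contra h
    rw [not_nontrivial_iff_subsingleton] at h
    exact hP inferInstance
  have hPp : IsPGroup p P := P.2
  have hpP : p ∣ Nat.card P := by
    rcases hPp.card_eq_or_dvd with h | h
    · exact absurd h (Finite.one_lt_card).ne'
    · exact h
  have hpB : p ∣ Nat.card B := hpP.trans (Subgroup.card_subgroup_dvd_card _)
  have hp2 : p ≠ 2 := by
    rintro rfl
    exact (Nat.not_even_iff_odd.2 hodd) (even_iff_two_dvd.2 hpB)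
  have hpf : p ∈ (Nat.card B).primeFactors := Nat.mem_primeFactors.2 ⟨hp, hpB, Nat.card_pos.ne'⟩
  obtain ⟨E0, hE0n, hE0c, hE0e, hE0a⟩ := pp hp hp2 hPp hP
  obtain ⟨φ⟩ := ((Group.isNilpotent_of_finite_tfae (G := B)).out 0 4).mp hB
  let ι1 : P →* (∀ Q : Sylow p B, Q) := MonoidHom.mulSingle (fun Q : Sylow p B => Q) P
  let ι2 : (∀ Q : Sylow p B, Q) →* (∀ q : (Nat.card B).primeFactors, ∀ Q : Sylow q B, Q) :=
    MonoidHom.mulSingle (fun q : (Nat.card B).primeFactors => ∀ Q : Sylow q B, Q) ⟨p, hpf⟩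
  let ι := ι2.comp ι1
  have hιinj : Function.Injective ι := by
    intro x y h
    have h1 : ι1 x = ι1 y := Pi.mulSingle_injective _ h
    have h2 : ι1 x P = ι1 y P := congrFun h1 P
    have h3 : ∀ z : P, ι1 z P = z := fun z =>
      Pi.mulSingle_eq_same (M := fun Q : Sylow p B => Q) P z
    rwa [h3, h3] at h2
  let f : P →* B := φ.toMonoidHom.comp ι
  have hfinj : Function.Injective f := φ.injective.comp hιinj
  have hn : (E0.map ι).Normal := by
    refine ⟨?_⟩
    rintro _ ⟨e, he, rfl⟩ h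
    refine ⟨h ⟨p, hpf⟩ P * e * (h ⟨p, hpf⟩ P)⁻¹, hE0n.conj_mem e he _, ?_⟩
    symm
    change h * Pi.mulSingle ⟨p, hpf⟩ (Pi.mulSingle P e) * h⁻¹ =
      Pi.mulSingle ⟨p, hpf⟩ (Pi.mulSingle P (h ⟨p, hpf⟩ P * e * (h ⟨p, hpf⟩ P)⁻¹))
    rw [conj_single, conj_single]
  refine ⟨p, E0.map f, hp, ?_, ?_, ?_, ?_⟩
  · have h1 : E0.map f = (E0.map ι).map φ.toMonoidHom := by
      rw [Subgroup.map_map]
    rw [h1]
    exact hn.map _ φ.surjective
  · rw [Subgroup.card_map_of_injective hfinj, hE0c]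
  · rintro _ ⟨x, hx, rfl⟩
    rw [← map_pow, hE0e x hx, map_one]
  · rintro _ ⟨x, hx, rfl⟩ _ ⟨y, hy, rfl⟩
    rw [← map_mul, hE0a x hx y hy, map_mul]

end Pool.Agent.Work.MP_b44cb1_al
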