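import Pool.Agent.Work.MP_b44cb1_al.Full.Kit.KDefs

/-!
# RegI : regular vector in an imprimitive module  (size M)

PROOF. Write `B` = union of the cosets `b ^ i H` (`H` normal of prime index `l`, `b ∉ H`), `b ^ l ∈ H`, and for every `g ∉ H` some
power `g ^ k` lies in `b H`. Put `f 0 = v₁⁻¹`, `f i = v₁` for `i ≠ 0`, `v = ∏ i, b ^ i • f i`.
For `h ∈ H`: `h • v = ∏ b ^ i • (b ^ (-i) h b ^ i • f i)`, with `b ^ (-i) h b ^ i ∈ H`, so `h • v = v` implies (injectivity)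
`(b ^ (-i) h b ^ i) • f i = f i`, so `b ^ (-i) h b ^ i` fixes `v₁`, hence all of `M₁` (`hreg`), so `h` fixes `b ^ i • M₁` for all `i` and hence `M` (surjectivity).
If `g ∉ H` fixes `v`, then so does `g ^ k = b h`, `h ∈ H`. `(b h) • v = ∏_i b ^ (i+1) • (b ^ (-i) h b ^ i • f i)`; comparing the factors of
`b ^ 1` (for `i = l - 1`, `b ^ l ∈ H` and the factor goes to `b ^ 0`): `h • f 0 = f 1`, i.e. `h • v₁ = v₁⁻¹`. Then `h ^ 2` fixes `v₁`, `h` has odd order, so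
`h` fixes `v₁` and `v₁ ^ 2 = 1`, `v₁ = 1` as `v₁ ^ q = 1`, `q` odd: contradiction to `v₁ ≠ 1`.
-/

set_option autoImplicit false

namespace Pool.Agent.Work.MP_b44cb1_al

open Subgroup

theorem regI {B M : Type*} [Group B] [Finite B] [CommGroup M] [Finite M]
    [MulDistribMulAction B M] {q : ℕ} (hq : q.Prime) (hq2 : q ≠ 2)
    (hodd : Odd (Nat.card B)) (hexp : ∀ m : M, m ^ q = 1)
    (H : Subgroup B) (M₁ : Subgroup M) (l : ℕ) (b : B) (hl : l.Prime) (hH : H.Normal)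
    (hi : H.index = l) (hb : b ∉ H) (hinv : Iv H M₁)
    (hbij : Function.Bijective (fun f : Fin l → M₁ => ∏ i : Fin l, (b ^ (i : ℕ)) • (f i : M)))
    (v₁ : M) (hv₁ : v₁ ∈ M₁) (hne : v₁ ≠ 1)
    (hreg : ∀ h ∈ H, h • v₁ = v₁ → ∀ m ∈ M₁, h • m = m) :
    ∃ v : M, ∀ g : B, g • v = v → ∀ m : M, g • m = m := by
  obtain ⟨n, rfl⟩ : ∃ n, l = n + 2 := ⟨l - 2, by have := hl.two_le; omega⟩
  have hconj : ∀ (i : ℕ) (h : B), h ∈ H → (b ^ i)⁻¹ * h * b ^ i ∈ H := by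
    intro i h hh
    have h1 := hH.conj_mem h hh (b ^ i)⁻¹
    rwa [inv_inv] at h1
  -- the action of `h ∈ H` in the product decomposition
  have hact : ∀ (h : B) (f : Fin (n + 2) → M₁),
      h • (∏ i : Fin (n + 2), (b ^ (i : ℕ)) • (f i : M)) =
        ∏ i : Fin (n + 2), (b ^ (i : ℕ)) • (((b ^ (i : ℕ))⁻¹ * h * b ^ (i : ℕ)) • (f i : M)) := by
    intro h f
    rw [Finset.smul_prod']
    refine Finset.prod_congr rfl fun i _ => ?_
    rw [smul_smul, smul_smul]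
    congr 1
    group
  have hfix : ∀ h ∈ H, ∀ f : Fin (n + 2) → M₁,
      h • (∏ i : Fin (n + 2), (b ^ (i : ℕ)) • (f i : M)) =
        ∏ i : Fin (n + 2), (b ^ (i : ℕ)) • (f i : M) →
      ∀ i : Fin (n + 2), ((b ^ (i : ℕ))⁻¹ * h * b ^ (i : ℕ)) • (f i : M) = (f i : M) := by
    intro h hh f hf i
    rw [hact] at hf
    have h1 := hbij.1 (a₁ := fun i : Fin (n + 2) =>
      (⟨((b ^ (i : ℕ))⁻¹ * h * b ^ (i : ℕ)) • (f i : M),
        hinv _ (hconj i h hh) _ (f i).2⟩ : M₁)) (a₂ := f) hf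
    have h2 := congrFun h1 i
    exact congrArg Subtype.val h2
  -- the vector
  let f : Fin (n + 2) → M₁ := fun i => if i = 0 then ⟨v₁, hv₁⟩⁻¹ else ⟨v₁, hv₁⟩
  have hf0 : (f 0 : M) = v₁⁻¹ := by simp [f]
  have hfi : ∀ i, i ≠ 0 → (f i : M) = v₁ := by
    intro i hi0
    simp [f, hi0]
  have hfv : ∀ (i : Fin (n + 2)) (h : B), h • (f i : M) = (f i : M) → h • v₁ = v₁ := by
    intro i h hh
    by_cases h0 : i = 0
    · rw [h0, hf0, smul_inv', inv_inj] at hh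
      exact hh
    · rwa [hfi i h0] at hh
  refine ⟨∏ i : Fin (n + 2), (b ^ (i : ℕ)) • (f i : M), fun g hg => ?_⟩
  have hHcase : ∀ h ∈ H, h • (∏ i : Fin (n + 2), (b ^ (i : ℕ)) • (f i : M)) =
      ∏ i : Fin (n + 2), (b ^ (i : ℕ)) • (f i : M) → ∀ m : M, h • m = m := by
    intro h hh hv m
    obtain ⟨g', hg'⟩ := hbij.2 m
    have hg'' : (∏ i : Fin (n + 2), (b ^ (i : ℕ)) • (g' i : M)) = m := hg'
    rw [← hg'', hact]
    refine Finset.prod_congr rfl fun i _ => ?_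
    rw [hreg _ (hconj i h hh) (hfv i _ (hfix h hh f hv i)) _ (g' i).2]
  by_cases hgH : g ∈ H
  · exact hHcase g hgH hg
  exfalso
  -- a power of `g` in the coset of `b`
  have := hH
  have : Fact (n + 2).Prime := ⟨hl⟩
  have hcard : Nat.card (B ⧸ H) = n + 2 := hi
  have hg1 : (QuotientGroup.mk g : B ⧸ H) ≠ 1 := by
    intro h
    exact hgH ((QuotientGroup.eq_one_iff g).1 h)
  obtain ⟨k, hk⟩ := Submonoid.mem_powers_iff _ _ |>.1
    (mem_powers_of_prime_card hcard hg1 (g' := (QuotientGroup.mk b : B ⧸ H)))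
  have hk2 : b⁻¹ * g ^ k ∈ H := by
    rw [← QuotientGroup.eq, QuotientGroup.mk_pow]
    exact hk.symm
  have hstab : g ^ k • (∏ i : Fin (n + 2), (b ^ (i : ℕ)) • (f i : M)) =
      ∏ i : Fin (n + 2), (b ^ (i : ℕ)) • (f i : M) := by
    have h1 : g ∈ MulAction.stabilizer B (∏ i : Fin (n + 2), (b ^ (i : ℕ)) • (f i : M)) := hg
    exact pow_mem h1 k
  obtain ⟨h, hh⟩ : ∃ h, h = b⁻¹ * g ^ k := ⟨_, rfl⟩
  rw [← hh] at hk2
  have hbh : g ^ k = b * h := by rw [hh]; group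
  have hbl : b ^ (n + 2) ∈ H := by
    have h1 := H.pow_index_mem b
    rwa [hi] at h1
  rw [hbh, mul_smul, hact] at hstab
  -- shift of the factors
  let w : Fin (n + 2) → M₁ := fun i =>
    ⟨((b ^ (i : ℕ))⁻¹ * h * b ^ (i : ℕ)) • (f i : M), hinv _ (hconj i h hk2) _ (f i).2⟩
  let f' : Fin (n + 2) → M₁ := Fin.cons (α := fun _ => M₁)
    ⟨b ^ (n + 2) • (w (Fin.last (n + 1)) : M), hinv _ hbl _ (w _).2⟩
    (fun i : Fin (n + 1) => w i.castSucc)
  have hshift : b • (∏ i : Fin (n + 2), (b ^ (i : ℕ)) • (w i : M)) =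
      ∏ i : Fin (n + 2), (b ^ (i : ℕ)) • (f' i : M) := by
    rw [Finset.smul_prod', Fin.prod_univ_castSucc, mul_comm,
      Fin.prod_univ_succ (fun i : Fin (n + 2) => (b ^ (i : ℕ)) • (f' i : M))]
    congr 1
    · have h1 : (f' 0 : M) = b ^ (n + 2) • (w (Fin.last (n + 1)) : M) := rfl
      rw [h1, Fin.val_zero, pow_zero, one_smul, Fin.val_last]
      generalize (w (Fin.last (n + 1)) : M) = z
      rw [smul_smul, ← pow_succ']
    · refine Finset.prod_congr rfl fun i _ => ?_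
      have h1 : (f' i.succ : M) = (w i.castSucc : M) := rfl
      rw [h1, Fin.val_castSucc, Fin.val_succ]
      generalize (w i.castSucc : M) = z
      rw [smul_smul, ← pow_succ']
  have hstab2 : (∏ i : Fin (n + 2), (b ^ (i : ℕ)) • (f' i : M)) =
      ∏ i : Fin (n + 2), (b ^ (i : ℕ)) • (f i : M) := by
    rw [← hshift]
    exact hstab
  have hff : f' = f := hbij.1 hstab2
  have h1 : (f' 1 : M) = (f 1 : M) := by rw [hff]
  have h2 : (f' 1 : M) = h • v₁⁻¹ := by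
    have h3 : (f' 1 : M) = (w 0 : M) := rfl
    rw [h3]
    show (((b ^ ((0 : Fin (n + 2)) : ℕ))⁻¹ * h * b ^ ((0 : Fin (n + 2)) : ℕ)) • (f 0 : M)) = _
    rw [hf0]
    simp
  have h3 : (f 1 : M) = v₁ := hfi 1 (by simp)
  have h4 : h • v₁ = v₁⁻¹ := by
    rw [h2, h3, smul_inv'] at h1
    exact inv_eq_iff_eq_inv.1 h1
  have h5 : h ^ 2 • v₁ = v₁ := by
    rw [pow_two, mul_smul, h4, smul_inv', h4, inv_inv]
  have hordh : Odd (orderOf h) := by
    have h6 : orderOf h ∣ Nat.card B := orderOf_dvd_natCard h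
    exact Odd.of_dvd_nat hodd h6
  obtain ⟨r, hr⟩ := hordh
  have h7 : h • v₁ = v₁ := by
    have h8 : (h ^ 2) ^ (r + 1) = h := by
      rw [← pow_mul, show 2 * (r + 1) = (2 * r + 1) + 1 by ring, pow_succ, ← hr, pow_orderOf_eq_one,
        one_mul]
    have h9 : h ^ 2 ∈ MulAction.stabilizer B v₁ := h5
    have h10 : (h ^ 2) ^ (r + 1) ∈ MulAction.stabilizer B v₁ := pow_mem h9 _
    rw [h8] at h10
    exact h10
  rw [h7] at h4
  have h11 : v₁ ^ 2 = 1 := by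
    rw [pow_two]
    nth_rewrite 1 [h4]
    exact inv_mul_cancel v₁
  have h12 : orderOf v₁ ∣ 2 := orderOf_dvd_of_pow_eq_one h11
  have h13 : orderOf v₁ ∣ q := orderOf_dvd_of_pow_eq_one (hexp v₁)
  have h14 : Nat.Coprime 2 q := (Nat.coprime_primes Nat.prime_two hq).2 (Ne.symm hq2)
  have h15 : orderOf v₁ ∣ 1 := by
    rw [← h14]
    exact Nat.dvd_gcd h12 h13
  exact hne (orderOf_eq_one_iff.1 (Nat.dvd_one.1 h15))

end Pool.Agent.Work.MP_b44cb1_al
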