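import Pool.Agent.Work.MP_b44cb1_al.Full.Kit.Imp
import Pool.Agent.Work.MP_b44cb1_al.Full.Kit.RegI
import Pool.Agent.Work.MP_b44cb1_al.Full.Kit.MskA

/-!
# K8 regA : regular vectors, abstract form  (size M)

PROOF. Induction on `|B| + |M|` over all `B`, `M` (fixed universes). If `M` is trivial take `v = 1`.
(1) There is an invariant `R ≠ ⊥, ⊤`: `mskA` gives `R'`; `R`, `R'` are smaller `B`-modules (`subAct` with `H = ⊤`, or let `B` itself act:
define the action of `B` on `R` directly), induction gives `v ∈ R`, `v' ∈ R'`; if `b` fixes `v v'` then `b v * (b v') = v v'` and `R ⊓ R' = ⊥` give `b v = v`,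
`b v' = v'`, so `b` is trivial on `R`, `R'`, `M`.
(2) `M` irreducible: `imp`. First case (`B` acts through the powers of one `g`, so all `b`, `c` commute on `M`): any `v ≠ 1`; if `b v = v` then
`{m : b m = m}` is an invariant subgroup `≠ ⊥`, so `⊤`. Second case: `H` is a proper subgroup of `B`; induction for `H` acting on `M₁` (`subAct`, `H` is nilpotent
of odd order, `q ∤ |H|`) gives `v₁` with `h v₁ = v₁ → h` trivial on `M₁`; if `v₁ = 1` then `H` acts trivially on `M₁` and we take any `v₁ ≠ 1` instead. `regI`.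
-/

set_option autoImplicit false

namespace Pool.Agent.Work.MP_b44cb1_al

open Subgroup

universe u v

/-- The action on an invariant subgroup. -/
@[reducible] private def raAct {B M : Type*} [Group B] [Group M] [MulDistribMulAction B M]
    {R : Subgroup M} (h : Iv (⊤ : Subgroup B) R) : MulDistribMulAction B R where
  smul b m := ⟨b • (m : M), h b (mem_top b) m m.2⟩
  one_smul m := Subtype.ext (one_smul B (m : M))
  mul_smul a b m := Subtype.ext (mul_smul a b (m : M))
  smul_mul b m n := Subtype.ext (smul_mul' b (m : M) (n : M))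
  smul_one b := Subtype.ext (smul_one b)

private theorem ra_aux {q : ℕ} (hq : q.Prime) (hq2 : q ≠ 2) (n : ℕ) :
    ∀ (B : Type u) (M : Type v) [Group B] [Finite B] [CommGroup M] [Finite M]
      [MulDistribMulAction B M], Nat.card B + Nat.card M ≤ n → Group.IsNilpotent B →
      Odd (Nat.card B) → ¬ q ∣ Nat.card B → (∀ m : M, m ^ q = 1) →
      ∃ v : M, ∀ b : B, b • v = v → ∀ m : M, b • m = m := by
  induction n with
  | zero =>
    intro B M _ _ _ _ _ h
    have h1 := Nat.card_pos (α := B)
    omega
  | succ n ih =>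
    intro B M _ _ _ _ _ hn hB hodd hc hexp
    by_cases htriv : Subsingleton M
    · exact ⟨1, fun b _ m => Subsingleton.elim _ _⟩
    have hM : Nontrivial M := not_subsingleton_iff_nontrivial.1 htriv
    by_cases hirr : ∀ R : Subgroup M, Iv (⊤ : Subgroup B) R → R = ⊥ ∨ R = ⊤
    · rcases imp hq hB hodd hc hexp hirr with
        ⟨g, hg⟩ | ⟨H, M₁, l, b, hl, hHn, hi, hb, hM1, hinv, hbij⟩
      · obtain ⟨w, hw⟩ := exists_ne (1 : M)
        refine ⟨w, fun b hbw => ?_⟩
        have hcomm : ∀ (b c : B) (m : M), b • c • m = c • b • m := by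
          intro b c m
          obtain ⟨k, hk⟩ := hg b
          obtain ⟨j, hj⟩ := hg c
          rw [hj m, hk, hk m, hj, ← mul_smul, ← mul_smul, ← zpow_add, ← zpow_add, add_comm]
        obtain ⟨R, hRd⟩ : ∃ R : Subgroup M, ∀ m, m ∈ R ↔ b • m = m :=
          ⟨MonoidHom.eqLocus (MulDistribMulAction.toMonoidHom M b) (MonoidHom.id M),
            fun _ => Iff.rfl⟩
        have hR : Iv (⊤ : Subgroup B) R := fun c _ m hm => by
          rw [hRd] at hm ⊢
          rw [hcomm b c m, hm]
        rcases hirr R hR with h | h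
        · exfalso
          have h1 : w ∈ R := (hRd w).2 hbw
          rw [h, mem_bot] at h1
          exact hw h1
        · intro m
          exact (hRd m).1 (h ▸ mem_top m)
      · have hcardH : Nat.card H * H.index = Nat.card B := H.card_mul_index
        have hH0 : 0 < Nat.card H := Nat.card_pos
        have h2 := hl.two_le
        have hlt : Nat.card H < Nat.card B := by
          rw [← hcardH, hi]
          nlinarith
        have hle : Nat.card M₁ ≤ Nat.card M := Subgroup.card_le_card_group M₁
        have hdvd : Nat.card H ∣ Nat.card B := Subgroup.card_subgroup_dvd_card H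
        letI := subAct hinv
        obtain ⟨v₁, hv₁⟩ := ih H M₁ (by omega) inferInstance (hodd.of_dvd_nat hdvd)
          (fun h => hc (h.trans hdvd)) (fun m => Subtype.ext (hexp m))
        have hreg : ∃ v₁ : M, v₁ ∈ M₁ ∧ v₁ ≠ 1 ∧
            ∀ h ∈ H, h • v₁ = v₁ → ∀ m ∈ M₁, h • m = m := by
          have key : ∀ h ∈ H, h • (v₁ : M) = v₁ → ∀ m ∈ M₁, h • m = m := by
            intro h hh hhv m hm
            have h3 := hv₁ ⟨h, hh⟩ (Subtype.ext hhv) ⟨m, hm⟩
            exact congrArg Subtype.val h3
          by_cases hone : (v₁ : M) = 1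
          · obtain ⟨w, hw, hw1⟩ := (Subgroup.bot_or_exists_ne_one M₁).resolve_left hM1
            refine ⟨w, hw, hw1, fun h hh _ => key h hh ?_⟩
            rw [hone, smul_one]
          · exact ⟨v₁, v₁.2, hone, key⟩
        obtain ⟨w, hw, hw1, hwr⟩ := hreg
        exact regI hq hq2 hodd hexp H M₁ l b hl hHn hi hb hinv hbij w hw hw1 hwr
    · push Not at hirr
      obtain ⟨R, hR, hRb, hRt⟩ := hirr
      obtain ⟨R', hR', hinf, hsup⟩ := mskA hq hc hexp R hR
      have hR't : R' ≠ ⊤ := by
        intro h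
        rw [h, inf_top_eq] at hinf
        exact hRb hinf
      have key : ∀ R : Subgroup M, Iv (⊤ : Subgroup B) R → R ≠ ⊤ →
          ∃ w ∈ R, ∀ b : B, b • w = w → ∀ m ∈ R, b • m = m := by
        intro R hR hRt
        have hlt : Nat.card R < Nat.card M :=
          lt_of_le_of_ne (Subgroup.card_le_card_group R)
            fun h => hRt (Subgroup.eq_top_of_card_eq R h)
        letI := raAct hR
        obtain ⟨w, hw⟩ := ih B R (by omega) hB hodd hc (fun m => Subtype.ext (hexp m))
        refine ⟨w, w.2, fun b hb m hm => ?_⟩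
        exact congrArg Subtype.val (hw b (Subtype.ext hb) ⟨m, hm⟩)
      obtain ⟨w, hwR, hw⟩ := key R hR hRt
      obtain ⟨w', hwR', hw'⟩ := key R' hR' hR't
      refine ⟨w * w', fun b hb m => ?_⟩
      rw [smul_mul'] at hb
      have h1 : (b • w) * w⁻¹ = w' * (b • w')⁻¹ := by
        rw [eq_mul_inv_iff_mul_eq]
        calc b • w * w⁻¹ * b • w' = (b • w * b • w') * w⁻¹ := by
              rw [mul_assoc, mul_assoc, mul_comm w⁻¹]
          _ = w' := by rw [hb, mul_comm w w', mul_inv_cancel_right]
      have h2 : (b • w) * w⁻¹ ∈ R ⊓ R' := by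
        have h5 : b • w * w⁻¹ ∈ R := R.mul_mem (hR b (mem_top b) w hwR) (R.inv_mem hwR)
        have h6 : w' * (b • w')⁻¹ ∈ R' :=
          R'.mul_mem hwR' (R'.inv_mem (hR' b (mem_top b) w' hwR'))
        rw [← h1] at h6
        exact Subgroup.mem_inf.2 ⟨h5, h6⟩
      rw [hinf, mem_bot] at h2
      have h3 : b • w = w := by
        rw [mul_inv_eq_one] at h2
        exact h2
      have h4 : b • w' = w' := by
        rw [h2] at h1
        exact (mul_inv_eq_one.1 h1.symm).symm
      have hm : m ∈ R ⊔ R' := hsup ▸ mem_top m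
      obtain ⟨r, hr, r', hr', rfl⟩ := Subgroup.mem_sup.1 hm
      rw [smul_mul', hw b h3 r hr, hw' b h4 r' hr']

theorem regA {B M : Type*} [Group B] [Finite B] [CommGroup M] [Finite M]
    [MulDistribMulAction B M] {q : ℕ} (hq : q.Prime) (hq2 : q ≠ 2) (hB : Group.IsNilpotent B)
    (hodd : Odd (Nat.card B)) (hc : ¬ q ∣ Nat.card B) (hexp : ∀ m : M, m ^ q = 1) :
    ∃ v : M, ∀ b : B, b • v = v → ∀ m : M, b • m = m :=
  ra_aux hq hq2 _ B M le_rfl hB hodd hc hexp

end Pool.Agent.Work.MP_b44cb1_al
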